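import Pool.Agent.Y881.SP.Expand

set_option autoImplicit false

/-! # Few solutions of `(a + s) / t ∈ Z` -/

open Finset

namespace Pool.Agent.Y881.SP

/-- a subset with large degrees -/
theorem prune {α : Type*} [DecidableEq α] (X : Finset α) (w : α → α → ℝ)
    (hw0 : ∀ x y, 0 ≤ w x y) (hs : ∀ x y, w x y = w y x) (θ : ℝ) :
    ∃ Y ⊆ X, (∑ x ∈ X, ∑ y ∈ X, w x y) - θ * X.card ≤ (∑ x ∈ Y, ∑ y ∈ Y, w x y) - θ * Y.card ∧
      ∀ y ∈ Y, θ ≤ 2 * ∑ y' ∈ Y, w y y' := by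
  obtain ⟨Y, hY, hmax⟩ := exists_max_image X.powerset
    (fun Y => (∑ x ∈ Y, ∑ y ∈ Y, w x y) - θ * Y.card) ⟨X, mem_powerset_self X⟩
  refine ⟨Y, mem_powerset.1 hY, hmax X (mem_powerset_self X), fun y hy => ?_⟩
  have h1 := hmax (Y.erase y) (mem_powerset.2 ((erase_subset _ _).trans (mem_powerset.1 hY)))
  have h2 : (∑ x ∈ Y, ∑ z ∈ Y, w x z) =
      (∑ x ∈ Y.erase y, ∑ z ∈ Y.erase y, w x z) + 2 * (∑ z ∈ Y, w y z) - w y y := by
    rw [← add_sum_erase Y (fun x => ∑ z ∈ Y, w x z) hy]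
    have h3 : ∀ x, ∑ z ∈ Y, w x z = w x y + ∑ z ∈ Y.erase y, w x z := fun x =>
      (add_sum_erase Y (fun z => w x z) hy).symm
    have h4 : ∑ x ∈ Y.erase y, ∑ z ∈ Y, w x z =
        ∑ x ∈ Y.erase y, w y x + ∑ x ∈ Y.erase y, ∑ z ∈ Y.erase y, w x z := by
      rw [← sum_add_distrib]
      refine sum_congr rfl fun x _ => ?_
      rw [h3 x, hs x y]
    rw [h4, h3 y]
    ring
  have h3 : ((Y.erase y).card : ℝ) = Y.card - 1 := by
    rw [card_erase_of_mem hy, Nat.cast_sub (card_pos.2 ⟨y, hy⟩)]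
    simp
  simp only [h3] at h1
  have h4 := hw0 y y
  rw [h2] at h1
  linarith

section
variable {p : ℕ} [Fact p.Prime]

open Classical in
theorem first_step (A T S Z : Finset (ZMod p)) (q : ℝ) (hq : 0 < q)
    (hA : A.Nonempty) (hT : T.Nonempty) (hS : S.Nonempty)
    (h : (A.card : ℝ) * S.card * T.card ≤
      q * ∑ s ∈ S, (((A ×ˢ T).filter fun r => (r.1 + s) / r.2 ∈ Z).card : ℝ)) :
    ∃ a₀ ∈ A, ∃ t₀ ∈ T, (A.card : ℝ) * S.card * T.card ≤
      q ^ 2 * ∑ s ∈ S, ((A.filter fun a => (a + s) / t₀ ∈ Z).card : ℝ) *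
        (T.filter fun t => (a₀ + s) / t ∈ Z).card := by
  have hAc : (0 : ℝ) < A.card := by exact_mod_cast hA.card_pos
  have hTc : (0 : ℝ) < T.card := by exact_mod_cast hT.card_pos
  have hSc : (0 : ℝ) < S.card := by exact_mod_cast hS.card_pos
  set N : ZMod p → ℝ := fun s => (((A ×ˢ T).filter fun r => (r.1 + s) / r.2 ∈ Z).card : ℝ) with hN
  set U : ZMod p → ZMod p → ℝ := fun t s => ((A.filter fun a => (a + s) / t ∈ Z).card : ℝ) with hU
  set V : ZMod p → ZMod p → ℝ := fun a s => ((T.filter fun t => (a + s) / t ∈ Z).card : ℝ) with hV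
  have hNU : ∀ s, N s = ∑ t ∈ T, U t s := by
    intro s
    simp only [hN, hU, card_filter, Nat.cast_sum]
    rw [Finset.sum_product_right]
  have hNV : ∀ s, N s = ∑ a ∈ A, V a s := by
    intro s
    simp only [hN, hV, card_filter, Nat.cast_sum]
    rw [Finset.sum_product]
  by_contra hcon
  push Not at hcon
  have h1 : ∑ r ∈ A ×ˢ T, q ^ 2 * ∑ s ∈ S, U r.2 s * V r.1 s <
      ∑ _r ∈ A ×ˢ T, (A.card : ℝ) * S.card * T.card := by
    refine sum_lt_sum_of_nonempty (hA.product hT) fun r hr => ?_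
    rw [mem_product] at hr
    exact hcon r.1 hr.1 r.2 hr.2
  have h2 : ∑ r ∈ A ×ˢ T, q ^ 2 * ∑ s ∈ S, U r.2 s * V r.1 s = q ^ 2 * ∑ s ∈ S, N s ^ 2 := by
    rw [← mul_sum, sum_comm]
    congr 1
    refine sum_congr rfl fun s _ => ?_
    rw [Finset.sum_product, sq]
    nth_rw 1 [hNV s]
    rw [hNU s, sum_mul_sum]
    exact sum_congr rfl fun a _ => sum_congr rfl fun t _ => mul_comm _ _
  rw [h2, sum_const, nsmul_eq_mul, card_product] at h1
  have h3 : (∑ s ∈ S, N s) ^ 2 ≤ S.card * ∑ s ∈ S, N s ^ 2 := sq_sum_le_card_mul_sum_sq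
  have h4 : ((A.card : ℝ) * S.card * T.card) ^ 2 ≤ (q * ∑ s ∈ S, N s) ^ 2 :=
    pow_le_pow_left₀ (by positivity) h 2
  have h5 : ((A.card : ℝ) * S.card * T.card) ^ 2 ≤ S.card * (q ^ 2 * ∑ s ∈ S, N s ^ 2) := by
    calc _ ≤ (q * ∑ s ∈ S, N s) ^ 2 := h4
      _ = q ^ 2 * (∑ s ∈ S, N s) ^ 2 := by ring
      _ ≤ q ^ 2 * (S.card * ∑ s ∈ S, N s ^ 2) := mul_le_mul_of_nonneg_left h3 (by positivity)
      _ = _ := by ring
  have h6 : (S.card : ℝ) * (q ^ 2 * ∑ s ∈ S, N s ^ 2) <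
      S.card * (((A.card * T.card : ℕ) : ℝ) * ((A.card : ℝ) * S.card * T.card)) :=
    mul_lt_mul_of_pos_left h1 hSc
  push_cast at h6
  have h7 : (S.card : ℝ) * (((A.card : ℝ) * T.card) * ((A.card : ℝ) * S.card * T.card)) =
      ((A.card : ℝ) * S.card * T.card) ^ 2 := by ring
  rw [h7] at h6
  linarith

end

open Classical in
/-- the count of solutions -/
theorem count (ε : ℝ) (hε : 0 < ε) : ∃ c : ℝ, 0 < c ∧ ∃ p₀ : ℕ, ∀ (p : ℕ) [Fact p.Prime],
    p₀ ≤ p → ∀ A T S Z : Finset (ZMod p), (0 : ZMod p) ∉ T → (p : ℝ) ^ ε ≤ A.card →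
      (p : ℝ) ^ ε ≤ T.card → (S.card : ℝ) ≤ (p : ℝ) ^ (1 - ε) →
      (Z.card : ℝ) ≤ (p : ℝ) ^ c * S.card →
      ∑ s ∈ S, (((A ×ˢ T).filter fun r => (r.1 + s) / r.2 ∈ Z).card : ℝ) ≤
        (p : ℝ) ^ (-c) * (A.card * S.card * T.card) := by
  obtain ⟨k, hk, p₁, hno⟩ := no_inv ε hε
  obtain ⟨c, hc⟩ : ∃ c : ℝ, c = k / 8 := ⟨_, rfl⟩
  have hc0 : 0 < c := by rw [hc]; positivity
  obtain ⟨p₂, hp₂2, hp₂⟩ := Pool.Agent.H435R3.Paley.exists_large 4 c hc0
  refine ⟨c, hc0, p₁ + p₂, fun p _ hp A T S Z hT0 hA hT hS hZ => ?_⟩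
  by_contra hcon
  have hcon := not_le.1 hcon
  have hp2 : (2 : ℝ) ≤ p := by exact_mod_cast (Fact.out : p.Prime).two_le
  have hp0 : (0 : ℝ) < p := by linarith
  have hAc : (0 : ℝ) < A.card := lt_of_lt_of_le (by positivity) hA
  have hTc : (0 : ℝ) < T.card := lt_of_lt_of_le (by positivity) hT
  have hAne : A.Nonempty := by rw [← card_pos]; exact_mod_cast hAc
  have hTne : T.Nonempty := by rw [← card_pos]; exact_mod_cast hTc
  have hSne : S.Nonempty := by
    by_contra h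
    rw [not_nonempty_iff_eq_empty] at h
    rw [h] at hcon
    simp at hcon
  have hSc : (0 : ℝ) < S.card := by exact_mod_cast hSne.card_pos
  have hq4 : 4 ≤ (p : ℝ) ^ c := hp₂ p (by omega)
  set q : ℝ := (p : ℝ) ^ c with hq
  have hq0 : 0 < q := by linarith
  have hq8 : (p : ℝ) ^ k = q ^ 8 := by
    rw [hq, ← Real.rpow_natCast, ← Real.rpow_mul hp0.le, hc]
    congr 1
    push_cast
    ring
  obtain ⟨a₀, ha₀, t₀, ht₀, h1⟩ := first_step A T S Z q hq0 hAne hTne hSne (by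
    have e1 : (p : ℝ) ^ (-c) = q⁻¹ := by rw [hq, Real.rpow_neg hp0.le]
    rw [e1] at hcon
    have h2 := mul_le_mul_of_nonneg_left hcon.le hq0.le
    calc (A.card : ℝ) * S.card * T.card = q * (q⁻¹ * (A.card * S.card * T.card)) := by
          field_simp
      _ ≤ _ := h2)
  have ht₀0 : t₀ ≠ 0 := fun h => hT0 (h ▸ ht₀)
  set U : ZMod p → ℝ := fun s => ((A.filter fun a => (a + s) / t₀ ∈ Z).card : ℝ) with hU
  set V : ZMod p → ℝ := fun s => ((T.filter fun t => (a₀ + s) / t ∈ Z).card : ℝ) with hV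
  have hUA : ∀ s, U s ≤ A.card := fun s => by
    simp only [hU]
    exact_mod_cast card_filter_le _ _
  have hVT : ∀ s, V s ≤ T.card := fun s => by
    simp only [hV]
    exact_mod_cast card_filter_le _ _
  have hU0 : ∀ s, 0 ≤ U s := fun s => Nat.cast_nonneg _
  have hV0 : ∀ s, 0 ≤ V s := fun s => Nat.cast_nonneg _
  -- restrict `S`
  set S' := S.filter fun s => (A.card : ℝ) ≤ 2 * q ^ 2 * U s with hS'
  have hS'V : (S.card : ℝ) * T.card ≤ 2 * q ^ 2 * ∑ s ∈ S', V s := by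
    have h2 : ∑ s ∈ S, U s * V s ≤ A.card * ∑ s ∈ S', V s +
        S.card * (A.card / (2 * q ^ 2) * T.card) := by
      rw [← sum_filter_add_sum_filter_not S (fun s => (A.card : ℝ) ≤ 2 * q ^ 2 * U s)]
      refine add_le_add ?_ ?_
      · rw [mul_sum]
        exact sum_le_sum fun s _ => mul_le_mul_of_nonneg_right (hUA s) (hV0 s)
      · have h3 : ∀ s ∈ S.filter (fun s => ¬ (A.card : ℝ) ≤ 2 * q ^ 2 * U s),
            U s * V s ≤ A.card / (2 * q ^ 2) * T.card := by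
          intro s hs
          refine mul_le_mul ?_ (hVT s) (hV0 s) (by positivity)
          rw [le_div_iff₀ (by positivity), mul_comm]
          exact (not_le.1 (mem_filter.1 hs).2).le
        refine (sum_le_card_nsmul _ _ _ h3).trans ?_
        rw [nsmul_eq_mul]
        refine mul_le_mul_of_nonneg_right ?_ (by positivity)
        exact_mod_cast card_filter_le S _
    have h3 : (A.card : ℝ) * S.card * T.card ≤
        q ^ 2 * (A.card * ∑ s ∈ S', V s + S.card * (A.card / (2 * q ^ 2) * T.card)) :=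
      h1.trans (mul_le_mul_of_nonneg_left h2 (by positivity))
    have h4 : q ^ 2 * (A.card * ∑ s ∈ S', V s + S.card * (A.card / (2 * q ^ 2) * T.card)) =
        A.card * (q ^ 2 * ∑ s ∈ S', V s + S.card * T.card / 2) := by
      field_simp
    rw [h4, mul_assoc] at h3
    have h5 := le_of_mul_le_mul_left h3 hAc
    linarith
  -- the shifted set
  set X := S'.image fun s => s + a₀ with hX
  have hXc : (X.card : ℝ) ≤ S.card := by
    exact_mod_cast card_image_le.trans (card_filter_le _ _)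
  have hXV : ((((X ×ˢ T).filter fun r => r.1 / r.2 ∈ Z).card : ℕ) : ℝ) = ∑ s ∈ S', V s := by
    simp only [card_filter, Nat.cast_sum]
    rw [Finset.sum_product, hX, sum_image (fun a _ b _ h => add_right_cancel h)]
    refine sum_congr rfl fun s _ => ?_
    simp only [hV, card_filter, Nat.cast_sum]
    refine sum_congr rfl fun t _ => ?_
    rw [add_comm s a₀]
  set w : ZMod p → ZMod p → ℝ := fun x y =>
    (((T ×ˢ T).filter fun r => r.1 / r.2 * x = y).card : ℝ) with hw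
  have hw0 : ∀ x y, 0 ≤ w x y := fun x y => Nat.cast_nonneg _
  have hws : ∀ x y, w x y = w y x := by
    have hle : ∀ x y, w x y ≤ w y x := by
      intro x y
      simp only [hw]
      have h2 : ((T ×ˢ T).filter fun r => r.1 / r.2 * x = y).card ≤
          ((T ×ˢ T).filter fun r => r.1 / r.2 * y = x).card := by
        refine card_le_card_of_injOn Prod.swap ?_ (Prod.swap_injective.injOn)
        intro r hr
        obtain ⟨hr1, hr2⟩ := mem_filter.1 hr
        rw [mem_product] at hr1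
        have n1 : r.1 ≠ 0 := fun h => hT0 (h ▸ hr1.1)
        have n2 : r.2 ≠ 0 := fun h => hT0 (h ▸ hr1.2)
        refine mem_coe.2 (mem_filter.2 ⟨mem_product.2 ⟨hr1.2, hr1.1⟩, ?_⟩)
        simp only [Prod.fst_swap, Prod.snd_swap]
        rw [← hr2]
        field_simp
      exact_mod_cast h2
    exact fun x y => le_antisymm (hle x y) (hle y x)
  have hwY : ∀ (Y : Finset (ZMod p)) x, ∑ y ∈ Y, w x y =
      (((T ×ˢ T).filter fun r => r.1 / r.2 * x ∈ Y).card : ℝ) := by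
    intro Y x
    simp only [hw]
    rw [← Nat.cast_sum, sum_card_fiberwise_eq_card_filter]
  have hE : ((((X ×ˢ T) ×ˢ (X ×ˢ T)).filter fun r => r.1.1 / r.1.2 = r.2.1 / r.2.2).card : ℝ) ≤
      ∑ x ∈ X, ∑ y ∈ X, w x y := by
    have h2 : ∑ x ∈ X, ∑ y ∈ X, w x y =
        (((X ×ˢ (T ×ˢ T)).filter fun r => r.2.1 / r.2.2 * r.1 ∈ X).card : ℝ) := by
      rw [sum_congr rfl fun x _ => hwY X x]
      simp only [card_filter, Nat.cast_sum]
      rw [Finset.sum_product]
    rw [h2]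
    have h3 : (((X ×ˢ T) ×ˢ (X ×ˢ T)).filter fun r => r.1.1 / r.1.2 = r.2.1 / r.2.2).card ≤
        ((X ×ˢ (T ×ˢ T)).filter fun r => r.2.1 / r.2.2 * r.1 ∈ X).card := by
      refine card_le_card_of_injOn (fun r => (r.1.1, (r.2.2, r.1.2))) ?_ ?_
      · intro r hr
        obtain ⟨hr1, hr2⟩ := mem_filter.1 hr
        rw [mem_product, mem_product, mem_product] at hr1
        obtain ⟨⟨x1, x2⟩, x3, x4⟩ := hr1
        have n1 : r.1.2 ≠ 0 := fun h => hT0 (h ▸ x2)
        have n2 : r.2.2 ≠ 0 := fun h => hT0 (h ▸ x4)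
        refine mem_coe.2 (mem_filter.2 ⟨mem_product.2 ⟨x1, mem_product.2 ⟨x4, x2⟩⟩, ?_⟩)
        have e : r.2.2 / r.1.2 * r.1.1 = r.2.1 := by
          rw [div_eq_div_iff n1 n2] at hr2
          field_simp
          linear_combination hr2
        simp only
        rw [e]
        exact x3
      · intro r hr r' hr' hh
        obtain ⟨hr1, hr2⟩ := mem_filter.1 hr
        obtain ⟨hr1', hr2'⟩ := mem_filter.1 hr'
        rw [mem_product, mem_product, mem_product] at hr1 hr1'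
        simp only [Prod.mk.injEq] at hh
        obtain ⟨h5, h6, h7⟩ := hh
        have n4 : r.2.2 ≠ 0 := fun h => hT0 (h ▸ hr1.2.2)
        have e : r.2.1 = r'.2.1 := by
          rw [h5, h7, hr2', ← h6] at hr2
          exact ((div_left_inj' n4).1 hr2).symm
        exact Prod.ext (Prod.ext h5 h7) (Prod.ext e h6)
    exact_mod_cast h3
  have hES : (S.card : ℝ) * (T.card : ℝ) ^ 2 ≤ 4 * q ^ 5 * ∑ x ∈ X, ∑ y ∈ X, w x y := by
    have h2 := fiber_cs (X ×ˢ T) Z (fun r => r.1 / r.2)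
    have h3 : (∑ s ∈ S', V s) ^ 2 ≤ Z.card * ∑ x ∈ X, ∑ y ∈ X, w x y := by
      rw [← hXV]
      refine le_trans ?_ (mul_le_mul_of_nonneg_left hE (Nat.cast_nonneg _))
      exact_mod_cast h2
    have h4 : (S.card : ℝ) * ((S.card : ℝ) * (T.card : ℝ) ^ 2) ≤
        S.card * (4 * q ^ 5 * ∑ x ∈ X, ∑ y ∈ X, w x y) := by
      have hE0 : 0 ≤ ∑ x ∈ X, ∑ y ∈ X, w x y :=
        sum_nonneg fun x _ => sum_nonneg fun y _ => hw0 x y
      calc (S.card : ℝ) * ((S.card : ℝ) * (T.card : ℝ) ^ 2) = (S.card * T.card) ^ 2 := by ring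
        _ ≤ (2 * q ^ 2 * ∑ s ∈ S', V s) ^ 2 := pow_le_pow_left₀ (by positivity) hS'V 2
        _ = 4 * q ^ 4 * (∑ s ∈ S', V s) ^ 2 := by ring
        _ ≤ 4 * q ^ 4 * (Z.card * ∑ x ∈ X, ∑ y ∈ X, w x y) :=
            mul_le_mul_of_nonneg_left h3 (by positivity)
        _ ≤ 4 * q ^ 4 * ((q * S.card) * ∑ x ∈ X, ∑ y ∈ X, w x y) :=
            mul_le_mul_of_nonneg_left (mul_le_mul_of_nonneg_right hZ hE0) (by positivity)
        _ = _ := by ring
    exact le_of_mul_le_mul_left h4 hSc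
  -- pruning
  set θ : ℝ := (T.card : ℝ) ^ 2 / (8 * q ^ 5) with hθ
  have hθ0 : 0 < θ := by positivity
  obtain ⟨Y, hYX, hY1, hY2⟩ := prune X w hw0 hws θ
  have hYbig : (S.card : ℝ) ≤ 8 * q ^ 5 * Y.card := by
    have h2 : ∑ x ∈ Y, ∑ y ∈ Y, w x y ≤ Y.card * (T.card : ℝ) ^ 2 := by
      rw [← nsmul_eq_mul]
      refine sum_le_card_nsmul _ _ _ fun x _ => ?_
      rw [hwY Y x]
      have h3 := card_filter_le (T ×ˢ T) (fun r => r.1 / r.2 * x ∈ Y)
      rw [card_product] at h3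
      have h4 : (((T ×ˢ T).filter fun r => r.1 / r.2 * x ∈ Y).card : ℝ) ≤
          ((T.card * T.card : ℕ) : ℝ) := by exact_mod_cast h3
      push_cast at h4
      rw [sq]
      exact h4
    have h3 : (S.card : ℝ) * (T.card : ℝ) ^ 2 / (8 * q ^ 5) ≤ Y.card * (T.card : ℝ) ^ 2 := by
      have h4 : (S.card : ℝ) * (T.card : ℝ) ^ 2 / (4 * q ^ 5) ≤ ∑ x ∈ X, ∑ y ∈ X, w x y := by
        rw [div_le_iff₀ (by positivity), mul_comm]
        refine le_trans (le_of_eq (mul_comm _ _)) (hES.trans (le_of_eq (mul_comm _ _)))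
      have h5 : θ * X.card ≤ (S.card : ℝ) * (T.card : ℝ) ^ 2 / (8 * q ^ 5) := by
        calc θ * X.card ≤ θ * S.card := mul_le_mul_of_nonneg_left hXc hθ0.le
          _ = _ := by rw [hθ]; ring
      have h6 : (S.card : ℝ) * (T.card : ℝ) ^ 2 / (4 * q ^ 5) =
          (S.card : ℝ) * (T.card : ℝ) ^ 2 / (8 * q ^ 5) +
          (S.card : ℝ) * (T.card : ℝ) ^ 2 / (8 * q ^ 5) := by
        field_simp
        ring
      have h7 : 0 ≤ θ * Y.card := by positivity
      linarith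
    rw [div_le_iff₀ (by positivity)] at h3
    have h4 : (S.card : ℝ) * (T.card : ℝ) ^ 2 ≤ (8 * q ^ 5 * Y.card) * (T.card : ℝ) ^ 2 := by
      refine h3.trans (le_of_eq ?_)
      ring
    exact le_of_mul_le_mul_right h4 (by positivity)
  have hYc0 : (0 : ℝ) < Y.card := by
    by_contra h
    have h2 : (Y.card : ℝ) = 0 := le_antisymm (not_lt.1 h) (Nat.cast_nonneg _)
    rw [h2, mul_zero] at hYbig
    linarith
  have hYne : Y.Nonempty := by rw [← card_pos]; exact_mod_cast hYc0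
  have h16 : 16 * q ^ 6 ≤ q ^ 8 := by
    have h2 : 16 ≤ q ^ 2 := by nlinarith
    calc 16 * q ^ 6 ≤ q ^ 2 * q ^ 6 := mul_le_mul_of_nonneg_right h2 (by positivity)
      _ = _ := by ring
  have hq1 : 1 ≤ q := by linarith
  refine hno p (by omega) A T Y (Z.image fun z => t₀ * z + a₀) hT0 hA hT hYne ?_ ?_ ?_ ?_
  · have h2 : (Y.card : ℝ) ≤ X.card := by exact_mod_cast card_le_card hYX
    exact h2.trans (hXc.trans hS)
  · rw [hq8]
    have h2 : ((Z.image fun z => t₀ * z + a₀).card : ℝ) ≤ Z.card := by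
      exact_mod_cast card_image_le
    calc ((Z.image fun z => t₀ * z + a₀).card : ℝ) ≤ q * S.card := h2.trans hZ
      _ ≤ q * (8 * q ^ 5 * Y.card) := mul_le_mul_of_nonneg_left hYbig hq0.le
      _ = 8 * q ^ 6 * Y.card := by ring
      _ ≤ q ^ 8 * Y.card := by
          refine mul_le_mul_of_nonneg_right ?_ hYc0.le
          have : 0 ≤ q ^ 6 := by positivity
          linarith
  · intro y hy
    rw [hq8]
    obtain ⟨s, hs, rfl⟩ := mem_image.1 (hYX hy)
    have h2 := (mem_filter.1 hs).2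
    have h3 : U s = ((A.filter fun a => s + a₀ + a ∈ Z.image fun z => t₀ * z + a₀).card : ℝ) := by
      simp only [hU]
      congr 2
      refine filter_congr fun a _ => ?_
      rw [mem_image]
      constructor
      · intro hz
        refine ⟨_, hz, ?_⟩
        field_simp
        ring
      · rintro ⟨z, hz, hz2⟩
        have e : (a + s) / t₀ = z := by
          field_simp
          linear_combination -hz2
        rw [e]
        exact hz
    rw [h3] at h2
    refine h2.trans (mul_le_mul_of_nonneg_right ?_ (Nat.cast_nonneg _))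
    have h4 : q ^ 2 ≤ q ^ 6 := pow_le_pow_right₀ hq1 (by norm_num)
    have h5 : (0 : ℝ) ≤ q ^ 6 := by positivity
    linarith
  · intro y hy
    rw [hq8]
    have h2 := hY2 y hy
    rw [hwY Y y, hθ, div_le_iff₀ (by positivity)] at h2
    generalize (((T ×ˢ T).filter fun r => r.1 / r.2 * y ∈ Y).card : ℝ) = n at h2 ⊢
    have hn : 0 ≤ n := by
      by_contra hneg
      have hneg := not_le.1 hneg
      have h3 : 2 * n * (8 * q ^ 5) < 0 := by
        have : 0 < 8 * q ^ 5 := by positivity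
        nlinarith
      have h4 : (0 : ℝ) < (T.card : ℝ) ^ 2 := by positivity
      linarith
    calc (T.card : ℝ) ^ 2 ≤ 2 * n * (8 * q ^ 5) := h2
      _ = 16 * q ^ 5 * n := by ring
      _ ≤ q ^ 8 * n := by
          refine mul_le_mul_of_nonneg_right ?_ hn
          have h4 : q ^ 5 ≤ q ^ 6 := pow_le_pow_right₀ hq1 (by norm_num)
          linarith

end Pool.Agent.Y881.SP
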