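import Pool.Agent.Y881.SP.Flat

set_option autoImplicit false

/-! # Flattening for sets, and rich affine maps -/

open Finset

namespace Pool.Agent.Y881.SP

open Classical in
/-- the uniform density of a set -/
noncomputable def uni {p : ℕ} (X : Finset (ZMod p)) (x : ZMod p) : ℝ :=
  if x ∈ X then (X.card : ℝ)⁻¹ else 0

section
variable {p : ℕ} [Fact p.Prime]

theorem uni_nonneg (X : Finset (ZMod p)) (x : ZMod p) : 0 ≤ uni X x := by
  unfold uni
  split_ifs
  · positivity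
  · exact le_rfl

theorem uni_sum (X : Finset (ZMod p)) (hX : X.Nonempty) : ∑ x, uni X x = 1 := by
  classical
  have hc : (X.card : ℝ) ≠ 0 := by exact_mod_cast hX.card_pos.ne'
  unfold uni
  rw [sum_ite_mem, univ_inter, sum_const, nsmul_eq_mul, mul_inv_cancel₀ hc]

theorem uni_sq (X : Finset (ZMod p)) (hX : X.Nonempty) : ∑ x, uni X x ^ 2 = (X.card : ℝ)⁻¹ := by
  classical
  have hc : (X.card : ℝ) ≠ 0 := by exact_mod_cast hX.card_pos.ne'
  have h : ∀ x, uni X x ^ 2 = if x ∈ X then ((X.card : ℝ)⁻¹) ^ 2 else 0 := by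
    intro x
    unfold uni
    split_ifs
    · rfl
    · norm_num
  rw [sum_congr rfl fun x _ => h x, sum_ite_mem, univ_inter, sum_const, nsmul_eq_mul]
  field_simp

open Classical in
theorem conv_uni (X W : Finset (ZMod p)) (μ : ZMod p) :
    ∑ z ∈ W, conv (uni X) μ z =
      ((X ×ˢ X).filter fun q => q.1 + μ * q.2 ∈ W).card * ((X.card : ℝ)⁻¹) ^ 2 := by
  have h1 : ∀ z, conv (uni X) μ z =
      ∑ q ∈ X ×ˢ X, if q.1 + μ * q.2 = z then ((X.card : ℝ)⁻¹) ^ 2 else 0 := by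
    intro z
    rw [Finset.sum_product_right]
    unfold conv
    have h2 : ∀ y, uni X (z - μ * y) * uni X y =
        if y ∈ X then (∑ x ∈ X, if x + μ * y = z then ((X.card : ℝ)⁻¹) ^ 2 else 0) else 0 := by
      intro y
      by_cases hy : y ∈ X
      · rw [if_pos hy]
        have h3 : ∀ x, (if x + μ * y = z then ((X.card : ℝ)⁻¹) ^ 2 else 0) =
            if x = z - μ * y then ((X.card : ℝ)⁻¹) ^ 2 else 0 := by
          intro x
          by_cases hx : x + μ * y = z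
          · rw [if_pos hx, if_pos (eq_sub_of_add_eq hx)]
          · rw [if_neg hx, if_neg fun h => hx (by rw [h, sub_add_cancel])]
        rw [sum_congr rfl fun x _ => h3 x, sum_ite_eq']
        unfold uni
        rw [if_pos hy]
        split_ifs
        · ring
        · ring
      · rw [if_neg hy]
        unfold uni
        rw [if_neg hy, mul_zero]
    rw [sum_congr rfl fun y _ => h2 y, sum_ite_mem, univ_inter]
  rw [sum_congr rfl fun z _ => h1 z, sum_comm]
  have h2 : ∀ q ∈ X ×ˢ X, (∑ z ∈ W, if q.1 + μ * q.2 = z then ((X.card : ℝ)⁻¹) ^ 2 else 0) =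
      if q.1 + μ * q.2 ∈ W then ((X.card : ℝ)⁻¹) ^ 2 else 0 := fun q _ => sum_ite_eq _ _ _
  rw [sum_congr rfl h2, ← sum_filter, sum_const, nsmul_eq_mul]

open Classical in
theorem J_uni (X W : Finset (ZMod p)) (hX : X.Nonempty) (μ : ZMod p) :
    (p : ℝ) * (((X ×ˢ X).filter fun q => q.1 + μ * q.2 ∈ W).card : ℝ) ^ 2 ≤
      (X.card : ℝ) ^ 4 * W.card * J (uni X) μ := by
  have hc : (X.card : ℝ) ≠ 0 := by exact_mod_cast hX.card_pos.ne'
  have h1 := conv_uni X W μ
  have h2 : (∑ z ∈ W, conv (uni X) μ z) ^ 2 ≤ W.card * ∑ z, conv (uni X) μ z ^ 2 := by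
    refine sq_sum_le_card_mul_sum_sq.trans (mul_le_mul_of_nonneg_left ?_ (Nat.cast_nonneg _))
    exact sum_le_sum_of_subset_of_nonneg (subset_univ _) fun _ _ _ => by positivity
  rw [h1] at h2
  rw [J_eq]
  have h3 : (((X ×ˢ X).filter fun q => q.1 + μ * q.2 ∈ W).card : ℝ) ^ 2 =
      (X.card : ℝ) ^ 4 * (((X ×ˢ X).filter fun q => q.1 + μ * q.2 ∈ W).card *
        ((X.card : ℝ)⁻¹) ^ 2) ^ 2 := by
    field_simp
  rw [h3]
  calc (p : ℝ) * ((X.card : ℝ) ^ 4 * (((X ×ˢ X).filter fun q => q.1 + μ * q.2 ∈ W).card *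
        ((X.card : ℝ)⁻¹) ^ 2) ^ 2)
      ≤ (p : ℝ) * ((X.card : ℝ) ^ 4 * (W.card * ∑ z, conv (uni X) μ z ^ 2)) := by gcongr
    _ = _ := by ring

end

open Classical in
/-- few dilations `μ` have many values of `x + μ y` on `X × X` in a set comparable to `X` -/
theorem flat_set (γ : ℝ) (hγ : 0 < γ) : ∃ κ : ℝ, 0 < κ ∧ ∃ p₀ : ℕ, ∀ (p : ℕ) [Fact p.Prime],
    p₀ ≤ p → ∀ X M : Finset (ZMod p), (p : ℝ) ^ γ ≤ X.card → (X.card : ℝ) ≤ (p : ℝ) ^ (1 - γ) →
      (∀ μ ∈ M, μ ≠ 0 ∧ ∃ W : Finset (ZMod p), (W.card : ℝ) ≤ (p : ℝ) ^ κ * X.card ∧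
        (X.card : ℝ) ^ 2 ≤ (p : ℝ) ^ κ * ((X ×ˢ X).filter fun q => q.1 + μ * q.2 ∈ W).card) →
      (M.card : ℝ) < (p : ℝ) ^ γ := by
  obtain ⟨κ, hκ, p₀, h⟩ := flat γ hγ
  refine ⟨κ / 3, by positivity, p₀, fun p _ hp X M hX1 hX2 hM => ?_⟩
  have hp0 : (0 : ℝ) < p := by exact_mod_cast (Fact.out : p.Prime).pos
  have hXc : (0 : ℝ) < X.card := lt_of_lt_of_le (by positivity) hX1
  have hXne : X.Nonempty := by
    rw [← card_pos]
    exact_mod_cast hXc
  have h1 := h p hp (uni X) (uni_nonneg X) (uni_sum X hXne) (by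
    rw [uni_sq X hXne, le_inv_comm₀ (by positivity) hXc, ← Real.rpow_neg hp0.le]
    rwa [show -(-1 + γ) = 1 - γ by ring]) (by
    rw [uni_sq X hXne, Real.rpow_neg hp0.le]
    exact inv_anti₀ (by positivity) hX1)
  refine lt_of_le_of_lt ?_ h1
  have hsub : M ⊆ sym (uni X) ((p : ℝ) ^ κ) := by
    intro μ hμ
    obtain ⟨h2, W, h3, h4⟩ := hM μ hμ
    refine mem_filter.2 ⟨mem_univ _, h2, ?_⟩
    rw [uni_sq X hXne]
    set C : ℝ := (((X ×ˢ X).filter fun q => q.1 + μ * q.2 ∈ W).card : ℝ) with hC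
    set y : ℝ := (p : ℝ) ^ (κ / 3) with hy
    have hy0 : 0 < y := by positivity
    have hy3 : (p : ℝ) ^ κ = y ^ 3 := by
      rw [hy, ← Real.rpow_natCast, ← Real.rpow_mul hp0.le]
      congr 1
      push_cast
      ring
    have h5 := J_uni X W hXne μ
    rw [← hC] at h5
    have hJ : 0 ≤ J (uni X) μ := sum_nonneg fun ξ _ => by positivity
    rw [hy3]
    -- p |X|^4 ≤ y^2 p C^2 ≤ y^2 |X|^4 |W| J ≤ y^3 |X|^5 J
    have h6 : (p : ℝ) * (X.card : ℝ) ^ 4 ≤ y ^ 3 * (X.card : ℝ) ^ 5 * J (uni X) μ := by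
      calc (p : ℝ) * (X.card : ℝ) ^ 4 = p * ((X.card : ℝ) ^ 2) ^ 2 := by ring
        _ ≤ p * (y * C) ^ 2 := by gcongr
        _ = y ^ 2 * (p * C ^ 2) := by ring
        _ ≤ y ^ 2 * ((X.card : ℝ) ^ 4 * W.card * J (uni X) μ) := by gcongr
        _ ≤ y ^ 2 * ((X.card : ℝ) ^ 4 * (y * X.card) * J (uni X) μ) := by gcongr
        _ = _ := by ring
    have h7 : (p : ℝ) * (X.card : ℝ)⁻¹ * (X.card : ℝ) ^ 5 ≤
        (y ^ 3 * J (uni X) μ) * (X.card : ℝ) ^ 5 := by
      calc (p : ℝ) * (X.card : ℝ)⁻¹ * (X.card : ℝ) ^ 5 = (p : ℝ) * (X.card : ℝ) ^ 4 := by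
            field_simp
        _ ≤ _ := h6
        _ = _ := by ring
    exact le_of_mul_le_mul_right h7 (by positivity)
  exact_mod_cast card_le_card hsub

section
variable {p : ℕ} [Fact p.Prime]

open Classical in
/-- the points of `A` which the map `a ↦ (a + s) / t` sends into `Z` -/
noncomputable def hit (A Z : Finset (ZMod p)) (g : ZMod p × ZMod p) : Finset (ZMod p) :=
  A.filter fun a => (a + g.1) / g.2 ∈ Z

theorem hit_card_le (A Z : Finset (ZMod p)) (g : ZMod p × ZMod p) :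
    ((hit A Z g).card : ℝ) ≤ A.card := by
  exact_mod_cast card_le_card (filter_subset _ _)

open Classical in
/-- two popular points -/
theorem popular (A Z : Finset (ZMod p)) (G : Finset (ZMod p × ZMod p)) (Q : ℝ) (hQ : 1 ≤ Q)
    (hA : 2 * Q ^ 3 ≤ A.card) (hG : ∀ g ∈ G, (A.card : ℝ) ≤ Q * (hit A Z g).card) :
    ∃ a ∈ A, ∃ a' ∈ A, a ≠ a' ∧ (G.card : ℝ) * A.card ≤
      2 * Q ^ 3 * ∑ g ∈ G.filter (fun g => a ∈ hit A Z g ∧ a' ∈ hit A Z g),
        ((hit A Z g).card : ℝ) := by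
  have hAc : (0 : ℝ) < A.card := lt_of_lt_of_le (by positivity) hA
  set w : ZMod p × ZMod p → ℝ := fun q => ∑ g ∈ G.filter
    (fun g => q.1 ∈ hit A Z g ∧ q.2 ∈ hit A Z g), ((hit A Z g).card : ℝ) with hw
  have hw' : ∀ q, w q = ∑ g ∈ G, (if q.1 ∈ hit A Z g ∧ q.2 ∈ hit A Z g then
      ((hit A Z g).card : ℝ) else 0) := fun q => sum_filter _ _
  have hsubA : ∀ g, hit A Z g ⊆ A := fun g => filter_subset _ _
  have h1 : ∑ q ∈ A ×ˢ A, w q = ∑ g ∈ G, ((hit A Z g).card : ℝ) ^ 3 := by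
    rw [sum_congr rfl fun q _ => hw' q, sum_comm]
    refine sum_congr rfl fun g _ => ?_
    rw [← sum_filter, sum_const, nsmul_eq_mul]
    have e : ((A ×ˢ A).filter fun q => q.1 ∈ hit A Z g ∧ q.2 ∈ hit A Z g) =
        hit A Z g ×ˢ hit A Z g := by
      ext q
      simp only [mem_filter, mem_product]
      constructor
      · exact fun h => h.2
      · exact fun h => ⟨⟨hsubA g h.1, hsubA g h.2⟩, h⟩
    rw [e, card_product]
    push_cast
    ring
  have h2 : ∑ q ∈ (A ×ˢ A).filter (fun q => q.1 = q.2), w q ≤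
      (G.card : ℝ) * (A.card : ℝ) ^ 2 := by
    have h3 : ∀ q ∈ (A ×ˢ A).filter (fun q => q.1 = q.2), w q ≤ G.card * A.card := by
      intro q _
      rw [hw' q]
      refine (sum_le_card_nsmul _ _ (A.card : ℝ) fun g _ => ?_).trans
        (le_of_eq (by rw [nsmul_eq_mul]))
      split_ifs
      · exact hit_card_le A Z g
      · exact hAc.le
    refine (sum_le_card_nsmul _ _ _ h3).trans ?_
    rw [nsmul_eq_mul]
    have e1 : ((A ×ˢ A).filter fun q => q.1 = q.2).card = A.card := by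
      rw [← diag_eq_filter, diag_card]
    rw [e1]
    exact le_of_eq (by ring)
  have h4 : (G.card : ℝ) * (A.card : ℝ) ^ 3 ≤ Q ^ 3 * ∑ g ∈ G, ((hit A Z g).card : ℝ) ^ 3 := by
    rw [mul_sum, ← nsmul_eq_mul]
    refine card_nsmul_le_sum _ _ _ fun g hg => ?_
    calc (A.card : ℝ) ^ 3 ≤ (Q * (hit A Z g).card) ^ 3 := pow_le_pow_left₀ hAc.le (hG g hg) 3
      _ = _ := by ring
  have h5 : (G.card : ℝ) * (A.card : ℝ) ^ 3 ≤
      2 * Q ^ 3 * ∑ q ∈ (A ×ˢ A).filter (fun q => ¬ q.1 = q.2), w q := by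
    have h6 := sum_filter_add_sum_filter_not (A ×ˢ A) (fun q => q.1 = q.2) w
    rw [h1] at h6
    have h7 : Q ^ 3 * ((G.card : ℝ) * (A.card : ℝ) ^ 2) ≤
        (G.card : ℝ) * (A.card : ℝ) ^ 3 / 2 := by
      have : (G.card : ℝ) * (A.card : ℝ) ^ 2 * (2 * Q ^ 3) ≤
          (G.card : ℝ) * (A.card : ℝ) ^ 2 * A.card :=
        mul_le_mul_of_nonneg_left hA (by positivity)
      nlinarith
    have hQ3 : (0 : ℝ) < Q ^ 3 := by positivity
    have h8 : Q ^ 3 * ∑ q ∈ (A ×ˢ A).filter (fun q => q.1 = q.2), w q ≤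
        Q ^ 3 * ((G.card : ℝ) * (A.card : ℝ) ^ 2) := mul_le_mul_of_nonneg_left h2 hQ3.le
    rw [← h6, mul_add] at h4
    linarith
  by_contra hcon
  push Not at hcon
  have h6 : ∀ q ∈ (A ×ˢ A).filter (fun q => ¬ q.1 = q.2),
      2 * Q ^ 3 * w q < (G.card : ℝ) * A.card := by
    intro q hq
    rw [mem_filter, mem_product] at hq
    exact hcon q.1 hq.1.1 q.2 hq.1.2 hq.2
  have hA2 : 2 ≤ A.card := by
    have : (2 : ℝ) ≤ A.card := by
      have h9 : (1 : ℝ) ≤ Q ^ 3 := one_le_pow₀ hQ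
      linarith
    exact_mod_cast this
  obtain ⟨u, hu, v, hv, huv⟩ := one_lt_card.1 (show 1 < A.card by omega)
  have hne : ((A ×ˢ A).filter (fun q => ¬ q.1 = q.2)).Nonempty :=
    ⟨(u, v), mem_filter.2 ⟨mem_product.2 ⟨hu, hv⟩, huv⟩⟩
  have h7 : ∑ q ∈ (A ×ˢ A).filter (fun q => ¬ q.1 = q.2), 2 * Q ^ 3 * w q <
      ∑ _q ∈ (A ×ˢ A).filter (fun q => ¬ q.1 = q.2), (G.card : ℝ) * A.card :=
    sum_lt_sum_of_nonempty hne h6
  rw [← mul_sum, sum_const, nsmul_eq_mul] at h7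
  have h8 : (((A ×ˢ A).filter (fun q => ¬ q.1 = q.2)).card : ℝ) ≤ (A.card : ℝ) ^ 2 := by
    have h9 := card_filter_le (A ×ˢ A) (fun q => ¬ q.1 = q.2)
    rw [card_product] at h9
    have h10 : (((A ×ˢ A).filter (fun q => ¬ q.1 = q.2)).card : ℝ) ≤
        ((A.card * A.card : ℕ) : ℝ) := by exact_mod_cast h9
    push_cast at h10
    rw [sq]
    exact h10
  have h9 : (((A ×ˢ A).filter (fun q => ¬ q.1 = q.2)).card : ℝ) * ((G.card : ℝ) * A.card) ≤
      (A.card : ℝ) ^ 2 * ((G.card : ℝ) * A.card) := mul_le_mul_of_nonneg_right h8 (by positivity)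
  have h10 : (A.card : ℝ) ^ 2 * ((G.card : ℝ) * A.card) = (G.card : ℝ) * (A.card : ℝ) ^ 3 := by
    ring
  linarith

theorem pair_inj {a a' s t s' t' : ZMod p} (haa : a ≠ a') (ht : t ≠ 0) (ht' : t' ≠ 0)
    (h1 : (a + s) / t = (a + s') / t') (h2 : (a' + s) / t = (a' + s') / t') : s = s' ∧ t = t' := by
  rw [div_eq_div_iff ht ht'] at h1 h2
  have h3 : (a - a') * (t' - t) = 0 := by linear_combination h1 - h2
  rcases mul_eq_zero.1 h3 with h4 | h4
  · exact absurd (sub_eq_zero.1 h4) haa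
  · have h5 : t = t' := (sub_eq_zero.1 h4).symm
    subst h5
    have h6 := mul_right_cancel₀ ht h1
    exact ⟨add_left_cancel h6, rfl⟩

end

open Classical in
/-- **Rich affine maps**: the number of affine maps sending a positive proportion of `A` into `Z` -/
theorem rich (ε : ℝ) (hε : 0 < ε) : ∃ c : ℝ, 0 < c ∧ ∃ p₀ : ℕ, ∀ (p : ℕ) [Fact p.Prime],
    p₀ ≤ p → ∀ (A Z : Finset (ZMod p)) (G : Finset (ZMod p × ZMod p)),
      (p : ℝ) ^ ε ≤ A.card → (Z.card : ℝ) ≤ (p : ℝ) ^ (1 - ε) →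
      (∀ g ∈ G, g.2 ≠ 0 ∧ (A.card : ℝ) ≤ (p : ℝ) ^ c * (hit A Z g).card) →
      (G.card : ℝ) ≤ (p : ℝ) ^ (-c) * (Z.card : ℝ) ^ 2 + (p : ℝ) ^ ε := by
  obtain ⟨κ, hκ, p₁, hflat⟩ := flat_set (ε / 4) (by positivity)
  set c : ℝ := min (κ / 5) (ε / 24) with hc
  have hc0 : 0 < c := by rw [hc]; positivity
  have hc1 : c ≤ κ / 5 := min_le_left _ _
  have hc2 : c ≤ ε / 24 := min_le_right _ _
  obtain ⟨p₂, hp₂2, hp₂⟩ := Pool.Agent.H435R3.Paley.exists_large 4 c hc0
  refine ⟨c, hc0, p₁ + p₂, fun p _ hp A Z G hA hZ hG => ?_⟩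
  have hp2 : (2 : ℝ) ≤ p := by exact_mod_cast (Fact.out : p.Prime).two_le
  have hp0 : (0 : ℝ) < p := by linarith
  have hp1 : (1 : ℝ) ≤ p := by linarith
  have h4c : 4 ≤ (p : ℝ) ^ c := hp₂ p (by omega)
  set Q : ℝ := (p : ℝ) ^ c with hQ
  have hQ0 : 0 < Q := by linarith
  have hQ1 : 1 ≤ Q := by linarith
  have hQpow : ∀ n : ℕ, Q ^ n = (p : ℝ) ^ (c * n) := fun n => by
    rw [hQ, ← Real.rpow_natCast, ← Real.rpow_mul hp0.le]
  have hmono : ∀ x y : ℝ, x ≤ y → (p : ℝ) ^ x ≤ (p : ℝ) ^ y := fun x y h =>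
    Real.rpow_le_rpow_of_exponent_le hp1 h
  have hQ4 : ∀ n : ℕ, 4 * Q ^ n ≤ Q ^ (n + 1) := fun n => by
    rw [pow_succ, mul_comm]
    exact mul_le_mul_of_nonneg_left h4c (by positivity)
  by_cases hGe : G.card = 0
  · rw [hGe]
    push_cast
    positivity
  have hG0 : (0 : ℝ) < G.card := by exact_mod_cast Nat.pos_of_ne_zero hGe
  have hA2 : 2 * Q ^ 3 ≤ A.card := by
    have h1 : 4 * Q ^ 3 ≤ Q ^ 4 := hQ4 3
    have h2 : Q ^ 4 ≤ (p : ℝ) ^ ε := by
      rw [hQpow]
      refine hmono _ _ ?_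
      push_cast
      linarith
    have h3 : (0 : ℝ) ≤ Q ^ 3 := by positivity
    linarith
  have hAc : (0 : ℝ) < A.card := lt_of_lt_of_le (by positivity) hA2
  obtain ⟨a, ha, a', ha', haa, hpop⟩ := popular A Z G Q hQ1 hA2 fun g hg => (hG g hg).2
  set G' := G.filter (fun g => a ∈ hit A Z g ∧ a' ∈ hit A Z g) with hG'
  have hG't : ∀ g ∈ G', g.2 ≠ 0 := fun g hg => (hG g (mem_filter.1 hg).1).1
  have hinj : ∀ g ∈ G', ∀ g' ∈ G', (a + g.1) / g.2 = (a + g'.1) / g'.2 →
      (a' + g.1) / g.2 = (a' + g'.1) / g'.2 → g = g' := fun g hg g' hg' h1 h2 => by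
    obtain ⟨h3, h4⟩ := pair_inj haa (hG't g hg) (hG't g' hg') h1 h2
    exact Prod.ext h3 h4
  -- the first bound
  have hG'c : (G'.card : ℝ) ≤ (Z.card : ℝ) ^ 2 := by
    have h1 : G'.card ≤ (Z ×ˢ Z).card := by
      refine card_le_card_of_injOn (fun g => ((a + g.1) / g.2, (a' + g.1) / g.2)) ?_ ?_
      · intro g hg
        have h2 := (mem_filter.1 hg).2
        exact mem_coe.2 (mem_product.2 ⟨(mem_filter.1 h2.1).2, (mem_filter.1 h2.2).2⟩)
      · intro g hg g' hg' h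
        simp only [Prod.mk.injEq] at h
        exact hinj g hg g' hg' h.1 h.2
    rw [card_product] at h1
    have h2 : (G'.card : ℝ) ≤ ((Z.card * Z.card : ℕ) : ℝ) := by exact_mod_cast h1
    push_cast at h2
    rw [sq]
    exact h2
  have hB1 : (G.card : ℝ) ≤ 2 * Q ^ 3 * (Z.card : ℝ) ^ 2 := by
    have h1 : ∑ g ∈ G', ((hit A Z g).card : ℝ) ≤ G'.card * A.card := by
      rw [← nsmul_eq_mul]
      exact sum_le_card_nsmul _ _ _ fun g _ => hit_card_le A Z g
    have h2 : (G.card : ℝ) * A.card ≤ (2 * Q ^ 3 * (Z.card : ℝ) ^ 2) * A.card := by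
      calc (G.card : ℝ) * A.card ≤ 2 * Q ^ 3 * ∑ g ∈ G', ((hit A Z g).card : ℝ) := hpop
        _ ≤ 2 * Q ^ 3 * ((Z.card : ℝ) ^ 2 * A.card) :=
            mul_le_mul_of_nonneg_left
              (h1.trans (mul_le_mul_of_nonneg_right hG'c hAc.le)) (by positivity)
        _ = _ := by ring
    exact le_of_mul_le_mul_right h2 hAc
  rcases lt_or_ge ((Z.card : ℝ)) ((p : ℝ) ^ (ε / 4)) with hZs | hZl
  · -- small `Z`
    have h1 : (G.card : ℝ) ≤ (p : ℝ) ^ ε := by
      calc (G.card : ℝ) ≤ 2 * Q ^ 3 * (Z.card : ℝ) ^ 2 := hB1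
        _ ≤ 4 * Q ^ 3 * ((p : ℝ) ^ (ε / 4)) ^ 2 := by
            have h2 : (Z.card : ℝ) ^ 2 ≤ ((p : ℝ) ^ (ε / 4)) ^ 2 :=
              pow_le_pow_left₀ (Nat.cast_nonneg _) hZs.le 2
            have h3 : (0 : ℝ) ≤ Q ^ 3 := by positivity
            nlinarith [mul_le_mul_of_nonneg_left h2 h3, mul_nonneg h3
              (sq_nonneg ((p : ℝ) ^ (ε / 4)))]
        _ ≤ Q ^ 4 * ((p : ℝ) ^ (ε / 4)) ^ 2 :=
            mul_le_mul_of_nonneg_right (hQ4 3) (by positivity)
        _ = (p : ℝ) ^ (c * (4 : ℕ) + ε / 4 * 2) := by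
            rw [hQpow, ← Real.rpow_natCast ((p : ℝ) ^ (ε / 4)) 2, ← Real.rpow_mul hp0.le,
              ← Real.rpow_add hp0]
            norm_num
        _ ≤ _ := by
            refine hmono _ _ ?_
            push_cast
            linarith
    have h2 : 0 ≤ (p : ℝ) ^ (-c) * (Z.card : ℝ) ^ 2 := by positivity
    linarith
  · -- large `Z`
    suffices h : (G.card : ℝ) ≤ (p : ℝ) ^ (-c) * (Z.card : ℝ) ^ 2 by
      have : 0 ≤ (p : ℝ) ^ ε := by positivity
      linarith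
    by_contra hcon
    have hcon := not_le.1 hcon
    have hGbig : (Z.card : ℝ) ^ 2 ≤ Q * G.card := by
      have h1 : (p : ℝ) ^ (-c) = Q⁻¹ := by rw [hQ, Real.rpow_neg hp0.le]
      rw [h1] at hcon
      have h2 : (Z.card : ℝ) ^ 2 = Q * (Q⁻¹ * (Z.card : ℝ) ^ 2) := by
        field_simp
      rw [h2]
      exact mul_le_mul_of_nonneg_left hcon.le hQ0.le
    set n : ZMod p → ℝ := fun b => ((G'.filter fun g => b ∈ hit A Z g).card : ℝ) with hn
    have hsum : ∑ g ∈ G', ((hit A Z g).card : ℝ) = ∑ b ∈ A, n b := by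
      have h1 : ∀ g ∈ G', ((hit A Z g).card : ℝ) = ∑ b ∈ A, if b ∈ hit A Z g then 1 else 0 := by
        intro g _
        rw [← sum_filter, sum_const, nsmul_eq_mul, mul_one]
        congr 2
        ext b
        rw [mem_filter]
        exact ⟨fun h => ⟨(mem_filter.1 h).1, h⟩, fun h => h.2⟩
      rw [sum_congr rfl h1, sum_comm]
      refine sum_congr rfl fun b _ => ?_
      rw [hn, ← sum_filter, sum_const, nsmul_eq_mul, mul_one]
    set Λ := A.filter fun b => (G.card : ℝ) ≤ 4 * Q ^ 3 * n b with hΛ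
    have hnG : ∀ b, n b ≤ G.card := fun b => by
      simp only [hn]
      exact_mod_cast (card_filter_le _ _).trans (card_filter_le _ _)
    have hΛc : (A.card : ℝ) ≤ 4 * Q ^ 3 * Λ.card := by
      have h1 : ∑ b ∈ A, n b ≤ Λ.card * G.card + A.card * (G.card / (4 * Q ^ 3)) := by
        rw [← sum_filter_add_sum_filter_not A (fun b => (G.card : ℝ) ≤ 4 * Q ^ 3 * n b)]
        refine add_le_add ?_ ?_
        · rw [← nsmul_eq_mul]
          exact sum_le_card_nsmul _ _ _ fun b _ => hnG b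
        · have h2 : ∀ b ∈ A.filter (fun b => ¬ (G.card : ℝ) ≤ 4 * Q ^ 3 * n b),
              n b ≤ G.card / (4 * Q ^ 3) := by
            intro b hb
            rw [le_div_iff₀ (by positivity), mul_comm]
            exact (not_le.1 (mem_filter.1 hb).2).le
          refine (sum_le_card_nsmul _ _ _ h2).trans ?_
          rw [nsmul_eq_mul]
          refine mul_le_mul_of_nonneg_right ?_ (by positivity)
          exact_mod_cast card_filter_le A _
      have h2 : (G.card : ℝ) * A.card ≤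
          2 * Q ^ 3 * (Λ.card * G.card + A.card * (G.card / (4 * Q ^ 3))) := by
        refine hpop.trans ?_
        rw [hsum]
        exact mul_le_mul_of_nonneg_left h1 (by positivity)
      have h3 : 2 * Q ^ 3 * (Λ.card * G.card + A.card * (G.card / (4 * Q ^ 3))) =
          G.card * (2 * Q ^ 3 * Λ.card + A.card / 2) := by
        field_simp
        ring
      rw [h3] at h2
      have h4 := le_of_mul_le_mul_left h2 hG0
      linarith
    -- the dilations
    set f : ZMod p → ZMod p := fun b => (b - a) / (a' - b) with hf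
    set Λ' := (Λ.erase a).erase a' with hΛ'
    have hfinj : Set.InjOn f ↑Λ' := by
      intro b hb b' hb' h
      have hb1 : b ≠ a' := (mem_erase.1 hb).1
      have hb2 : b' ≠ a' := (mem_erase.1 hb').1
      simp only [hf] at h
      rw [div_eq_div_iff (sub_ne_zero.2 hb1.symm) (sub_ne_zero.2 hb2.symm)] at h
      have h3 : (a' - a) * (b - b') = 0 := by linear_combination h
      rcases mul_eq_zero.1 h3 with h4 | h4
      · exact absurd (sub_eq_zero.1 h4) haa.symm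
      · exact sub_eq_zero.1 h4
    have hΛ'c : (Λ.card : ℝ) - 2 ≤ Λ'.card := by
      have h1 : Λ.card ≤ Λ'.card + 2 := by
        have h2 := pred_card_le_card_erase (s := Λ) (a := a)
        have h3 := pred_card_le_card_erase (s := Λ.erase a) (a := a')
        rw [← hΛ'] at h3
        omega
      have h2 : (Λ.card : ℝ) ≤ Λ'.card + 2 := by exact_mod_cast h1
      linarith
    have hM := hflat p (by omega) Z (Λ'.image f) hZl (hZ.trans (hmono _ _ (by linarith))) (by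
      intro μ hμ
      obtain ⟨b, hb, rfl⟩ := mem_image.1 hμ
      have hb1 : b ≠ a' := (mem_erase.1 hb).1
      have hb2 : b ≠ a := (mem_erase.1 (mem_erase.1 hb).2).1
      have hbΛ : b ∈ Λ := (mem_erase.1 (mem_erase.1 hb).2).2
      have hnb := (mem_filter.1 hbΛ).2
      have hd1 : a' - b ≠ 0 := sub_ne_zero.2 hb1.symm
      have hd2 : a' - a ≠ 0 := sub_ne_zero.2 haa.symm
      refine ⟨div_ne_zero (sub_ne_zero.2 hb2) hd1,
        Z.image fun z => z * ((a' - a) / (a' - b)), ?_, ?_⟩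
      · have h1 : ((Z.image fun z => z * ((a' - a) / (a' - b))).card : ℝ) ≤ Z.card := by
          exact_mod_cast card_image_le
        refine h1.trans (le_mul_of_one_le_left (Nat.cast_nonneg _) ?_)
        exact Real.one_le_rpow hp1 hκ.le
      · have h1 : n b ≤ (((Z ×ˢ Z).filter fun q =>
            q.1 + f b * q.2 ∈ Z.image fun z => z * ((a' - a) / (a' - b))).card : ℝ) := by
          simp only [hn]
          have h2 : (G'.filter fun g => b ∈ hit A Z g).card ≤ ((Z ×ˢ Z).filter fun q =>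
              q.1 + f b * q.2 ∈ Z.image fun z => z * ((a' - a) / (a' - b))).card := by
            refine card_le_card_of_injOn (fun g => ((a + g.1) / g.2, (a' + g.1) / g.2)) ?_ ?_
            · intro g hg
              obtain ⟨hg1, hg2⟩ := mem_filter.1 hg
              have h3 := (mem_filter.1 hg1).2
              have ht := hG't g hg1
              refine mem_coe.2 (mem_filter.2 ⟨mem_product.2
                ⟨(mem_filter.1 h3.1).2, (mem_filter.1 h3.2).2⟩, mem_image.2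
                ⟨(b + g.1) / g.2, (mem_filter.1 hg2).2, ?_⟩⟩)
              simp only [hf]
              field_simp
              ring
            · intro g hg g' hg' h
              simp only [Prod.mk.injEq] at h
              exact hinj g (mem_filter.1 hg).1 g' (mem_filter.1 hg').1 h.1 h.2
          exact_mod_cast h2
        calc (Z.card : ℝ) ^ 2 ≤ Q * G.card := hGbig
          _ ≤ Q * (4 * Q ^ 3 * n b) := mul_le_mul_of_nonneg_left hnb hQ0.le
          _ = (4 * Q ^ 4) * n b := by ring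
          _ ≤ Q ^ 5 * n b := mul_le_mul_of_nonneg_right (hQ4 4) (Nat.cast_nonneg _)
          _ ≤ (p : ℝ) ^ κ * n b := by
              refine mul_le_mul_of_nonneg_right ?_ (Nat.cast_nonneg _)
              rw [hQpow]
              refine hmono _ _ ?_
              push_cast
              linarith
          _ ≤ _ := mul_le_mul_of_nonneg_left h1 (by positivity))
    rw [card_image_of_injOn hfinj] at hM
    -- the contradiction
    have h1 : (p : ℝ) ^ ε ≤ Q ^ 4 * Λ.card := by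
      calc (p : ℝ) ^ ε ≤ A.card := hA
        _ ≤ 4 * Q ^ 3 * Λ.card := hΛc
        _ ≤ Q ^ 4 * Λ.card := mul_le_mul_of_nonneg_right (hQ4 3) (Nat.cast_nonneg _)
    set y : ℝ := (p : ℝ) ^ (ε / 4) with hy
    have hy0 : 0 < y := by positivity
    have hQy : Q ≤ y := hmono _ _ (by linarith)
    have h2 : Q ^ 4 * (4 * y) ≤ (p : ℝ) ^ ε := by
      calc Q ^ 4 * (4 * y) = (4 * Q ^ 4) * y := by ring
        _ ≤ Q ^ 5 * y := mul_le_mul_of_nonneg_right (hQ4 4) hy0.le
        _ = (p : ℝ) ^ (c * (5 : ℕ) + ε / 4) := by rw [hQpow, hy, ← Real.rpow_add hp0]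
        _ ≤ _ := by
            refine hmono _ _ ?_
            push_cast
            linarith
    have h3 : 4 * y ≤ Λ.card := by
      have h4 : Q ^ 4 * (4 * y) ≤ Q ^ 4 * Λ.card := h2.trans h1
      exact le_of_mul_le_mul_left h4 (by positivity)
    linarith

end Pool.Agent.Y881.SP
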