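import Pool.Agent.Y881.SP.Expand

set_option autoImplicit false

/-! # No set is nearly invariant under many translations and many affine maps -/

open Finset

namespace Pool.Agent.Y881.SP

section
variable {p : ℕ} [Fact p.Prime]

theorem Rob_stepJ {κ : Type*} (J : Finset κ) (hJ : J.Nonempty) (l τ : κ → ZMod p)
    (hl0 : ∀ j ∈ J, l j ≠ 0) (Y : Finset (ZMod p)) (ρ : ZMod p → ℝ)
    (h0 : ∀ x, 0 ≤ ρ x) (e : ℕ) (he : 1 ≤ e) (C K : ℝ) (hC : 0 ≤ C) (hK : 0 < K)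
    (hpop : ∀ y ∈ Y, (J.card : ℝ) ≤ K * (J.filter fun j => (y - τ j) / l j ∈ Y).card)
    (h : Rob Y ρ e C) : Rob Y (R (law J l) ρ) (2 * e - 1) (K ^ (2 * e) * C ^ 2) := by
  classical
  have hJc : (0 : ℝ) < J.card := by exact_mod_cast hJ.card_pos
  set ℓ := law J l with hℓdef
  have hℓ : ∀ x, 0 ≤ ℓ x := law_nonneg _ _
  have hz : ℓ 0 = 0 := by
    rw [hℓdef]
    unfold law
    have h1 : (J.filter fun s => l s = 0) = ∅ := by
      rw [filter_eq_empty_iff]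
      exact fun j hj h => hl0 j hj h
    rw [h1]
    simp
  intro w hw0 hw1 hwY
  set m := ∑ x, w x with hm
  have hm0 : 0 ≤ m := sum_nonneg fun x _ => hw0 x
  set g : ZMod p → ℝ := fun s => ∑ l, ∑ y, ℓ l * ρ y * w (s + l * y) with hg
  have hg0 : ∀ s, 0 ≤ g s := fun s => sum_nonneg fun l _ => sum_nonneg fun y _ =>
    mul_nonneg (mul_nonneg (hℓ l) (h0 y)) (hw0 _)
  have hQ : Q (R ℓ ρ) w = ∑ s, g s ^ 2 := Q_R ℓ ρ w hz
  set A := ∑ s, w s * g s with hA
  have hA2 : A ^ 2 ≤ m * Q (R ℓ ρ) w := by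
    rw [hQ]
    refine (wcs univ w g fun s _ => hw0 s).trans ?_
    refine mul_le_mul_of_nonneg_left (sum_le_sum fun s _ => ?_) hm0
    exact mul_le_of_le_one_left (by positivity) (hw1 s)
  -- the transported weights
  set v : κ → ZMod p → ℝ := fun j u => if u ∈ Y then w (l j * u + τ j) else 0 with hv
  have hAv : (J.card : ℝ)⁻¹ * ∑ j ∈ J, Q ρ (v j) ≤ A := by
    have h1 : A = (J.card : ℝ)⁻¹ * ∑ j ∈ J, ∑ y, ρ y * ∑ s, w s * w (s + l j * y) := by
      rw [← law_test J l (fun x => ∑ y, ρ y * ∑ s, w s * w (s + x * y))]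
      simp only [hA, hg, mul_sum]
      rw [sum_comm]
      refine sum_congr rfl fun l _ => ?_
      rw [sum_comm]
      refine sum_congr rfl fun y _ => sum_congr rfl fun s _ => ?_
      ring
    rw [h1]
    refine mul_le_mul_of_nonneg_left (sum_le_sum fun j hj => ?_) (by positivity)
    have hl := hl0 j hj
    unfold Q
    refine sum_le_sum fun y _ => mul_le_mul_of_nonneg_left ?_ (h0 y)
    rw [← Equiv.sum_comp ((Equiv.mulLeft₀ (l j) hl).trans (Equiv.addRight (τ j)))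
      (fun s => w s * w (s + l j * y))]
    refine sum_le_sum fun u _ => ?_
    simp only [Equiv.trans_apply, Equiv.mulLeft₀_apply, Equiv.coe_addRight]
    have e1 : l j * u + τ j + l j * y = l j * (u + y) + τ j := by ring
    rw [e1]
    simp only [hv]
    have ha := hw0 (l j * u + τ j)
    have hb := hw0 (l j * (u + y) + τ j)
    by_cases h1 : u ∈ Y
    · rw [if_pos h1]
      by_cases h2 : u + y ∈ Y
      · rw [if_pos h2]
      · rw [if_neg h2, mul_zero]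
        positivity
    · rw [if_neg h1, zero_mul]
      positivity
  have hvm : m ≤ K * ((J.card : ℝ)⁻¹ * ∑ j ∈ J, ∑ u, v j u) := by
    have h1 : ∑ j ∈ J, ∑ u, v j u = ∑ s, w s * (J.filter fun j => (s - τ j) / l j ∈ Y).card := by
      have h2 : ∀ j ∈ J, ∑ u, v j u = ∑ s, if (s - τ j) / l j ∈ Y then w s else 0 := by
        intro j hj
        have hl := hl0 j hj
        rw [← Equiv.sum_comp ((Equiv.mulLeft₀ (l j) hl).trans (Equiv.addRight (τ j)))
          (fun s => if (s - τ j) / l j ∈ Y then w s else 0)]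
        refine sum_congr rfl fun u _ => ?_
        simp only [Equiv.trans_apply, Equiv.mulLeft₀_apply, Equiv.coe_addRight,
          add_sub_cancel_right, mul_div_cancel_left₀ u hl, hv]
      rw [sum_congr rfl h2, sum_comm]
      refine sum_congr rfl fun s _ => ?_
      rw [← sum_filter, sum_const, nsmul_eq_mul, mul_comm]
    rw [h1, mul_sum, mul_sum, hm]
    refine sum_le_sum fun s _ => ?_
    by_cases hs : s ∈ Y
    · have h2 := hpop s hs
      have h3 : K * ((J.card : ℝ)⁻¹ * (w s * (J.filter fun j => (s - τ j) / l j ∈ Y).card)) =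
          w s * (K * (J.filter fun j => (s - τ j) / l j ∈ Y).card / J.card) := by
        field_simp
      rw [h3]
      have h4 : 1 ≤ K * (J.filter fun j => (s - τ j) / l j ∈ Y).card / J.card := by
        rw [le_div_iff₀ hJc, one_mul]
        exact h2
      exact le_mul_of_one_le_right (hw0 s) h4
    · rw [hwY s hs]
      simp
  -- Jensen
  have hv0 : ∀ j, 0 ≤ ∑ u, v j u := fun j => sum_nonneg fun u _ => by
    simp only [hv]
    split_ifs
    · exact hw0 _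
    · exact le_rfl
  have hjen : ((J.card : ℝ)⁻¹ * ∑ j ∈ J, ∑ u, v j u) ^ e ≤
      (J.card : ℝ)⁻¹ * ∑ j ∈ J, (∑ u, v j u) ^ e := by
    have h2 := Real.pow_arith_mean_le_arith_mean_pow J (fun _ => (J.card : ℝ)⁻¹)
      (fun j => ∑ u, v j u) (fun _ _ => by positivity)
      (by rw [sum_const, nsmul_eq_mul, mul_inv_cancel₀ hJc.ne']) (fun j _ => hv0 j) e
    rw [← mul_sum, ← mul_sum] at h2
    exact h2
  have hrob : ∀ j, (∑ u, v j u) ^ e ≤ C * (Y.card : ℝ) ^ (e - 1) * Q ρ (v j) := by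
    intro j
    refine h (v j) (fun u => ?_) (fun u => ?_) (fun u hu => ?_)
    · simp only [hv]
      split_ifs
      · exact hw0 _
      · exact le_rfl
    · simp only [hv]
      split_ifs
      · exact hw1 _
      · exact zero_le_one
    · simp only [hv]
      rw [if_neg hu]
  have hmain : m ^ e ≤ K ^ e * (C * (Y.card : ℝ) ^ (e - 1) * A) := by
    have hv1 : 0 ≤ (J.card : ℝ)⁻¹ * ∑ j ∈ J, ∑ u, v j u :=
      mul_nonneg (by positivity) (sum_nonneg fun j _ => hv0 j)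
    calc m ^ e ≤ (K * ((J.card : ℝ)⁻¹ * ∑ j ∈ J, ∑ u, v j u)) ^ e := pow_le_pow_left₀ hm0 hvm e
      _ = K ^ e * ((J.card : ℝ)⁻¹ * ∑ j ∈ J, ∑ u, v j u) ^ e := mul_pow _ _ _
      _ ≤ K ^ e * ((J.card : ℝ)⁻¹ * ∑ j ∈ J, (∑ u, v j u) ^ e) :=
          mul_le_mul_of_nonneg_left hjen (by positivity)
      _ ≤ K ^ e * ((J.card : ℝ)⁻¹ * ∑ j ∈ J, C * (Y.card : ℝ) ^ (e - 1) * Q ρ (v j)) := by
          gcongr with j hj
          exact hrob j
      _ = K ^ e * (C * (Y.card : ℝ) ^ (e - 1) * ((J.card : ℝ)⁻¹ * ∑ j ∈ J, Q ρ (v j))) := by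
          rw [← mul_sum]
          ring
      _ ≤ _ := by gcongr
  rcases hm0.eq_or_lt with hm00 | hmpos
  · rw [← hm00, zero_pow (by omega)]
    have hQ0 : 0 ≤ Q (R ℓ ρ) w := by
      rw [hQ]
      exact sum_nonneg fun s _ => by positivity
    positivity
  · have h1 : (m ^ e) ^ 2 ≤ (K ^ e * (C * (Y.card : ℝ) ^ (e - 1) * A)) ^ 2 :=
      pow_le_pow_left₀ (by positivity) hmain 2
    have h2 : (K ^ e * (C * (Y.card : ℝ) ^ (e - 1) * A)) ^ 2 =
        K ^ (2 * e) * C ^ 2 * (Y.card : ℝ) ^ (2 * e - 1 - 1) * A ^ 2 := by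
      rw [show 2 * e - 1 - 1 = 2 * (e - 1) by omega]
      ring
    have h3 : m ^ (2 * e - 1) * m ≤
        (K ^ (2 * e) * C ^ 2 * (Y.card : ℝ) ^ (2 * e - 1 - 1) * Q (R ℓ ρ) w) * m := by
      calc m ^ (2 * e - 1) * m = (m ^ e) ^ 2 := by
            rw [← pow_succ, ← pow_mul]
            congr 1
            omega
        _ ≤ _ := h1
        _ = _ := h2
        _ ≤ K ^ (2 * e) * C ^ 2 * (Y.card : ℝ) ^ (2 * e - 1 - 1) * (m * Q (R ℓ ρ) w) :=
            mul_le_mul_of_nonneg_left hA2 (by positivity)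
        _ = _ := by ring
    exact le_of_mul_le_mul_right h3 hmpos

theorem Rob_iterJ {κ : Type*} (J : Finset κ) (hJ : J.Nonempty) (l τ : κ → ZMod p)
    (hl0 : ∀ j ∈ J, l j ≠ 0) (Y : Finset (ZMod p)) (ρ : ZMod p → ℝ)
    (h0 : ∀ x, 0 ≤ ρ x) (K : ℝ) (hK : 0 < K)
    (hpop : ∀ y ∈ Y, (J.card : ℝ) ≤ K * (J.filter fun j => (y - τ j) / l j ∈ Y).card)
    (h : Rob Y ρ 2 (K ^ 3)) (n : ℕ) :
    (∀ x, 0 ≤ (R (law J l))^[n] ρ x) ∧
      Rob Y ((R (law J l))^[n] ρ) (2 ^ n + 1) (K ^ Fx n) := by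
  induction n with
  | zero => exact ⟨h0, h⟩
  | succ n ih =>
    obtain ⟨ih1, ih2⟩ := ih
    rw [Function.iterate_succ_apply']
    refine ⟨R_nonneg _ _ (law_nonneg _ _) ih1, ?_⟩
    have h2 := Rob_stepJ J hJ l τ hl0 Y _ ih1 (2 ^ n + 1) (Nat.le_add_left 1 _) (K ^ Fx n) K
      (by positivity) hK hpop ih2
    have e1 : 2 * (2 ^ n + 1) - 1 = 2 ^ (n + 1) + 1 := by
      rw [pow_succ]
      omega
    have e2 : K ^ (2 * (2 ^ n + 1)) * (K ^ Fx n) ^ 2 = K ^ Fx (n + 1) := by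
      rw [← pow_mul, ← pow_add, Fx]
      congr 1
      ring
    rw [e1, e2] at h2
    exact h2

end

open Classical in
/-- no set is nearly invariant under many translations and many affine maps -/
theorem no_inv_aff (ε : ℝ) (hε : 0 < ε) : ∃ k : ℝ, 0 < k ∧ ∃ p₀ : ℕ, ∀ (p : ℕ) [Fact p.Prime],
    p₀ ≤ p → ∀ {ι : Type} (I : Finset ι) (d g : ι → ZMod p) (A Y V : Finset (ZMod p)),
      I.Nonempty → (∀ i ∈ I, d i ≠ 0) →
      (∀ x, ((I.filter fun i => d i = x).card : ℝ) ≤ (p : ℝ) ^ (-ε) * I.card) →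
      (p : ℝ) ^ ε ≤ A.card → Y.Nonempty → (Y.card : ℝ) ≤ (p : ℝ) ^ (1 - ε) →
      (V.card : ℝ) ≤ (p : ℝ) ^ k * Y.card →
      (∀ y ∈ Y, (A.card : ℝ) ≤ (p : ℝ) ^ k * (A.filter fun a => y + a ∈ V).card) →
      (∀ y ∈ Y, (I.card : ℝ) ^ 2 ≤ (p : ℝ) ^ k *
        ((I ×ˢ I).filter fun q => d q.2 * ((g q.1 + y) / d q.1) - g q.2 ∈ Y).card) → False := by
  obtain ⟨γ, hγ⟩ : ∃ γ : ℝ, γ = ε / 2 := ⟨_, rfl⟩
  have hγ0 : 0 < γ := by rw [hγ]; positivity
  obtain ⟨κ, hκ, p₁, hflat⟩ := flat γ hγ0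
  obtain ⟨κ₂, hκ₂⟩ : ∃ κ₂ : ℝ, κ₂ = min κ γ / 2 := ⟨_, rfl⟩
  have hκ₂0 : 0 < κ₂ := by rw [hκ₂]; positivity
  have hκ₂1 : 2 * κ₂ ≤ κ := by rw [hκ₂]; linarith [min_le_left κ γ]
  have hκ₂2 : 2 * κ₂ ≤ γ := by rw [hκ₂]; linarith [min_le_right κ γ]
  obtain ⟨n, hn⟩ : ∃ n : ℕ, 1 < n * κ₂ := by
    obtain ⟨n, hn⟩ := exists_nat_gt (1 / κ₂)
    exact ⟨n, by rwa [div_lt_iff₀ hκ₂0] at hn⟩
  obtain ⟨k, hk⟩ : ∃ k : ℝ, k = γ / (4 * (Fx n + 1)) := ⟨_, rfl⟩
  have hk0 : 0 < k := by rw [hk]; positivity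
  obtain ⟨p₂, hp₂2, hp₂⟩ := Pool.Agent.H435R3.Paley.exists_large 2 κ₂ hκ₂0
  refine ⟨k, hk0, p₁ + p₂, fun p _ hp ι I d g A Y V hI hd0 hdc hA hY hYc hV hpopA hpopT => ?_⟩
  have hp2 : (2 : ℝ) ≤ p := by exact_mod_cast (Fact.out : p.Prime).two_le
  have hp0 : (0 : ℝ) < p := by linarith
  have hp1 : (1 : ℝ) ≤ p := by linarith
  have hp1' : (1 : ℝ) < p := by linarith
  have hmono : ∀ x y : ℝ, x ≤ y → (p : ℝ) ^ x ≤ (p : ℝ) ^ y := fun x y h =>
    Real.rpow_le_rpow_of_exponent_le hp1 h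
  have hAc : (0 : ℝ) < A.card := lt_of_lt_of_le (by positivity) hA
  have hAne : A.Nonempty := by rw [← card_pos]; exact_mod_cast hAc
  have hIc : (0 : ℝ) < I.card := by exact_mod_cast hI.card_pos
  have hYc0 : (0 : ℝ) < Y.card := by exact_mod_cast hY.card_pos
  have hJ : (I ×ˢ I).Nonempty := hI.product hI
  obtain ⟨l, hl⟩ : ∃ l : ι × ι → ZMod p, l = fun q => d q.1 / d q.2 := ⟨_, rfl⟩
  obtain ⟨τ, hτ⟩ : ∃ τ : ι × ι → ZMod p, τ = fun q => -g q.1 + g q.2 * (d q.1 / d q.2) := ⟨_, rfl⟩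
  have hl0 : ∀ q ∈ I ×ˢ I, l q ≠ 0 := by
    intro q hq
    rw [mem_product] at hq
    rw [hl]
    exact div_ne_zero (hd0 _ hq.1) (hd0 _ hq.2)
  set ℓ := law (I ×ˢ I) l with hℓdef
  have hℓ : ∀ x, 0 ≤ ℓ x := law_nonneg _ _
  have hz : ℓ 0 = 0 := by
    rw [hℓdef]
    unfold law
    have h1 : ((I ×ˢ I).filter fun s => l s = 0) = ∅ := by
      rw [filter_eq_empty_iff]
      exact fun j hj h => hl0 j hj h
    rw [h1]
    simp
  have hℓ1 : ∑ x, ℓ x = 1 := law_sum _ hJ _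
  have hℓm : ∀ x, ℓ x ≤ (p : ℝ) ^ (-ε) := by
    intro x
    rw [hℓdef]
    unfold law
    rw [card_product]
    have h1 : (((I ×ˢ I).filter fun s => l s = x).card : ℝ) ≤
        (p : ℝ) ^ (-ε) * I.card * I.card := by
      have h2 : (((I ×ˢ I).filter fun s => l s = x).card : ℝ) =
          ∑ j ∈ I, ((I.filter fun i => l (i, j) = x).card : ℝ) := by
        simp only [card_filter, Nat.cast_sum]
        rw [Finset.sum_product_right]
      rw [h2]
      have h3 : ∀ j ∈ I, ((I.filter fun i => l (i, j) = x).card : ℝ) ≤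
          (p : ℝ) ^ (-ε) * I.card := by
        intro j hj
        have h4 : (I.filter fun i => l (i, j) = x) = I.filter fun i => d i = x * d j := by
          refine filter_congr fun i _ => ?_
          rw [hl]
          simp only
          rw [div_eq_iff (hd0 j hj)]
        rw [h4]
        exact hdc _
      refine (sum_le_card_nsmul _ _ _ h3).trans (le_of_eq ?_)
      rw [nsmul_eq_mul]
      ring
    have h5 : (0 : ℝ) ≤ ((I.card * I.card : ℕ) : ℝ)⁻¹ := by positivity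
    refine (mul_le_mul_of_nonneg_right h1 h5).trans (le_of_eq ?_)
    push_cast
    field_simp
  set ρ := dif A with hρdef
  have hρ : ∀ x, 0 ≤ ρ x := law_nonneg _ _
  have hρ1 : ∑ x, ρ x = 1 := law_sum _ (hAne.product hAne) _
  set K : ℝ := (p : ℝ) ^ k with hK
  have hK0 : 0 < K := by positivity
  have hpop : ∀ y ∈ Y, ((I ×ˢ I).card : ℝ) ≤
      K * ((I ×ˢ I).filter fun j => (y - τ j) / l j ∈ Y).card := by
    intro y hy
    have h3 : ((I ×ˢ I).filter fun j => (y - τ j) / l j ∈ Y) =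
        ((I ×ˢ I).filter fun q => d q.2 * ((g q.1 + y) / d q.1) - g q.2 ∈ Y) := by
      refine filter_congr fun q hq => ?_
      rw [mem_product] at hq
      have n1 := hd0 _ hq.1
      have n2 := hd0 _ hq.2
      have e : (y - τ q) / l q = d q.2 * ((g q.1 + y) / d q.1) - g q.2 := by
        rw [hl, hτ]
        field_simp
        ring
      rw [e]
    rw [h3, card_product]
    have h4 := hpopT y hy
    rw [sq] at h4
    push_cast
    exact h4
  have hbase : Rob Y ρ 2 (K ^ 3) := Rob_base A Y V hAne K hK0 hV hpopA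
  have hiter := Rob_iterJ (I ×ˢ I) hJ l τ hl0 Y ρ hρ K hK0 hpop hbase
  have hsum : ∀ i, ∑ x, (R ℓ)^[i] ρ x = 1 := by
    intro i
    induction i with
    | zero => exact hρ1
    | succ i ih =>
      rw [Function.iterate_succ_apply']
      exact R_sum ℓ _ hz hℓ1 ih
  have hnn : ∀ i, ∀ x, 0 ≤ (R ℓ)^[i] ρ x := fun i => (hiter i).1
  -- the norms
  have hnorm : ∀ i : ℕ, ∑ x, (R ℓ)^[i] ρ x ^ 2 ≤ (p : ℝ) ^ (-1 + γ) ∨
      ∑ x, (R ℓ)^[i] ρ x ^ 2 ≤ (p : ℝ) ^ (-γ - i * κ₂) := by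
    intro i
    induction i with
    | zero =>
      right
      refine (sq_le_of_le ρ hρ hρ1 _ (dif_le A hAne)).trans ?_
      rw [show -γ - ((0 : ℕ) : ℝ) * κ₂ = -γ by push_cast; ring, Real.rpow_neg hp0.le]
      exact inv_anti₀ (by positivity) ((hmono _ _ (by linarith)).trans hA)
    | succ i ih =>
      rw [Function.iterate_succ_apply']
      by_cases hlo : ∑ x, (R ℓ)^[i] ρ x ^ 2 ≤ (p : ℝ) ^ (-1 + γ)
      · left
        exact (R_le ℓ _ hℓ hz hℓ1 (hnn i) (hsum i)).trans hlo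
      · right
        have hhi := ih.resolve_left hlo
        have h1 := hflat p (by omega) _ (hnn i) (hsum i) (not_le.1 hlo).le
          (hhi.trans (hmono _ _ (by
            have : (0 : ℝ) ≤ i * κ₂ := by positivity
            linarith)))
        have h2 := R_flat ℓ _ hℓ hz hℓ1 _ hℓm (hnn i) (hsum i) ((p : ℝ) ^ κ) ((p : ℝ) ^ γ)
          (by positivity) h1.le
        have h3 : ((p : ℝ) ^ κ)⁻¹ + (p : ℝ) ^ γ * (p : ℝ) ^ (-ε) ≤ (p : ℝ) ^ (-κ₂) := by
          have e1 : ((p : ℝ) ^ κ)⁻¹ ≤ (p : ℝ) ^ (-(2 * κ₂)) := by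
            rw [← Real.rpow_neg hp0.le]
            exact hmono _ _ (by linarith)
          have e2 : (p : ℝ) ^ γ * (p : ℝ) ^ (-ε) ≤ (p : ℝ) ^ (-(2 * κ₂)) := by
            rw [← Real.rpow_add hp0]
            exact hmono _ _ (by linarith)
          have e3 : (2 : ℝ) ≤ (p : ℝ) ^ κ₂ := hp₂ p (by omega)
          have e4 : 2 * (p : ℝ) ^ (-(2 * κ₂)) ≤ (p : ℝ) ^ (-κ₂) := by
            calc 2 * (p : ℝ) ^ (-(2 * κ₂)) ≤ (p : ℝ) ^ κ₂ * (p : ℝ) ^ (-(2 * κ₂)) :=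
                  mul_le_mul_of_nonneg_right e3 (by positivity)
              _ = _ := by
                  rw [← Real.rpow_add hp0]
                  congr 1
                  ring
          linarith
        refine h2.trans ?_
        calc (((p : ℝ) ^ κ)⁻¹ + (p : ℝ) ^ γ * (p : ℝ) ^ (-ε)) * ∑ x, (R ℓ)^[i] ρ x ^ 2
            ≤ (p : ℝ) ^ (-κ₂) * (p : ℝ) ^ (-γ - i * κ₂) :=
              mul_le_mul h3 hhi (sum_nonneg fun x _ => by positivity) (by positivity)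
          _ = _ := by
              rw [← Real.rpow_add hp0]
              congr 1
              push_cast
              ring
  have hfin : ∑ x, (R ℓ)^[n] ρ x ^ 2 ≤ (p : ℝ) ^ (-1 + γ) := by
    rcases hnorm n with h | h
    · exact h
    · exact h.trans (hmono _ _ (by linarith))
  -- the contradiction
  have hrob := (hiter n).2 (ind Y) (ind_nonneg Y) (ind_le Y) (ind_notMem Y)
  rw [ind_sum] at hrob
  set q := Q ((R ℓ)^[n] ρ) (ind Y) with hq
  have h1 : (Y.card : ℝ) ≤ K ^ Fx n * q := by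
    have h2 : (Y.card : ℝ) ^ (2 ^ n) * Y.card ≤ (Y.card : ℝ) ^ (2 ^ n) * (K ^ Fx n * q) := by
      calc (Y.card : ℝ) ^ (2 ^ n) * Y.card = (Y.card : ℝ) ^ (2 ^ n + 1) := by rw [pow_succ]
        _ ≤ _ := hrob
        _ = _ := by
            rw [Nat.add_sub_cancel]
            ring
    exact le_of_mul_le_mul_left h2 (by positivity)
  have h2 := Q_le Y ((R ℓ)^[n] ρ)
  rw [← hq] at h2
  have h3 : (Y.card : ℝ) ^ 2 ≤ (K ^ Fx n) ^ 2 * ((p : ℝ) ^ (-1 + γ) * (Y.card : ℝ) ^ 3) := by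
    calc (Y.card : ℝ) ^ 2 ≤ (K ^ Fx n * q) ^ 2 := pow_le_pow_left₀ hYc0.le h1 2
      _ = (K ^ Fx n) ^ 2 * q ^ 2 := by ring
      _ ≤ (K ^ Fx n) ^ 2 * ((∑ x, (R ℓ)^[n] ρ x ^ 2) * (Y.card : ℝ) ^ 3) :=
          mul_le_mul_of_nonneg_left h2 (by positivity)
      _ ≤ _ := by gcongr
  have h4 : (1 : ℝ) ≤ (K ^ Fx n) ^ 2 * ((p : ℝ) ^ (-1 + γ) * Y.card) := by
    have h5 : 1 * (Y.card : ℝ) ^ 2 ≤
        ((K ^ Fx n) ^ 2 * ((p : ℝ) ^ (-1 + γ) * Y.card)) * (Y.card : ℝ) ^ 2 := by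
      rw [one_mul]
      refine h3.trans (le_of_eq ?_)
      ring
    exact le_of_mul_le_mul_right h5 (by positivity)
  have h5 : (K ^ Fx n) ^ 2 * ((p : ℝ) ^ (-1 + γ) * Y.card) < 1 := by
    calc (K ^ Fx n) ^ 2 * ((p : ℝ) ^ (-1 + γ) * Y.card)
        ≤ (K ^ Fx n) ^ 2 * ((p : ℝ) ^ (-1 + γ) * (p : ℝ) ^ (1 - ε)) := by gcongr
      _ = (p : ℝ) ^ (k * (Fx n * 2) + (-1 + γ) + (1 - ε)) := by
          rw [← pow_mul, hK, ← Real.rpow_natCast ((p : ℝ) ^ k), ← Real.rpow_mul hp0.le,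
            ← Real.rpow_add hp0, ← Real.rpow_add hp0]
          push_cast
          ring_nf
      _ < (p : ℝ) ^ (0 : ℝ) := by
          refine Real.rpow_lt_rpow_of_exponent_lt hp1' ?_
          have h6 : k * (Fx n * 2) ≤ γ / 2 := by
            rw [hk, div_mul_eq_mul_div, div_le_iff₀ (by positivity)]
            nlinarith
          linarith
      _ = 1 := Real.rpow_zero _
  linarith

end Pool.Agent.Y881.SP
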