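import Pool.Agent.Y881.SP.Four

set_option autoImplicit false

/-! # Statistical closure of the set of near-symmetric dilations -/

open Finset

namespace Pool.Agent.Y881.SP

variable {p : ℕ} [Fact p.Prime]

/-- weighted Cauchy–Schwarz -/
theorem wcs {ι : Type*} (s : Finset ι) (w f : ι → ℝ) (hw : ∀ i ∈ s, 0 ≤ w i) :
    (∑ i ∈ s, w i * f i) ^ 2 ≤ (∑ i ∈ s, w i) * ∑ i ∈ s, w i * f i ^ 2 := by
  have h3 := sum_mul_sq_le_sq_mul_sq s (fun x => Real.sqrt (w x))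
    (fun x => Real.sqrt (w x) * f x)
  have h4 : ∑ x ∈ s, Real.sqrt (w x) * (Real.sqrt (w x) * f x) = ∑ x ∈ s, w x * f x := by
    refine sum_congr rfl fun x hx => ?_
    rw [← mul_assoc, Real.mul_self_sqrt (hw x hx)]
  have h5 : ∑ x ∈ s, Real.sqrt (w x) ^ 2 = ∑ x ∈ s, w x :=
    sum_congr rfl fun x hx => Real.sq_sqrt (hw x hx)
  have h6 : ∑ x ∈ s, (Real.sqrt (w x) * f x) ^ 2 = ∑ x ∈ s, w x * f x ^ 2 := by
    refine sum_congr rfl fun x hx => ?_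
    rw [mul_pow, Real.sq_sqrt (hw x hx)]
  rw [h4, h5, h6] at h3
  exact h3

theorem sum_dil (f : ZMod p → ℝ) (μ : ZMod p) (hμ : μ ≠ 0) : ∑ ξ, f (μ * ξ) = ∑ ξ, f ξ :=
  Equiv.sum_comp (Equiv.mulLeft₀ μ hμ) f

theorem J_le (ρ : ZMod p → ℝ) (h0 : ∀ x, 0 ≤ ρ x) (h1 : ∑ x, ρ x = 1) (μ : ZMod p) :
    J ρ μ ≤ p * ∑ x, ρ x ^ 2 := by
  rw [← parseval]
  unfold J
  refine sum_le_sum fun ξ _ => ?_
  have h2 : ‖ft ρ (μ * ξ)‖ ^ 2 ≤ 1 := pow_le_one₀ (norm_nonneg _) (ft_le ρ h0 h1 _)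
  calc ‖ft ρ ξ‖ ^ 2 * ‖ft ρ (μ * ξ)‖ ^ 2 ≤ ‖ft ρ ξ‖ ^ 2 * 1 :=
        mul_le_mul_of_nonneg_left h2 (by positivity)
    _ = _ := mul_one _

/-- the common first step -/
theorem close0 (ρ : ZMod p → ℝ) (M : Finset (ZMod p)) (K P : ℝ) (hK : 0 < K) (hP0 : 0 < P)
    (hP : P = p * ∑ x, ρ x ^ 2) (h : (M.card : ℝ) * P ≤ K * ∑ μ ∈ M, J ρ μ) :
    (M.card : ℝ) ^ 2 * P ≤ K ^ 2 * ∑ ξ, ‖ft ρ ξ‖ ^ 2 * (∑ μ ∈ M, ‖ft ρ (μ * ξ)‖ ^ 2) ^ 2 := by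
  have e1 : ∑ μ ∈ M, J ρ μ = ∑ ξ, ‖ft ρ ξ‖ ^ 2 * ∑ μ ∈ M, ‖ft ρ (μ * ξ)‖ ^ 2 := by
    unfold J
    rw [sum_comm]
    exact sum_congr rfl fun ξ _ => (mul_sum _ _ _).symm
  have h2 := wcs (univ : Finset (ZMod p)) (fun ξ => ‖ft ρ ξ‖ ^ 2)
    (fun ξ => ∑ μ ∈ M, ‖ft ρ (μ * ξ)‖ ^ 2) fun ξ _ => by positivity
  rw [← e1, parseval, ← hP] at h2
  set S := ∑ μ ∈ M, J ρ μ with hS
  set W := ∑ ξ, ‖ft ρ ξ‖ ^ 2 * (∑ μ ∈ M, ‖ft ρ (μ * ξ)‖ ^ 2) ^ 2 with hW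
  have h3 : ((M.card : ℝ) * P) ^ 2 ≤ (K * S) ^ 2 := pow_le_pow_left₀ (by positivity) h 2
  have h4 : ((M.card : ℝ) ^ 2 * P) * P ≤ (K ^ 2 * W) * P := by
    calc ((M.card : ℝ) ^ 2 * P) * P = ((M.card : ℝ) * P) ^ 2 := by ring
      _ ≤ (K * S) ^ 2 := h3
      _ = K ^ 2 * S ^ 2 := by ring
      _ ≤ K ^ 2 * (P * W) := mul_le_mul_of_nonneg_left h2 (by positivity)
      _ = _ := by ring
  exact le_of_mul_le_mul_right h4 hP0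

/-- closure under quotients -/
theorem closeQ (ρ : ZMod p → ℝ) (h0 : ∀ x, 0 ≤ ρ x) (h1 : ∑ x, ρ x = 1) (M : Finset (ZMod p))
    (hM : ∀ μ ∈ M, μ ≠ 0) (K P : ℝ) (hK : 0 < K) (hP0 : 0 < P)
    (hP : P = p * ∑ x, ρ x ^ 2) (h : (M.card : ℝ) * P ≤ K * ∑ μ ∈ M, J ρ μ) :
    (M.card : ℝ) ^ 2 * P ≤ K ^ 2 * ∑ μ ∈ M, ∑ ν ∈ M, J ρ (ν / μ) := by
  refine (close0 ρ M K P hK hP0 hP h).trans (mul_le_mul_of_nonneg_left ?_ (by positivity))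
  have h2 : ∀ μ ∈ M, ∀ ν ∈ M, ∑ ξ, ‖ft ρ (μ * ξ)‖ ^ 2 * ‖ft ρ (ν * ξ)‖ ^ 2 = J ρ (ν / μ) := by
    intro μ hμ ν _
    unfold J
    rw [← sum_dil (fun ξ => ‖ft ρ ξ‖ ^ 2 * ‖ft ρ (ν / μ * ξ)‖ ^ 2) μ (hM μ hμ)]
    refine sum_congr rfl fun ξ _ => ?_
    rw [show ν / μ * (μ * ξ) = ν * ξ by rw [← mul_assoc, div_mul_cancel₀ _ (hM μ hμ)]]
  rw [sum_congr rfl fun μ hμ => sum_congr rfl fun ν hν => (h2 μ hμ ν hν).symm]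
  have h3 : ∑ μ ∈ M, ∑ ν ∈ M, ∑ ξ, ‖ft ρ (μ * ξ)‖ ^ 2 * ‖ft ρ (ν * ξ)‖ ^ 2 =
      ∑ ξ, (∑ μ ∈ M, ‖ft ρ (μ * ξ)‖ ^ 2) ^ 2 := by
    rw [sum_congr rfl fun μ _ => sum_comm, sum_comm]
    refine sum_congr rfl fun ξ _ => ?_
    rw [sq, sum_mul_sum]
  rw [h3]
  refine sum_le_sum fun ξ _ => ?_
  have h4 : ‖ft ρ ξ‖ ^ 2 ≤ 1 := pow_le_one₀ (norm_nonneg _) (ft_le ρ h0 h1 _)
  calc ‖ft ρ ξ‖ ^ 2 * (∑ μ ∈ M, ‖ft ρ (μ * ξ)‖ ^ 2) ^ 2 ≤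
        1 * (∑ μ ∈ M, ‖ft ρ (μ * ξ)‖ ^ 2) ^ 2 := mul_le_mul_of_nonneg_right h4 (by positivity)
    _ = _ := one_mul _

/-- closure under differences -/
theorem closeD (ρ : ZMod p → ℝ) (h0 : ∀ x, 0 ≤ ρ x) (h1 : ∑ x, ρ x = 1) (M : Finset (ZMod p))
    (hMne : M.Nonempty) (K P : ℝ) (hK : 0 < K) (hP0 : 0 < P)
    (hP : P = p * ∑ x, ρ x ^ 2) (h : (M.card : ℝ) * P ≤ K * ∑ μ ∈ M, J ρ μ) :
    (M.card : ℝ) ^ 2 * P ≤ K ^ 4 * ∑ μ ∈ M, ∑ ν ∈ M, J ρ (μ - ν) := by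
  have hMc : (0 : ℝ) < M.card := by exact_mod_cast hMne.card_pos
  have a1 := close0 ρ M K P hK hP0 hP h
  set W := ∑ ξ, ‖ft ρ ξ‖ ^ 2 * ∑ μ ∈ M, ∑ ν ∈ M, ‖ft ρ ((μ - ν) * ξ)‖ with hW
  have a2 : ∑ ξ, ‖ft ρ ξ‖ ^ 2 * (∑ μ ∈ M, ‖ft ρ (μ * ξ)‖ ^ 2) ^ 2 ≤ W := by
    refine sum_le_sum fun ξ _ => mul_le_mul_of_nonneg_left ?_ (by positivity)
    refine le_trans (pow_le_pow_left₀ (sum_nonneg fun μ _ => by positivity) ?_ 2)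
      (key ρ h0 h1 M ξ)
    refine sum_le_sum fun μ _ => ?_
    have h4 := ft_le ρ h0 h1 (μ * ξ)
    have h5 := norm_nonneg (ft ρ (μ * ξ))
    nlinarith
  have a3 : W ^ 2 ≤ ((M.card : ℝ) ^ 2 * P) * ∑ μ ∈ M, ∑ ν ∈ M, J ρ (μ - ν) := by
    have h2 := wcs ((univ : Finset (ZMod p)) ×ˢ (M ×ˢ M)) (fun q => ‖ft ρ q.1‖ ^ 2)
      (fun q => ‖ft ρ ((q.2.1 - q.2.2) * q.1)‖) fun ξ _ => by positivity
    have e1 : ∑ q ∈ (univ : Finset (ZMod p)) ×ˢ (M ×ˢ M),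
        ‖ft ρ q.1‖ ^ 2 * ‖ft ρ ((q.2.1 - q.2.2) * q.1)‖ = W := by
      rw [Finset.sum_product, hW]
      refine sum_congr rfl fun ξ _ => ?_
      rw [Finset.sum_product, mul_sum]
      exact sum_congr rfl fun μ _ => by rw [mul_sum]
    have e2 : ∑ q ∈ (univ : Finset (ZMod p)) ×ˢ (M ×ˢ M), ‖ft ρ q.1‖ ^ 2 =
        (M.card : ℝ) ^ 2 * P := by
      rw [Finset.sum_product]
      simp only [sum_const, nsmul_eq_mul, card_product]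
      rw [← mul_sum, parseval, ← hP]
      push_cast
      ring
    have e3 : ∑ q ∈ (univ : Finset (ZMod p)) ×ˢ (M ×ˢ M),
        ‖ft ρ q.1‖ ^ 2 * ‖ft ρ ((q.2.1 - q.2.2) * q.1)‖ ^ 2 =
        ∑ μ ∈ M, ∑ ν ∈ M, J ρ (μ - ν) := by
      rw [Finset.sum_product_right, Finset.sum_product]
      rfl
    rw [e1, e2, e3] at h2
    exact h2
  have a4 : (M.card : ℝ) ^ 2 * P ≤ K ^ 2 * W :=
    a1.trans (mul_le_mul_of_nonneg_left a2 (by positivity))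
  have hA : 0 < (M.card : ℝ) ^ 2 * P := by positivity
  have a5 : ((M.card : ℝ) ^ 2 * P) * ((M.card : ℝ) ^ 2 * P) ≤
      ((M.card : ℝ) ^ 2 * P) * (K ^ 4 * ∑ μ ∈ M, ∑ ν ∈ M, J ρ (μ - ν)) := by
    calc ((M.card : ℝ) ^ 2 * P) * ((M.card : ℝ) ^ 2 * P) ≤ (K ^ 2 * W) * (K ^ 2 * W) :=
          mul_le_mul a4 a4 hA.le (hA.le.trans a4)
      _ = K ^ 4 * W ^ 2 := by ring
      _ ≤ K ^ 4 * (((M.card : ℝ) ^ 2 * P) * ∑ μ ∈ M, ∑ ν ∈ M, J ρ (μ - ν)) :=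
          mul_le_mul_of_nonneg_left a3 (by positivity)
      _ = _ := by ring
  exact le_of_mul_le_mul_left a5 hA

/-- the total energy -/
theorem sum_J_le (ρ : ZMod p → ℝ) (h1 : ∑ x, ρ x = 1) (P : ℝ) (hP : P = p * ∑ x, ρ x ^ 2) :
    ∑ μ ∈ univ.erase (0 : ZMod p), J ρ μ ≤ p + P ^ 2 := by
  unfold J
  rw [sum_comm, ← add_sum_erase univ _ (mem_univ (0 : ZMod p))]
  refine add_le_add ?_ ?_
  · simp only [mul_zero, ft_zero ρ h1, norm_one, one_pow, mul_one, sum_const, nsmul_eq_mul]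
    have : (univ.erase (0 : ZMod p)).card ≤ p := by
      refine (card_le_card (erase_subset _ _)).trans ?_
      rw [card_univ, ZMod.card]
    exact_mod_cast this
  · have h2 : ∀ ξ ∈ univ.erase (0 : ZMod p), ∑ μ ∈ univ.erase (0 : ZMod p),
        ‖ft ρ ξ‖ ^ 2 * ‖ft ρ (μ * ξ)‖ ^ 2 ≤ ‖ft ρ ξ‖ ^ 2 * P := by
      intro ξ hξ
      rw [← mul_sum]
      refine mul_le_mul_of_nonneg_left ?_ (by positivity)
      rw [hP, ← parseval, ← sum_dil (fun η => ‖ft ρ η‖ ^ 2) ξ (mem_erase.1 hξ).1]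
      refine (sum_le_sum_of_subset_of_nonneg (erase_subset _ _)
        fun _ _ _ => by positivity).trans (le_of_eq ?_)
      exact sum_congr rfl fun μ _ => by rw [mul_comm]
    refine (sum_le_sum h2).trans ?_
    rw [← sum_mul, sq]
    refine mul_le_mul_of_nonneg_right ?_ (by rw [hP]; positivity)
    rw [hP, ← parseval]
    exact sum_le_sum_of_subset_of_nonneg (erase_subset _ _) fun _ _ _ => by positivity

/-- Cauchy–Schwarz over fibres -/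
theorem fiber_cs {α β : Type*} [DecidableEq α] [DecidableEq β] (S : Finset α) (U : Finset β)
    (f : α → β) :
    (S.filter fun s => f s ∈ U).card ^ 2 ≤
      U.card * ((S ×ˢ S).filter fun s => f s.1 = f s.2).card := by
  have h1 : (S.filter fun s => f s ∈ U).card = ∑ u ∈ U, (S.filter fun s => f s = u).card := by
    rw [sum_card_fiberwise_eq_card_filter]
  have h2 : ∑ u ∈ U, (S.filter fun s => f s = u).card ^ 2 ≤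
      ((S ×ˢ S).filter fun s => f s.1 = f s.2).card := by
    have h3 : ∀ u ∈ U, (S.filter fun s => f s = u).card ^ 2 =
        (((S ×ˢ S).filter fun s => f s.1 = f s.2).filter fun s => f s.1 = u).card := by
      intro u _
      rw [sq, ← card_product]
      congr 1
      ext ⟨a, b⟩
      simp only [mem_product, mem_filter]
      constructor
      · rintro ⟨⟨h1, h2⟩, h3, h4⟩
        exact ⟨⟨⟨h1, h3⟩, h2.trans h4.symm⟩, h2⟩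
      · rintro ⟨⟨⟨h1, h3⟩, h2⟩, h4⟩
        exact ⟨⟨h1, h4⟩, h3, h2 ▸ h4⟩
    rw [sum_congr rfl h3, sum_card_fiberwise_eq_card_filter]
    exact card_le_card (filter_subset _ _)
  rw [h1]
  exact (sq_sum_le_card_mul_sum_sq).trans (Nat.mul_le_mul_left _ h2)

end Pool.Agent.Y881.SP
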