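import Pool.Agent.Y881.SP.Aff
import Pool.Agent.Y881.SP.Count

set_option autoImplicit false

/-! # Few solutions of `(a + s) / d i ∈ Z` with `a` in a set which depends on `i` -/

open Finset

namespace Pool.Agent.Y881.SP

open Classical in
/-- the proportion of the elements `a` of `A` with `(a + s) / d ∈ Z` -/
noncomputable def prop {p : ℕ} [Fact p.Prime] (A Z : Finset (ZMod p)) (d s : ZMod p) : ℝ :=
  ((A.filter fun a => (a + s) / d ∈ Z).card : ℝ) / A.card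

theorem cg_num1 (s i Q WS WY θ : ℝ) {y : ℝ} (hi : 0 < i) (hQ : 0 < Q) (hθ : θ = i / (2 * Q))
    (hE : s * i ≤ Q * WS) (hY : WS - θ * s ≤ WY - θ * y) (h2 : WY ≤ y * i) (hy : 0 ≤ y) :
    s ≤ 2 * Q * y := by
  have hθ0 : 0 < θ := by rw [hθ]; positivity
  have h1 : θ * (2 * Q) = i := by rw [hθ]; field_simp
  have h7 : 0 ≤ θ * y := by positivity
  have h3 : s * i ≤ Q * (y * i + θ * s) := by
    refine hE.trans (mul_le_mul_of_nonneg_left ?_ hQ.le)
    linarith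
  have h4 : s * i ≤ (2 * Q * y) * i := by
    have e : Q * (y * i + θ * s) = Q * y * i + s * (θ * (2 * Q)) / 2 := by ring
    rw [e, h1] at h3
    linarith
  exact le_of_mul_le_mul_right h4 hi

theorem cg_num4 (s i q W X z : ℝ) (hs : 0 < s) (hi : 0 < i) (hq : 0 < q) (hW : 0 ≤ W)
    (hz : z ≤ q * s) (h1 : s * i ≤ q ^ 2 * X) (h3 : X ^ 2 ≤ z * W) :
    s * i ^ 2 ≤ q ^ 5 * W := by
  have h5 : s * (s * i ^ 2) ≤ s * (q ^ 5 * W) := by
    calc s * (s * i ^ 2) = (s * i) ^ 2 := by ring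
      _ ≤ (q ^ 2 * X) ^ 2 := pow_le_pow_left₀ (by positivity) h1 2
      _ = q ^ 4 * X ^ 2 := by ring
      _ ≤ q ^ 4 * (z * W) := mul_le_mul_of_nonneg_left h3 (by positivity)
      _ ≤ q ^ 4 * ((q * s) * W) :=
          mul_le_mul_of_nonneg_left (mul_le_mul_of_nonneg_right hz hW) (by positivity)
      _ = _ := by ring
  exact le_of_mul_le_mul_left h5 hs

theorem cg_num2 (i Q θ n : ℝ) (hi : 0 < i) (hQ : 0 < Q) (hθ : θ = i / (2 * Q))
    (h3 : θ ≤ 2 * (n * i)) : 1 ≤ 4 * Q * n := by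
  rw [hθ, div_le_iff₀ (by positivity)] at h3
  have h5 : 1 * i ≤ (4 * Q * n) * i := by
    rw [one_mul]
    refine h3.trans (le_of_eq ?_)
    ring
  exact le_of_mul_le_mul_right h5 hi

theorem cg_num3 (i Q θ n : ℝ) (hQ : 0 < Q) (hθ : θ = i / (2 * Q)) (h3 : θ ≤ 2 * n) :
    i ≤ 4 * Q * n := by
  rw [hθ, div_le_iff₀ (by positivity)] at h3
  refine h3.trans (le_of_eq ?_)
  ring

section
variable {p : ℕ} [Fact p.Prime]

theorem prop_nonneg (A Z : Finset (ZMod p)) (d s : ZMod p) : 0 ≤ prop A Z d s := by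
  unfold prop
  positivity

theorem prop_le (A Z : Finset (ZMod p)) (d s : ZMod p) : prop A Z d s ≤ 1 := by
  classical
  unfold prop
  refine div_le_one_of_le₀ ?_ (Nat.cast_nonneg _)
  exact_mod_cast card_filter_le _ _

open Classical in
/-- choice of one shift for every index -/
theorem choose_shift {ι : Type} (I : Finset ι) (d : ι → ZMod p) (A : ι → Finset (ZMod p))
    (hA : ∀ i ∈ I, (A i).Nonempty) (S Z : Finset (ZMod p)) (q : ℝ) (hq : 0 < q)
    (hI : I.Nonempty) (h : (S.card : ℝ) * I.card ≤ q * ∑ i ∈ I, ∑ s ∈ S, prop (A i) Z (d i) s) :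
    ∃ i₀ ∈ I, ∃ g : ι → ZMod p, (S.card : ℝ) * I.card ≤
      q ^ 2 * ∑ s ∈ S, prop (A i₀) Z (d i₀) s *
        ((I.filter fun i => (g i + s) / d i ∈ Z).card : ℝ) := by
  have hIc : (0 : ℝ) < I.card := by exact_mod_cast hI.card_pos
  set N : ι → ZMod p → ℝ := fun i s => prop (A i) Z (d i) s with hN
  rcases S.eq_empty_or_nonempty with hS | hS
  · obtain ⟨i₀, hi₀⟩ := hI
    refine ⟨i₀, hi₀, fun _ => 0, ?_⟩
    rw [hS]
    simp
  have hSc : (0 : ℝ) < S.card := by exact_mod_cast hS.card_pos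
  set F : ZMod p → ℝ := fun s => ∑ i ∈ I, N i s with hF
  have h1 : (S.card : ℝ) * I.card ≤ q * ∑ s ∈ S, F s := by
    rw [hF, sum_comm]
    exact h
  have h2 : (∑ s ∈ S, F s) ^ 2 ≤ S.card * ∑ s ∈ S, F s ^ 2 := sq_sum_le_card_mul_sum_sq
  have h3 : (S.card : ℝ) * (I.card : ℝ) ^ 2 ≤ q ^ 2 * ∑ s ∈ S, F s ^ 2 := by
    have h4 : (S.card : ℝ) * ((S.card : ℝ) * (I.card : ℝ) ^ 2) ≤
        S.card * (q ^ 2 * ∑ s ∈ S, F s ^ 2) := by
      calc (S.card : ℝ) * ((S.card : ℝ) * (I.card : ℝ) ^ 2) = (S.card * I.card) ^ 2 := by ring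
        _ ≤ (q * ∑ s ∈ S, F s) ^ 2 := pow_le_pow_left₀ (by positivity) h1 2
        _ = q ^ 2 * (∑ s ∈ S, F s) ^ 2 := by ring
        _ ≤ q ^ 2 * (S.card * ∑ s ∈ S, F s ^ 2) := mul_le_mul_of_nonneg_left h2 (by positivity)
        _ = _ := by ring
    exact le_of_mul_le_mul_left h4 hSc
  have h5 : ∑ s ∈ S, F s ^ 2 = ∑ i ∈ I, ∑ s ∈ S, N i s * F s := by
    rw [sum_comm]
    refine sum_congr rfl fun s _ => ?_
    rw [← sum_mul, sq]
  obtain ⟨i₀, hi₀, hmax⟩ := exists_max_image I (fun i => ∑ s ∈ S, N i s * F s) hI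
  have h6 : ∑ i ∈ I, ∑ s ∈ S, N i s * F s ≤ I.card * ∑ s ∈ S, N i₀ s * F s := by
    rw [← nsmul_eq_mul]
    exact sum_le_card_nsmul _ _ _ hmax
  have h7 : (S.card : ℝ) * I.card ≤ q ^ 2 * ∑ s ∈ S, N i₀ s * F s := by
    have h8 : (I.card : ℝ) * ((S.card : ℝ) * I.card) ≤ I.card * (q ^ 2 * ∑ s ∈ S, N i₀ s * F s) := by
      calc (I.card : ℝ) * ((S.card : ℝ) * I.card) = S.card * (I.card : ℝ) ^ 2 := by ring
        _ ≤ q ^ 2 * ∑ s ∈ S, F s ^ 2 := h3
        _ ≤ q ^ 2 * (I.card * ∑ s ∈ S, N i₀ s * F s) := by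
            rw [h5]
            exact mul_le_mul_of_nonneg_left h6 (by positivity)
        _ = _ := by ring
    exact le_of_mul_le_mul_left h8 hIc
  -- the shifts
  have h8 : ∀ i ∈ I, ∃ a : ZMod p, ∑ s ∈ S, N i₀ s * N i s ≤
      ∑ s ∈ S, N i₀ s * (if (a + s) / d i ∈ Z then (1 : ℝ) else 0) := by
    intro i hi
    obtain ⟨a, ha, hmax⟩ := exists_max_image (A i)
      (fun a => ∑ s ∈ S, N i₀ s * (if (a + s) / d i ∈ Z then (1 : ℝ) else 0)) (hA i hi)
    refine ⟨a, ?_⟩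
    have hAc : (0 : ℝ) < (A i).card := by exact_mod_cast (hA i hi).card_pos
    have h9 : (A i).card * ∑ s ∈ S, N i₀ s * N i s =
        ∑ a ∈ A i, ∑ s ∈ S, N i₀ s * (if (a + s) / d i ∈ Z then (1 : ℝ) else 0) := by
      rw [sum_comm, mul_sum]
      refine sum_congr rfl fun s _ => ?_
      rw [← mul_sum, ← sum_filter, sum_const, nsmul_eq_mul, mul_one]
      simp only [hN, prop]
      field_simp
    have h10 : ∑ a ∈ A i, ∑ s ∈ S, N i₀ s * (if (a + s) / d i ∈ Z then (1 : ℝ) else 0) ≤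
        (A i).card * ∑ s ∈ S, N i₀ s * (if (a + s) / d i ∈ Z then (1 : ℝ) else 0) := by
      rw [← nsmul_eq_mul]
      exact sum_le_card_nsmul _ _ _ hmax
    rw [← h9] at h10
    exact le_of_mul_le_mul_left h10 hAc
  have h9 : ∃ g : ι → ZMod p, ∀ i ∈ I, ∑ s ∈ S, N i₀ s * N i s ≤
      ∑ s ∈ S, N i₀ s * (if (g i + s) / d i ∈ Z then (1 : ℝ) else 0) := by
    have h10 : ∀ i, ∃ a : ZMod p, i ∈ I → ∑ s ∈ S, N i₀ s * N i s ≤
        ∑ s ∈ S, N i₀ s * (if (a + s) / d i ∈ Z then (1 : ℝ) else 0) := by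
      intro i
      by_cases hi : i ∈ I
      · obtain ⟨a, ha⟩ := h8 i hi
        exact ⟨a, fun _ => ha⟩
      · exact ⟨0, fun h => absurd h hi⟩
    choose g hg using h10
    exact ⟨g, hg⟩
  obtain ⟨g, hg⟩ := h9
  refine ⟨i₀, hi₀, g, h7.trans (mul_le_mul_of_nonneg_left ?_ (by positivity))⟩
  have h10 : ∑ s ∈ S, N i₀ s * F s = ∑ i ∈ I, ∑ s ∈ S, N i₀ s * N i s := by
    rw [sum_comm]
    exact sum_congr rfl fun s _ => mul_sum _ _ _
  rw [h10]
  refine (sum_le_sum hg).trans (le_of_eq ?_)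
  rw [sum_comm]
  refine sum_congr rfl fun s _ => ?_
  rw [← mul_sum, ← sum_filter, sum_const, nsmul_eq_mul, mul_one]

open Classical in
/-- the total weight of the pairs with a common value -/
theorem total_weight {ι : Type} (I : Finset ι) (d g : ι → ZMod p) (hd0 : ∀ i ∈ I, d i ≠ 0)
    (S Z : Finset (ZMod p)) (N : ZMod p → ℝ) (hN0 : ∀ s, 0 ≤ N s) :
    (∑ s ∈ S, N s * ((I.filter fun i => (g i + s) / d i ∈ Z).card : ℝ)) ^ 2 ≤
      Z.card * ∑ x ∈ S, ∑ y ∈ S, N x * N y *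
        (((I ×ˢ I).filter fun r => d r.2 * ((g r.1 + x) / d r.1) - g r.2 = y).card : ℝ) := by
  set M : ZMod p → ZMod p → ℝ := fun z s =>
    ((I.filter fun i => (g i + s) / d i = z).card : ℝ) with hM
  have hMZ : ∀ s, ((I.filter fun i => (g i + s) / d i ∈ Z).card : ℝ) = ∑ z ∈ Z, M z s := by
    intro s
    simp only [hM]
    rw [← Nat.cast_sum, sum_card_fiberwise_eq_card_filter]
  have h2 : ∑ s ∈ S, N s * ((I.filter fun i => (g i + s) / d i ∈ Z).card : ℝ) =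
      ∑ z ∈ Z, ∑ s ∈ S, N s * M z s := by
    rw [sum_comm]
    refine sum_congr rfl fun s _ => ?_
    rw [hMZ, mul_sum]
  have h3 : (∑ z ∈ Z, ∑ s ∈ S, N s * M z s) ^ 2 ≤
      Z.card * ∑ z ∈ Z, (∑ s ∈ S, N s * M z s) ^ 2 := sq_sum_le_card_mul_sum_sq
  rw [h2]
  refine h3.trans (mul_le_mul_of_nonneg_left ?_ (Nat.cast_nonneg _))
  have h5 : ∑ z ∈ Z, (∑ s ∈ S, N s * M z s) ^ 2 =
      ∑ x ∈ S, ∑ y ∈ S, N x * N y * ∑ z ∈ Z, M z x * M z y := by
    have h6 : ∀ z, (∑ s ∈ S, N s * M z s) ^ 2 =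
        ∑ x ∈ S, ∑ y ∈ S, N x * N y * (M z x * M z y) := by
      intro z
      rw [sq, sum_mul_sum]
      refine sum_congr rfl fun x _ => sum_congr rfl fun y _ => ?_
      ring
    rw [sum_congr rfl fun z _ => h6 z, sum_comm]
    refine sum_congr rfl fun x _ => ?_
    rw [sum_comm]
    refine sum_congr rfl fun y _ => ?_
    rw [mul_sum]
  rw [h5]
  refine sum_le_sum fun x _ => sum_le_sum fun y _ => ?_
  refine mul_le_mul_of_nonneg_left ?_ (mul_nonneg (hN0 _) (hN0 _))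
  have h6 : ∑ z ∈ Z, M z x * M z y =
      ∑ z ∈ Z, (((I ×ˢ I).filter fun r =>
        (g r.1 + x) / d r.1 = z ∧ (g r.2 + y) / d r.2 = z).card : ℝ) := by
    refine sum_congr rfl fun z _ => ?_
    simp only [hM]
    rw [← Nat.cast_mul, ← card_product]
    congr 2
    ext r
    simp only [mem_product, mem_filter]
    tauto
  rw [h6, ← Nat.cast_sum]
  have h7 : ∑ z ∈ Z, ((I ×ˢ I).filter fun r =>
        (g r.1 + x) / d r.1 = z ∧ (g r.2 + y) / d r.2 = z).card ≤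
      ((I ×ˢ I).filter fun r => d r.2 * ((g r.1 + x) / d r.1) - g r.2 = y).card := by
    rw [← card_biUnion]
    · refine card_le_card fun r hr => ?_
      obtain ⟨z, -, hz⟩ := mem_biUnion.1 hr
      obtain ⟨hr1, hz1, hz2⟩ := mem_filter.1 hz
      have hr1' := mem_product.1 hr1
      have n2 := hd0 _ hr1'.2
      refine mem_filter.2 ⟨hr1, ?_⟩
      rw [hz1, ← hz2]
      field_simp
      ring
    · intro z _ z' _ hzz
      rw [Function.onFun, disjoint_left]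
      intro r hr hr'
      obtain ⟨-, hz1, -⟩ := mem_filter.1 hr
      obtain ⟨-, hz1', -⟩ := mem_filter.1 hr'
      exact hzz (hz1.symm.trans hz1')
  exact_mod_cast h7

theorem prop_mul (A Z : Finset (ZMod p)) (hA : A.Nonempty) (d s : ZMod p) :
    prop A Z d s * A.card =
      ((A.filter fun a => (a + s) / d ∈ Z).card : ℝ) := by
  have hc : (A.card : ℝ) ≠ 0 := by exact_mod_cast hA.card_pos.ne'
  unfold prop
  rw [div_mul_cancel₀ _ hc]

open Classical in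
theorem prune_step {ι : Type} (I : Finset ι) (hI : I.Nonempty) (d g : ι → ZMod p)
    (hd0 : ∀ i ∈ I, d i ≠ 0) (S Z : Finset (ZMod p)) (hS : S.Nonempty) (N : ZMod p → ℝ)
    (hN0 : ∀ s, 0 ≤ N s) (hN1 : ∀ s, N s ≤ 1) (q : ℝ) (hq0 : 0 < q)
    (hZ : (Z.card : ℝ) ≤ q * S.card)
    (h1 : (S.card : ℝ) * I.card ≤
      q ^ 2 * ∑ s ∈ S, N s * ((I.filter fun i => (g i + s) / d i ∈ Z).card : ℝ)) :
    ∃ Y ⊆ S, (S.card : ℝ) ≤ 2 * q ^ 5 * Y.card ∧ ∀ y ∈ Y, 1 ≤ 4 * q ^ 5 * N y ∧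
      (I.card : ℝ) ^ 2 ≤ 4 * q ^ 5 *
        (((I ×ˢ I).filter fun r => d r.2 * ((g r.1 + y) / d r.1) - g r.2 ∈ Y).card : ℝ) := by
  have hSc : (0 : ℝ) < S.card := by exact_mod_cast hS.card_pos
  have hIc : (0 : ℝ) < I.card := by exact_mod_cast hI.card_pos
  -- the weights
  obtain ⟨c2, hc2⟩ : ∃ c2 : ZMod p → ZMod p → ℝ, ∀ x y, c2 x y =
    (((I ×ˢ I).filter fun r => d r.2 * ((g r.1 + x) / d r.1) - g r.2 = y).card : ℝ) :=
      ⟨_, fun _ _ => rfl⟩
  obtain ⟨F, hF⟩ : ∃ F : Finset (ZMod p) → ZMod p → ℝ, ∀ Y x, F Y x =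
    (((I ×ˢ I).filter fun r => d r.2 * ((g r.1 + x) / d r.1) - g r.2 ∈ Y).card : ℝ) :=
      ⟨_, fun _ _ => rfl⟩
  have hF0 : ∀ Y x, 0 ≤ F Y x := fun Y x => by rw [hF]; positivity
  have hc20 : ∀ x y, 0 ≤ c2 x y := fun x y => by rw [hc2]; positivity
  have hc2s : ∀ x y, c2 x y = c2 y x := by
    have hle : ∀ x y, c2 x y ≤ c2 y x := by
      intro x y
      rw [hc2, hc2]
      have h2 : ((I ×ˢ I).filter fun r => d r.2 * ((g r.1 + x) / d r.1) - g r.2 = y).card ≤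
          ((I ×ˢ I).filter fun r => d r.2 * ((g r.1 + y) / d r.1) - g r.2 = x).card := by
        refine card_le_card_of_injOn Prod.swap ?_ (Prod.swap_injective.injOn)
        intro r hr
        obtain ⟨hr1, hr2⟩ := mem_filter.1 hr
        rw [mem_product] at hr1
        have n1 := hd0 _ hr1.1
        have n2 := hd0 _ hr1.2
        refine mem_coe.2 (mem_filter.2 ⟨mem_product.2 ⟨hr1.2, hr1.1⟩, ?_⟩)
        simp only [Prod.fst_swap, Prod.snd_swap]
        rw [← hr2]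
        field_simp
        ring
      exact_mod_cast h2
    exact fun x y => le_antisymm (hle x y) (hle y x)
  have hc2Y : ∀ (Y : Finset (ZMod p)) x, ∑ y ∈ Y, c2 x y = F Y x := by
    intro Y x
    rw [hF, sum_congr rfl fun y _ => hc2 x y]
    rw [← Nat.cast_sum, sum_card_fiberwise_eq_card_filter]
  obtain ⟨w, hw⟩ : ∃ w : ZMod p → ZMod p → ℝ, ∀ x y, w x y = N x * N y * c2 x y :=
    ⟨_, fun _ _ => rfl⟩
  have hw0 : ∀ x y, 0 ≤ w x y := fun x y => by
    rw [hw]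
    exact mul_nonneg (mul_nonneg (hN0 _) (hN0 _)) (hc20 _ _)
  have hws : ∀ x y, w x y = w y x := fun x y => by
    rw [hw, hw, hc2s x y, mul_comm (N x)]
  -- the total weight
  have hE : (S.card : ℝ) * (I.card : ℝ) ^ 2 ≤ q ^ 5 * ∑ x ∈ S, ∑ y ∈ S, w x y := by
    have h3 := total_weight I d g hd0 S Z N hN0
    have e1 : ∑ x ∈ S, ∑ y ∈ S, N x * N y *
        (((I ×ˢ I).filter fun r => d r.2 * ((g r.1 + x) / d r.1) - g r.2 = y).card : ℝ) =
        ∑ x ∈ S, ∑ y ∈ S, w x y :=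
      sum_congr rfl fun x _ => sum_congr rfl fun y _ => by rw [hw, hc2]
    rw [e1] at h3
    have hE0 : 0 ≤ ∑ x ∈ S, ∑ y ∈ S, w x y :=
      sum_nonneg fun x _ => sum_nonneg fun y _ => hw0 x y
    exact cg_num4 _ _ _ _ _ _ hSc hIc hq0 hE0 hZ h1 h3
  -- row sums
  have hrow : ∀ (Y : Finset (ZMod p)) x, ∑ y ∈ Y, w x y ≤ N x * F Y x := by
    intro Y x
    rw [← hc2Y Y x, mul_sum]
    refine sum_le_sum fun y _ => ?_
    rw [hw]
    refine mul_le_mul_of_nonneg_right ?_ (hc20 _ _)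
    exact mul_le_of_le_one_right (hN0 x) (hN1 y)
  have hfilt : ∀ (Y : Finset (ZMod p)) x, F Y x ≤ (I.card : ℝ) ^ 2 := by
    intro Y x
    have h3 := card_filter_le (I ×ˢ I) (fun r => d r.2 * ((g r.1 + x) / d r.1) - g r.2 ∈ Y)
    rw [card_product] at h3
    have h4 : (((I ×ˢ I).filter fun r => d r.2 * ((g r.1 + x) / d r.1) - g r.2 ∈ Y).card : ℝ) ≤
        ((I.card * I.card : ℕ) : ℝ) := by exact_mod_cast h3
    push_cast at h4
    rw [sq, hF]
    exact h4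
  -- pruning
  obtain ⟨Q, hQ⟩ : ∃ Q : ℝ, Q = q ^ 5 := ⟨_, rfl⟩
  have hQ0 : 0 < Q := by rw [hQ]; positivity
  obtain ⟨i2, hi2⟩ : ∃ i2 : ℝ, i2 = (I.card : ℝ) ^ 2 := ⟨_, rfl⟩
  have hi20 : 0 < i2 := by rw [hi2]; positivity
  obtain ⟨θ, hθ⟩ : ∃ θ : ℝ, θ = i2 / (2 * Q) := ⟨_, rfl⟩
  obtain ⟨Y, hYS, hY1, hY2⟩ := prune S w hw0 hws θ
  rw [← hQ, ← hi2] at hE
  have hYbig : (S.card : ℝ) ≤ 2 * Q * Y.card := by
    have h2 : ∑ x ∈ Y, ∑ y ∈ Y, w x y ≤ Y.card * i2 := by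
      rw [← nsmul_eq_mul]
      refine sum_le_card_nsmul _ _ _ fun x _ => ?_
      refine (hrow Y x).trans ?_
      calc N x * F Y x ≤ 1 * (I.card : ℝ) ^ 2 :=
            mul_le_mul (hN1 x) (hfilt Y x) (hF0 Y x) zero_le_one
        _ = _ := by rw [one_mul, hi2]
    exact cg_num1 _ _ _ _ _ _ hi20 hQ0 hθ hE hY1 h2 (Nat.cast_nonneg _)
  refine ⟨Y, hYS, by rw [← hQ]; exact hYbig, fun y hy => ?_⟩
  have h2 := (hY2 y hy).trans (mul_le_mul_of_nonneg_left (hrow Y y) zero_le_two)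
  rw [← hQ, ← hF Y y, ← hi2]
  constructor
  · have h3 : θ ≤ 2 * (N y * i2) :=
      h2.trans (mul_le_mul_of_nonneg_left (mul_le_mul_of_nonneg_left
        (by rw [hi2]; exact hfilt Y y) (hN0 y)) zero_le_two)
    exact cg_num2 _ _ _ _ hi20 hQ0 hθ h3
  · have h3 : θ ≤ 2 * F Y y :=
      h2.trans (mul_le_mul_of_nonneg_left (mul_le_of_le_one_left (hF0 Y y) (hN1 y)) zero_le_two)
    exact cg_num3 _ _ _ _ hQ0 hθ h3

end

open Classical in
/-- **the general count** -/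
theorem count_gen (ε : ℝ) (hε : 0 < ε) : ∃ c : ℝ, 0 < c ∧ ∃ p₀ : ℕ, ∀ (p : ℕ) [Fact p.Prime],
    p₀ ≤ p → ∀ {ι : Type} (I : Finset ι) (d : ι → ZMod p) (A : ι → Finset (ZMod p))
      (S Z : Finset (ZMod p)), (∀ i ∈ I, d i ≠ 0) →
      (∀ x, ((I.filter fun i => d i = x).card : ℝ) ≤ (p : ℝ) ^ (-ε) * I.card) →
      (∀ i ∈ I, (p : ℝ) ^ ε ≤ (A i).card) → (S.card : ℝ) ≤ (p : ℝ) ^ (1 - ε) →
      (Z.card : ℝ) ≤ (p : ℝ) ^ c * S.card →
      ∑ i ∈ I, ∑ s ∈ S, prop (A i) Z (d i) s ≤ (p : ℝ) ^ (-c) * (S.card * I.card) := by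
  obtain ⟨k, hk, p₁, hno⟩ := no_inv_aff ε hε
  obtain ⟨c, hc⟩ : ∃ c : ℝ, c = k / 8 := ⟨_, rfl⟩
  have hc0 : 0 < c := by rw [hc]; positivity
  obtain ⟨p₂, hp₂2, hp₂⟩ := Pool.Agent.H435R3.Paley.exists_large 4 c hc0
  refine ⟨c, hc0, p₁ + p₂, fun p _ hp ι I d A S Z hd0 hdc hA hS hZ => ?_⟩
  by_contra hcon
  have hcon := not_le.1 hcon
  have hp2 : (2 : ℝ) ≤ p := by exact_mod_cast (Fact.out : p.Prime).two_le
  have hp0 : (0 : ℝ) < p := by linarith
  have hIne : I.Nonempty := by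
    by_contra h
    rw [not_nonempty_iff_eq_empty] at h
    rw [h] at hcon
    simp at hcon
  have hSne : S.Nonempty := by
    by_contra h
    rw [not_nonempty_iff_eq_empty] at h
    rw [h] at hcon
    simp at hcon
  have hAne : ∀ i ∈ I, (A i).Nonempty := by
    intro i hi
    have h1 := hA i hi
    rw [← card_pos]
    have h2 : (0 : ℝ) < (A i).card := lt_of_lt_of_le (by positivity) h1
    exact_mod_cast h2
  have hq4 : 4 ≤ (p : ℝ) ^ c := hp₂ p (by omega)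
  have hq8 : (p : ℝ) ^ k = ((p : ℝ) ^ c) ^ 8 := by
    rw [← Real.rpow_natCast, ← Real.rpow_mul hp0.le, hc]
    congr 1
    push_cast
    ring
  have hqi : (p : ℝ) ^ (-c) = ((p : ℝ) ^ c)⁻¹ := Real.rpow_neg hp0.le c
  rw [hqi] at hcon
  have hno := hno p (by omega) I d
  rw [hq8] at hno
  generalize (p : ℝ) ^ c = q at hq4 hno hcon hZ
  have hq0 : 0 < q := by linarith
  have hq1 : 1 ≤ q := by linarith
  obtain ⟨i₀, hi₀, g, h1⟩ := choose_shift I d A hAne S Z q hq0 hIne (by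
    have h2 := mul_le_mul_of_nonneg_left hcon.le hq0.le
    calc (S.card : ℝ) * I.card = q * (q⁻¹ * (S.card * I.card)) := by
          field_simp
      _ ≤ _ := h2)
  obtain ⟨Y, hYS, hYbig, hY2⟩ := prune_step I hIne d g hd0 S Z hSne
    (fun s => prop (A i₀) Z (d i₀) s) (fun s => prop_nonneg _ _ _ _) (fun s => prop_le _ _ _ _)
    q hq0 hZ h1
  have hSc : (0 : ℝ) < S.card := by exact_mod_cast hSne.card_pos
  have hYc0 : (0 : ℝ) < Y.card := by
    by_contra h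
    have h2 : (Y.card : ℝ) = 0 := le_antisymm (not_lt.1 h) (Nat.cast_nonneg _)
    rw [h2, mul_zero] at hYbig
    linarith
  have hYne : Y.Nonempty := by rw [← card_pos]; exact_mod_cast hYc0
  have h4q : 4 * q ^ 5 ≤ q ^ 8 := by
    have h2 : q ^ 6 ≤ q ^ 8 := pow_le_pow_right₀ hq1 (by norm_num)
    calc 4 * q ^ 5 ≤ q * q ^ 5 := mul_le_mul_of_nonneg_right hq4 (by positivity)
      _ = q ^ 6 := by ring
      _ ≤ q ^ 8 := h2
  have hd := hd0 i₀ hi₀
  have hAi := hA i₀ hi₀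
  have hAin := hAne i₀ hi₀
  refine hno g (A i₀) Y (Z.image fun z => d i₀ * z) hIne hd0 hdc hAi hYne ?_ ?_ ?_ ?_
  · have h2 : (Y.card : ℝ) ≤ S.card := by exact_mod_cast card_le_card hYS
    exact h2.trans hS
  · have h2 : ((Z.image fun z => d i₀ * z).card : ℝ) ≤ Z.card := by
      exact_mod_cast card_image_le
    calc ((Z.image fun z => d i₀ * z).card : ℝ) ≤ q * S.card := h2.trans hZ
      _ ≤ q * (2 * q ^ 5 * Y.card) := mul_le_mul_of_nonneg_left hYbig hq0.le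
      _ = 2 * q ^ 6 * Y.card := by ring
      _ ≤ q ^ 8 * Y.card := by
          refine mul_le_mul_of_nonneg_right ?_ hYc0.le
          have h3 : 2 ≤ q ^ 2 := by nlinarith
          calc 2 * q ^ 6 ≤ q ^ 2 * q ^ 6 := mul_le_mul_of_nonneg_right h3 (by positivity)
            _ = _ := by ring
  · intro y hy
    have h4 := (hY2 y hy).1
    have h5 : ((A i₀).filter fun a => (a + y) / d i₀ ∈ Z) =
        (A i₀).filter fun a => y + a ∈ Z.image fun z => d i₀ * z := by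
      refine filter_congr fun a _ => ?_
      rw [mem_image]
      constructor
      · intro hz
        refine ⟨_, hz, ?_⟩
        field_simp
        ring
      · rintro ⟨z, hz, hz2⟩
        have e : (a + y) / d i₀ = z := by
          field_simp
          linear_combination -hz2
        rw [e]
        exact hz
    rw [← h5, ← prop_mul _ _ hAin]
    generalize prop (A i₀) Z (d i₀) y = n at h4 ⊢
    have hc : (0 : ℝ) ≤ (A i₀).card := Nat.cast_nonneg _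
    have hn : 0 ≤ n := by
      by_contra hneg
      have hneg := not_le.1 hneg
      have : 0 < 4 * q ^ 5 := by positivity
      nlinarith
    calc ((A i₀).card : ℝ) = 1 * (A i₀).card := (one_mul _).symm
      _ ≤ (4 * q ^ 5 * n) * (A i₀).card := mul_le_mul_of_nonneg_right h4 hc
      _ ≤ (q ^ 8 * n) * (A i₀).card :=
          mul_le_mul_of_nonneg_right (mul_le_mul_of_nonneg_right h4q hn) hc
      _ = _ := by ring
  · intro y hy
    exact (hY2 y hy).2.trans (mul_le_mul_of_nonneg_right h4q (Nat.cast_nonneg _))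

end Pool.Agent.Y881.SP
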