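import Pool.Agent.Y881.SP.Ruzsa

set_option autoImplicit false

/-! # A sum-product inequality: few differences and large multiplicative energy -/

open Finset
open scoped Pointwise Combinatorics.Additive

namespace Pool.Agent.Y881.SP

variable {p : ℕ} [Fact p.Prime]

/-- the number of solutions of `x + ξ y = x' + ξ y'` -/
def en (X : Finset (ZMod p)) (ξ : ZMod p) : ℕ :=
  (((X ×ˢ X) ×ˢ (X ×ˢ X)).filter fun q => q.1.1 + ξ * q.2.1 = q.1.2 + ξ * q.2.2).card

theorem energy_le_en (X : Finset (ZMod p)) (ξ : ZMod p) (hξ : ξ ≠ 0) :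
    E[X, ξ • X] ≤ en X ξ := by
  unfold Finset.addEnergy en
  refine card_le_card_of_injOn (fun q => (q.1, (ξ⁻¹ * q.2.1, ξ⁻¹ * q.2.2))) ?_ ?_
  · intro q hq
    rw [mem_coe, mem_filter, mem_product, mem_product, mem_product] at hq
    obtain ⟨⟨⟨h1, h2⟩, h3, h4⟩, h5⟩ := hq
    rw [mem_coe, mem_filter, mem_product, mem_product, mem_product]
    obtain ⟨u, hu, hu'⟩ := mem_smul_finset.1 h3
    obtain ⟨v, hv, hv'⟩ := mem_smul_finset.1 h4
    rw [smul_eq_mul] at hu' hv'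
    refine ⟨⟨⟨h1, h2⟩, ?_, ?_⟩, ?_⟩
    · simp only
      rw [← hu', inv_mul_cancel_left₀ hξ]
      exact hu
    · simp only
      rw [← hv', inv_mul_cancel_left₀ hξ]
      exact hv
    · simp only
      rw [mul_inv_cancel_left₀ hξ, mul_inv_cancel_left₀ hξ]
      exact h5
  · intro q _ q' _ h
    simp only [Prod.mk.injEq] at h
    obtain ⟨h1, h2, h3⟩ := h
    have e1 := mul_left_cancel₀ (inv_ne_zero hξ) h2
    have e2 := mul_left_cancel₀ (inv_ne_zero hξ) h3
    exact Prod.ext h1 (Prod.ext e1 e2)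

theorem sum_en_le (X : Finset (ZMod p)) :
    ∑ ξ ∈ univ.erase (0 : ZMod p), en X ξ ≤ X.card ^ 2 * (p - 1) + X.card ^ 4 := by
  classical
  have h1 : ∑ ξ ∈ univ.erase (0 : ZMod p), en X ξ =
      ∑ q ∈ (X ×ˢ X) ×ˢ (X ×ˢ X), ((univ.erase (0 : ZMod p)).filter
        fun ξ => q.1.1 + ξ * q.2.1 = q.1.2 + ξ * q.2.2).card := by
    unfold en
    simp only [card_filter]
    exact sum_comm
  rw [h1]
  have h2 : ∀ q ∈ (X ×ˢ X) ×ˢ (X ×ˢ X), ((univ.erase (0 : ZMod p)).filter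
        fun ξ => q.1.1 + ξ * q.2.1 = q.1.2 + ξ * q.2.2).card ≤
        (if q.1.1 = q.1.2 ∧ q.2.1 = q.2.2 then (p - 1) else 0) + 1 := by
    intro q _
    by_cases h : q.1.1 = q.1.2 ∧ q.2.1 = q.2.2
    · rw [if_pos h]
      have h3 := card_filter_le (univ.erase (0 : ZMod p))
        (fun ξ => q.1.1 + ξ * q.2.1 = q.1.2 + ξ * q.2.2)
      have h4 : (univ.erase (0 : ZMod p)).card = p - 1 := by
        rw [card_erase_of_mem (mem_univ _), card_univ, ZMod.card]
      omega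
    · rw [if_neg h, zero_add]
      rw [card_le_one]
      intro ξ hξ ξ' hξ'
      have e1 := (mem_filter.1 hξ).2
      have e2 := (mem_filter.1 hξ').2
      by_cases hy : q.2.1 = q.2.2
      · exfalso
        apply h
        refine ⟨?_, hy⟩
        rw [hy] at e1
        exact add_right_cancel e1
      · have e3 : (ξ - ξ') * (q.2.1 - q.2.2) = 0 := by linear_combination e1 - e2
        rcases mul_eq_zero.1 e3 with h5 | h5
        · exact sub_eq_zero.1 h5
        · exact absurd (sub_eq_zero.1 h5) hy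
  refine (sum_le_sum h2).trans ?_
  rw [sum_add_distrib, sum_const, smul_eq_mul, mul_one, card_product, card_product,
    ← sum_filter, sum_const, smul_eq_mul]
  have h3 : (((X ×ˢ X) ×ˢ (X ×ˢ X)).filter fun q => q.1.1 = q.1.2 ∧ q.2.1 = q.2.2).card ≤
      X.card ^ 2 := by
    rw [sq, ← card_product]
    refine card_le_card_of_injOn (fun q => (q.1.1, q.2.1)) ?_ ?_
    · intro q hq
      rw [mem_coe, mem_filter, mem_product, mem_product, mem_product] at hq
      rw [mem_coe, mem_product]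
      exact ⟨hq.1.1.1, hq.1.2.1⟩
    · intro q hq q' hq' h
      rw [mem_coe, mem_filter] at hq hq'
      simp only [Prod.mk.injEq] at h
      obtain ⟨_, a1, a2⟩ := hq
      obtain ⟨_, b1, b2⟩ := hq'
      refine Prod.ext (Prod.ext h.1 ?_) (Prod.ext h.2 ?_)
      · rw [← a1, ← b1, h.1]
      · rw [← a2, ← b2, h.2]
  have h4 := Nat.mul_le_mul_right (p - 1) h3
  have h5 : X.card * X.card * (X.card * X.card) = X.card ^ 4 := by ring
  rw [h5]
  omega

/-- a random dilate -/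
theorem exists_dil (X : Finset (ZMod p)) (hX : X.Nonempty) :
    ∃ ξ : ZMod p, ξ ≠ 0 ∧
      (X.card : ℝ) ^ 2 * (p - 1) ≤ ((X + ξ • X).card : ℝ) * (((p : ℝ) - 1) + (X.card : ℝ) ^ 2) := by
  have hp : 1 < p := (Fact.out : p.Prime).one_lt
  have hpr : (0 : ℝ) < (p : ℝ) - 1 := by
    have : (1 : ℝ) < p := by exact_mod_cast hp
    linarith
  have hc : (0 : ℝ) < X.card := by exact_mod_cast hX.card_pos
  have hcard : (univ.erase (0 : ZMod p)).card = p - 1 := by
    rw [card_erase_of_mem (mem_univ _), card_univ, ZMod.card]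
  have hne : (univ.erase (0 : ZMod p)).Nonempty := by
    rw [← card_pos, hcard]
    omega
  obtain ⟨ξ, hξ, h⟩ : ∃ ξ ∈ univ.erase (0 : ZMod p),
      (en X ξ : ℝ) ≤ (X.card : ℝ) ^ 2 + (X.card : ℝ) ^ 4 / ((p : ℝ) - 1) := by
    apply exists_le_of_sum_le hne
    rw [sum_const, hcard, nsmul_eq_mul]
    have h1 := sum_en_le X
    have h2 : ((∑ ξ ∈ univ.erase (0 : ZMod p), en X ξ : ℕ) : ℝ) ≤
        ((X.card ^ 2 * (p - 1) + X.card ^ 4 : ℕ) : ℝ) := by exact_mod_cast h1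
    push_cast [Nat.cast_sub hp.le] at h2 ⊢
    refine h2.trans (le_of_eq ?_)
    field_simp
  refine ⟨ξ, (mem_erase.1 hξ).1, ?_⟩
  have hξ0 : ξ ≠ 0 := (mem_erase.1 hξ).1
  have h3 := le_card_add_mul_addEnergy X (ξ • X)
  rw [Finset.card_smul_finset₀ hξ0] at h3
  have h4 : (X.card : ℝ) ^ 4 ≤ ((X + ξ • X).card : ℝ) * en X ξ := by
    have h5 : X.card ^ 2 * X.card ^ 2 ≤ (X + ξ • X).card * en X ξ :=
      h3.trans (Nat.mul_le_mul_left _ (energy_le_en X ξ hξ0))
    have h6 : (X.card : ℝ) ^ 4 = ((X.card ^ 2 * X.card ^ 2 : ℕ) : ℝ) := by push_cast; ring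
    rw [h6]
    exact_mod_cast h5
  have h5 : (X.card : ℝ) ^ 4 ≤ ((X + ξ • X).card : ℝ) *
      ((X.card : ℝ) ^ 2 + (X.card : ℝ) ^ 4 / ((p : ℝ) - 1)) :=
    h4.trans (mul_le_mul_of_nonneg_left h (Nat.cast_nonneg _))
  have h6 : ((X + ξ • X).card : ℝ) * ((X.card : ℝ) ^ 2 + (X.card : ℝ) ^ 4 / ((p : ℝ) - 1)) *
      ((p : ℝ) - 1) = (X.card : ℝ) ^ 2 *
        (((X + ξ • X).card : ℝ) * (((p : ℝ) - 1) + (X.card : ℝ) ^ 2)) := by
    field_simp
  have h7 := mul_le_mul_of_nonneg_right h5 hpr.le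
  rw [h6] at h7
  have h8 : (X.card : ℝ) ^ 4 * ((p : ℝ) - 1) =
      (X.card : ℝ) ^ 2 * ((X.card : ℝ) ^ 2 * ((p : ℝ) - 1)) := by ring
  rw [h8] at h7
  exact le_of_mul_le_mul_left h7 (by positivity)

/-- the quotients of differences -/
def quot (X : Finset (ZMod p)) : Set (ZMod p) :=
  {r | ∃ a ∈ X, ∃ b ∈ X, ∃ c ∈ X, ∃ d ∈ X, c ≠ d ∧ (c - d) * r = a - b}

theorem inj_of_notMem (X : Finset (ZMod p)) (r : ZMod p) (hr : r ∉ quot X) :
    X.card ^ 2 ≤ (X + r • X).card := by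
  rw [sq, ← card_product]
  refine card_le_card_of_injOn (fun q => q.1 + r • q.2) ?_ ?_
  · intro q hq
    rw [mem_coe, mem_product] at hq
    exact mem_coe.2 (add_mem_add hq.1 (smul_mem_smul_finset hq.2))
  · intro q hq q' hq' h
    rw [mem_coe, mem_product] at hq hq'
    simp only [smul_eq_mul] at h
    by_cases hy : q.2 = q'.2
    · rw [hy] at h
      exact Prod.ext (add_right_cancel h) hy
    · exfalso
      exact hr ⟨q'.1, hq'.1, q.1, hq.1, q.2, hq.2, q'.2, hq'.2, hy, by linear_combination h⟩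

theorem exists_succ (X : Finset (ZMod p)) (hX : 1 < X.card) (h : quot X ≠ Set.univ) :
    ∃ r ∈ quot X, r + 1 ∉ quot X := by
  by_contra hcon
  push Not at hcon
  apply h
  rw [Set.eq_univ_iff_forall]
  obtain ⟨c, hc, d, hd, hcd⟩ := one_lt_card.1 hX
  have h0 : (0 : ZMod p) ∈ quot X := ⟨c, hc, c, hc, c, hc, d, hd, hcd, by ring⟩
  have hn : ∀ n : ℕ, (n : ZMod p) ∈ quot X := by
    intro n
    induction n with
    | zero => simpa using h0
    | succ n ih => push_cast; exact hcon _ ih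
  intro r
  have := hn r.val
  rwa [ZMod.natCast_zmod_val] at this

end Pool.Agent.Y881.SP
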