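import Pool.Agent.Y881.SP.Walk

set_option autoImplicit false

/-! # No set is nearly invariant under many translations and many dilations -/

open Finset

namespace Pool.Agent.Y881.SP

section
variable {p : ℕ} [Fact p.Prime]

open Classical in
/-- the law of `f` on the finite set `S` -/
noncomputable def law {α : Type*} (S : Finset α) (f : α → ZMod p) (x : ZMod p) : ℝ :=
  ((S.filter fun s => f s = x).card : ℝ) * (S.card : ℝ)⁻¹

theorem law_nonneg {α : Type*} (S : Finset α) (f : α → ZMod p) (x : ZMod p) : 0 ≤ law S f x := by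
  unfold law
  positivity

theorem law_test {α : Type*} (S : Finset α) (f : α → ZMod p) (F : ZMod p → ℝ) :
    ∑ x, law S f x * F x = (S.card : ℝ)⁻¹ * ∑ s ∈ S, F (f s) := by
  classical
  unfold law
  rw [← sum_fiberwise_of_maps_to (s := S) (t := (univ : Finset (ZMod p))) (g := f)
    (fun _ _ => mem_univ _), mul_sum]
  refine sum_congr rfl fun x _ => ?_
  have h1 : ∑ s ∈ S.filter (fun s => f s = x), F (f s) =
      ((S.filter fun s => f s = x).card : ℝ) * F x := by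
    rw [← nsmul_eq_mul, ← sum_const]
    exact sum_congr rfl fun s hs => by rw [(mem_filter.1 hs).2]
  rw [h1]
  ring

theorem law_sum {α : Type*} (S : Finset α) (hS : S.Nonempty) (f : α → ZMod p) :
    ∑ x, law S f x = 1 := by
  have h := law_test S f (fun _ => 1)
  simp only [mul_one, sum_const, nsmul_eq_mul] at h
  rw [h]
  have hc : (S.card : ℝ) ≠ 0 := by exact_mod_cast hS.card_pos.ne'
  exact inv_mul_cancel₀ hc

theorem sq_le_of_le (ρ : ZMod p → ℝ) (h0 : ∀ x, 0 ≤ ρ x) (h1 : ∑ x, ρ x = 1) (m : ℝ)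
    (hm : ∀ x, ρ x ≤ m) : ∑ x, ρ x ^ 2 ≤ m := by
  calc ∑ x, ρ x ^ 2 ≤ ∑ x, m * ρ x := sum_le_sum fun x _ => by
        rw [sq]
        exact mul_le_mul_of_nonneg_right (hm x) (h0 x)
    _ = m := by rw [← mul_sum, h1, mul_one]

/-- the law of differences -/
noncomputable def dif (A : Finset (ZMod p)) : ZMod p → ℝ := law (A ×ˢ A) fun q => q.1 - q.2

/-- the law of ratios -/
noncomputable def rat (T : Finset (ZMod p)) : ZMod p → ℝ := law (T ×ˢ T) fun q => q.2 / q.1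

theorem pair_law_le (A : Finset (ZMod p)) (hA : A.Nonempty) (f : ZMod p × ZMod p → ZMod p)
    (hf : ∀ a ∈ A, ∀ b ∈ A, ∀ b' ∈ A, f (a, b) = f (a, b') → b = b') (x : ZMod p) :
    law (A ×ˢ A) f x ≤ (A.card : ℝ)⁻¹ := by
  classical
  have hc : (0 : ℝ) < A.card := by exact_mod_cast hA.card_pos
  unfold law
  rw [card_product]
  have h1 : ((A ×ˢ A).filter fun s => f s = x).card ≤ A.card := by
    refine card_le_card_of_injOn (fun q => q.1) ?_ ?_
    · intro q hq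
      exact (mem_product.1 (mem_filter.1 hq).1).1
    · intro q hq q' hq' h
      obtain ⟨hq1, hq2⟩ := mem_filter.1 hq
      obtain ⟨hq1', hq2'⟩ := mem_filter.1 hq'
      rw [mem_product] at hq1 hq1'
      have h' : q.1 = q'.1 := h
      refine Prod.ext h' (hf q.1 hq1.1 q.2 hq1.2 q'.2 hq1'.2 ?_)
      have e1 : f (q.1, q.2) = x := hq2
      have e2 : f (q'.1, q'.2) = x := hq2'
      rw [e1, h', e2]
  have h2 : (((A ×ˢ A).filter fun s => f s = x).card : ℝ) ≤ A.card := by exact_mod_cast h1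
  push_cast
  calc (((A ×ˢ A).filter fun s => f s = x).card : ℝ) * ((A.card : ℝ) * A.card)⁻¹
      ≤ A.card * ((A.card : ℝ) * A.card)⁻¹ := mul_le_mul_of_nonneg_right h2 (by positivity)
    _ = _ := by field_simp

theorem dif_le (A : Finset (ZMod p)) (hA : A.Nonempty) (x : ZMod p) :
    dif A x ≤ (A.card : ℝ)⁻¹ :=
  pair_law_le A hA _ (fun _ _ _ _ _ _ h => sub_right_injective h) x

theorem rat_le (T : Finset (ZMod p)) (hT : T.Nonempty) (h0 : (0 : ZMod p) ∉ T) (x : ZMod p) :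
    rat T x ≤ (T.card : ℝ)⁻¹ :=
  pair_law_le T hT _ (fun a ha b _ b' _ h => by
    have ha0 : a ≠ 0 := fun h => h0 (h ▸ ha)
    exact (div_left_inj' ha0).1 h) x

theorem rat_zero (T : Finset (ZMod p)) (h0 : (0 : ZMod p) ∉ T) : rat T 0 = 0 := by
  classical
  unfold rat law
  have h1 : ((T ×ˢ T).filter fun q => q.2 / q.1 = 0) = ∅ := by
    rw [filter_eq_empty_iff]
    intro q hq h
    rw [mem_product] at hq
    rcases div_eq_zero_iff.1 h with h2 | h2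
    · exact h0 (h2 ▸ hq.2)
    · exact h0 (h2 ▸ hq.1)
  rw [h1]
  simp

open Classical in
/-- the base of the iteration -/
theorem Rob_base (A Y V : Finset (ZMod p)) (hA : A.Nonempty) (K : ℝ) (hK : 0 < K)
    (hV : (V.card : ℝ) ≤ K * Y.card)
    (hpop : ∀ y ∈ Y, (A.card : ℝ) ≤ K * (A.filter fun a => y + a ∈ V).card) :
    Rob Y (dif A) 2 (K ^ 3) := by
  intro w hw0 hw1 hwY
  have hAc : (0 : ℝ) < A.card := by exact_mod_cast hA.card_pos
  set m := ∑ x, w x with hm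
  have hm0 : 0 ≤ m := sum_nonneg fun x _ => hw0 x
  set g : ZMod p → ℝ := fun z => ∑ a ∈ A, w (z - a) with hg
  have hQ : Q (dif A) w = ((A.card : ℝ) ^ 2)⁻¹ * ∑ z, g z ^ 2 := by
    unfold Q dif
    rw [law_test (A ×ˢ A) (fun q => q.1 - q.2) (fun x => ∑ s, w s * w (s + x)), card_product]
    have h1 : ∑ z, g z ^ 2 = ∑ q ∈ A ×ˢ A, ∑ s, w s * w (s + (q.1 - q.2)) := by
      rw [Finset.sum_product]
      have h2 : ∀ z, g z ^ 2 = ∑ a ∈ A, ∑ b ∈ A, w (z - a) * w (z - b) := fun z => by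
        rw [sq, hg, sum_mul_sum]
      rw [sum_congr rfl fun z _ => h2 z, sum_comm]
      refine sum_congr rfl fun a _ => ?_
      rw [sum_comm]
      refine sum_congr rfl fun b _ => ?_
      rw [← Equiv.sum_comp (Equiv.addRight a)]
      refine sum_congr rfl fun s _ => ?_
      simp only [Equiv.coe_addRight, add_sub_cancel_right]
      congr 2
      ring
    rw [h1]
    push_cast
    rw [sq]
  have h1 : m * A.card ≤ K * ∑ z ∈ V, g z := by
    have h2 : ∑ z ∈ V, g z = ∑ s, w s * (A.filter fun a => s + a ∈ V).card := by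
      simp only [hg]
      rw [sum_comm]
      have h3 : ∀ a ∈ A, ∑ z ∈ V, w (z - a) = ∑ s, if s + a ∈ V then w s else 0 := by
        intro a _
        rw [← Equiv.sum_comp (Equiv.subRight a) (fun s => if s + a ∈ V then w s else 0)]
        simp only [Equiv.subRight_apply, sub_add_cancel]
        rw [sum_ite_mem, univ_inter]
      rw [sum_congr rfl h3, sum_comm]
      refine sum_congr rfl fun s _ => ?_
      rw [← sum_filter, sum_const, nsmul_eq_mul, mul_comm]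
    rw [h2, hm, sum_mul, mul_sum]
    refine sum_le_sum fun s _ => ?_
    by_cases hs : s ∈ Y
    · calc w s * A.card ≤ w s * (K * (A.filter fun a => s + a ∈ V).card) :=
            mul_le_mul_of_nonneg_left (hpop s hs) (hw0 s)
        _ = _ := by ring
    · rw [hwY s hs]
      simp
  have hg0 : ∀ z, 0 ≤ g z := fun z => sum_nonneg fun a _ => hw0 _
  have h2 : (∑ z ∈ V, g z) ^ 2 ≤ V.card * ∑ z, g z ^ 2 := by
    refine sq_sum_le_card_mul_sum_sq.trans (mul_le_mul_of_nonneg_left ?_ (Nat.cast_nonneg _))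
    exact sum_le_sum_of_subset_of_nonneg (subset_univ _) fun _ _ _ => by positivity
  have hG0 : 0 ≤ ∑ z, g z ^ 2 := sum_nonneg fun z _ => by positivity
  have h3 : m ^ 2 * (A.card : ℝ) ^ 2 ≤ (K ^ 3 * Y.card) * ∑ z, g z ^ 2 := by
    calc m ^ 2 * (A.card : ℝ) ^ 2 = (m * A.card) ^ 2 := by ring
      _ ≤ (K * ∑ z ∈ V, g z) ^ 2 := pow_le_pow_left₀ (by positivity) h1 2
      _ = K ^ 2 * (∑ z ∈ V, g z) ^ 2 := by ring
      _ ≤ K ^ 2 * (V.card * ∑ z, g z ^ 2) := mul_le_mul_of_nonneg_left h2 (by positivity)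
      _ ≤ K ^ 2 * ((K * Y.card) * ∑ z, g z ^ 2) := by gcongr
      _ = _ := by ring
  rw [hQ]
  have h4 : K ^ 3 * (Y.card : ℝ) ^ (2 - 1) * (((A.card : ℝ) ^ 2)⁻¹ * ∑ z, g z ^ 2) =
      ((K ^ 3 * Y.card) * ∑ z, g z ^ 2) / (A.card : ℝ) ^ 2 := by
    rw [show 2 - 1 = 1 from rfl, pow_one]
    field_simp
  rw [h4, le_div_iff₀ (by positivity)]
  exact h3

/-- the exponents of the iteration -/
def Fx : ℕ → ℕ
  | 0 => 3
  | n + 1 => 2 * (2 ^ n + 1) + 2 * Fx n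

theorem Rob_iter (Y : Finset (ZMod p)) (ℓ ρ : ZMod p → ℝ) (hℓ : ∀ x, 0 ≤ ℓ x) (hz : ℓ 0 = 0)
    (hℓ1 : ∑ x, ℓ x = 1) (h0 : ∀ x, 0 ≤ ρ x) (K : ℝ) (hK : 0 < K)
    (hpop : ∀ y ∈ Y, 1 ≤ K * ∑ l ∈ univ.filter (fun l => l⁻¹ * y ∈ Y), ℓ l)
    (h : Rob Y ρ 2 (K ^ 3)) (n : ℕ) :
    (∀ x, 0 ≤ (R ℓ)^[n] ρ x) ∧ Rob Y ((R ℓ)^[n] ρ) (2 ^ n + 1) (K ^ Fx n) := by
  induction n with
  | zero => exact ⟨h0, h⟩
  | succ n ih =>
    obtain ⟨ih1, ih2⟩ := ih
    rw [Function.iterate_succ_apply']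
    refine ⟨R_nonneg ℓ _ hℓ ih1, ?_⟩
    have h2 := Rob_step Y ℓ _ hℓ hz hℓ1 ih1 (2 ^ n + 1) (Nat.le_add_left 1 _) (K ^ Fx n) K
      (by positivity) hK
      hpop ih2
    have e1 : 2 * (2 ^ n + 1) - 1 = 2 ^ (n + 1) + 1 := by
      rw [pow_succ]
      omega
    have e2 : K ^ (2 * (2 ^ n + 1)) * (K ^ Fx n) ^ 2 = K ^ Fx (n + 1) := by
      rw [← pow_mul, ← pow_add, Fx]
      congr 1
      ring
    rw [e1, e2] at h2
    exact h2

theorem R_le (ℓ ρ : ZMod p → ℝ) (hℓ : ∀ x, 0 ≤ ℓ x) (hz : ℓ 0 = 0) (hℓ1 : ∑ x, ℓ x = 1)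
    (h0 : ∀ x, 0 ≤ ρ x) (h1 : ∑ x, ρ x = 1) : ∑ x, R ℓ ρ x ^ 2 ≤ ∑ x, ρ x ^ 2 := by
  have hp0 : (0 : ℝ) < p := by exact_mod_cast (Fact.out : p.Prime).pos
  refine (R_sq ℓ ρ hℓ hz hℓ1).trans ?_
  have hc1 : ∀ μ, ∑ z, conv ρ μ z ^ 2 ≤ ∑ x, ρ x ^ 2 := by
    intro μ
    have h2 := J_le ρ h0 h1 μ
    rw [J_eq] at h2
    exact le_of_mul_le_mul_left h2 hp0
  calc _ ≤ ∑ l, ∑ l', ℓ l * ℓ l' * ∑ x, ρ x ^ 2 :=
        sum_le_sum fun l _ => sum_le_sum fun l' _ =>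
          mul_le_mul_of_nonneg_left (hc1 _) (mul_nonneg (hℓ l) (hℓ l'))
    _ = _ := by
        have h3 : ∑ l, ∑ l', ℓ l * ℓ l' = 1 := by rw [← sum_mul_sum, hℓ1, mul_one]
        simp only [← sum_mul]
        rw [h3, one_mul]

open Classical in
/-- the indicator function -/
noncomputable def ind (Y : Finset (ZMod p)) (x : ZMod p) : ℝ := if x ∈ Y then 1 else 0

theorem ind_nonneg (Y : Finset (ZMod p)) (x : ZMod p) : 0 ≤ ind Y x := by
  unfold ind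
  split_ifs <;> norm_num

theorem ind_le (Y : Finset (ZMod p)) (x : ZMod p) : ind Y x ≤ 1 := by
  unfold ind
  split_ifs <;> norm_num

theorem ind_notMem (Y : Finset (ZMod p)) (x : ZMod p) (hx : x ∉ Y) : ind Y x = 0 := if_neg hx

theorem ind_sum (Y : Finset (ZMod p)) : ∑ x, ind Y x = Y.card := by
  classical
  unfold ind
  rw [sum_ite_mem, univ_inter, sum_const, nsmul_eq_mul, mul_one]

/-- the correlation is bounded by the norm -/
theorem Q_le (Y : Finset (ZMod p)) (ρ : ZMod p → ℝ) :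
    Q ρ (ind Y) ^ 2 ≤ (∑ x, ρ x ^ 2) * (Y.card : ℝ) ^ 3 := by
  unfold Q
  set r : ZMod p → ℝ := fun x => ∑ s, ind Y s * ind Y (s + x) with hr
  have h1 : (∑ x, ρ x * r x) ^ 2 ≤ (∑ x, ρ x ^ 2) * ∑ x, r x ^ 2 :=
    sum_mul_sq_le_sq_mul_sq _ _ _
  refine h1.trans (mul_le_mul_of_nonneg_left ?_ (sum_nonneg fun x _ => by positivity))
  have hr0 : ∀ x, 0 ≤ r x := fun x => sum_nonneg fun s _ =>
    mul_nonneg (ind_nonneg Y s) (ind_nonneg Y _)
  have hrY : ∀ x, r x ≤ Y.card := by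
    intro x
    rw [← ind_sum Y]
    exact sum_le_sum fun s _ => mul_le_of_le_one_right (ind_nonneg Y s) (ind_le Y _)
  have hrs : ∑ x, r x = (Y.card : ℝ) ^ 2 := by
    simp only [hr]
    rw [sum_comm]
    have h2 : ∀ s, ∑ x, ind Y s * ind Y (s + x) = ind Y s * Y.card := by
      intro s
      rw [← mul_sum]
      congr 1
      have h3 := Equiv.sum_comp (Equiv.addLeft s) (ind Y)
      simp only [Equiv.coe_addLeft] at h3
      rw [h3, ind_sum]
    rw [sum_congr rfl fun s _ => h2 s, ← sum_mul, ind_sum, sq]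
  calc ∑ x, r x ^ 2 ≤ ∑ x, (Y.card : ℝ) * r x := sum_le_sum fun x _ => by
        rw [sq]
        exact mul_le_mul_of_nonneg_right (hrY x) (hr0 x)
    _ = _ := by rw [← mul_sum, hrs]; ring

end

open Classical in
/-- no set is nearly invariant under many translations and many dilations -/
theorem no_inv (ε : ℝ) (hε : 0 < ε) : ∃ k : ℝ, 0 < k ∧ ∃ p₀ : ℕ, ∀ (p : ℕ) [Fact p.Prime],
    p₀ ≤ p → ∀ A T Y V : Finset (ZMod p), (0 : ZMod p) ∉ T → (p : ℝ) ^ ε ≤ A.card →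
      (p : ℝ) ^ ε ≤ T.card → Y.Nonempty → (Y.card : ℝ) ≤ (p : ℝ) ^ (1 - ε) →
      (V.card : ℝ) ≤ (p : ℝ) ^ k * Y.card →
      (∀ y ∈ Y, (A.card : ℝ) ≤ (p : ℝ) ^ k * (A.filter fun a => y + a ∈ V).card) →
      (∀ y ∈ Y, (T.card : ℝ) ^ 2 ≤ (p : ℝ) ^ k *
        ((T ×ˢ T).filter fun q => q.1 / q.2 * y ∈ Y).card) → False := by
  obtain ⟨γ, hγ⟩ : ∃ γ : ℝ, γ = ε / 2 := ⟨_, rfl⟩
  have hγ0 : 0 < γ := by rw [hγ]; positivity
  obtain ⟨κ, hκ, p₁, hflat⟩ := flat γ hγ0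
  obtain ⟨κ₂, hκ₂⟩ : ∃ κ₂ : ℝ, κ₂ = min κ γ / 2 := ⟨_, rfl⟩
  have hκ₂0 : 0 < κ₂ := by rw [hκ₂]; positivity
  have hκ₂1 : 2 * κ₂ ≤ κ := by rw [hκ₂]; linarith [min_le_left κ γ]
  have hκ₂2 : 2 * κ₂ ≤ γ := by rw [hκ₂]; linarith [min_le_right κ γ]
  obtain ⟨n, hn⟩ : ∃ n : ℕ, 1 < n * κ₂ := by
    obtain ⟨n, hn⟩ := exists_nat_gt (1 / κ₂)
    exact ⟨n, by rwa [div_lt_iff₀ hκ₂0] at hn⟩
  obtain ⟨k, hk⟩ : ∃ k : ℝ, k = γ / (4 * (Fx n + 1)) := ⟨_, rfl⟩
  have hk0 : 0 < k := by rw [hk]; positivity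
  obtain ⟨p₂, hp₂2, hp₂⟩ := Pool.Agent.H435R3.Paley.exists_large 2 κ₂ hκ₂0
  refine ⟨k, hk0, p₁ + p₂, fun p _ hp A T Y V hT0 hA hT hY hYc hV hpopA hpopT => ?_⟩
  have hp2 : (2 : ℝ) ≤ p := by exact_mod_cast (Fact.out : p.Prime).two_le
  have hp0 : (0 : ℝ) < p := by linarith
  have hp1 : (1 : ℝ) ≤ p := by linarith
  have hp1' : (1 : ℝ) < p := by linarith
  have hmono : ∀ x y : ℝ, x ≤ y → (p : ℝ) ^ x ≤ (p : ℝ) ^ y := fun x y h =>
    Real.rpow_le_rpow_of_exponent_le hp1 h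
  have hAc : (0 : ℝ) < A.card := lt_of_lt_of_le (by positivity) hA
  have hTc : (0 : ℝ) < T.card := lt_of_lt_of_le (by positivity) hT
  have hAne : A.Nonempty := by rw [← card_pos]; exact_mod_cast hAc
  have hTne : T.Nonempty := by rw [← card_pos]; exact_mod_cast hTc
  have hYc0 : (0 : ℝ) < Y.card := by exact_mod_cast hY.card_pos
  set ℓ := rat T with hℓdef
  have hℓ : ∀ x, 0 ≤ ℓ x := law_nonneg _ _
  have hz : ℓ 0 = 0 := rat_zero T hT0
  have hℓ1 : ∑ x, ℓ x = 1 := law_sum _ (hTne.product hTne) _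
  have hℓm : ∀ x, ℓ x ≤ (p : ℝ) ^ (-ε) := fun x => by
    refine (rat_le T hTne hT0 x).trans ?_
    rw [Real.rpow_neg hp0.le]
    exact inv_anti₀ (by positivity) hT
  set ρ := dif A with hρdef
  have hρ : ∀ x, 0 ≤ ρ x := law_nonneg _ _
  have hρ1 : ∑ x, ρ x = 1 := law_sum _ (hAne.product hAne) _
  set K : ℝ := (p : ℝ) ^ k with hK
  have hK0 : 0 < K := by positivity
  have hpop : ∀ y ∈ Y, 1 ≤ K * ∑ l ∈ univ.filter (fun l => l⁻¹ * y ∈ Y), ℓ l := by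
    intro y hy
    have h1 := law_test (T ×ˢ T) (fun q => q.2 / q.1) (fun l => if l⁻¹ * y ∈ Y then (1 : ℝ) else 0)
    have h2 : ∑ l ∈ univ.filter (fun l => l⁻¹ * y ∈ Y), ℓ l =
        ∑ l, law (T ×ˢ T) (fun q => q.2 / q.1) l * (if l⁻¹ * y ∈ Y then (1 : ℝ) else 0) := by
      rw [sum_filter]
      refine sum_congr rfl fun l _ => ?_
      split_ifs
      · rw [mul_one]; rfl
      · rw [mul_zero]
    rw [h2, h1, ← sum_filter, sum_const, nsmul_eq_mul, mul_one, card_product]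
    have h3 : ((T ×ˢ T).filter fun q => (q.2 / q.1)⁻¹ * y ∈ Y) =
        ((T ×ˢ T).filter fun q => q.1 / q.2 * y ∈ Y) := by
      refine filter_congr fun q _ => ?_
      rw [inv_div]
    rw [h3]
    have h4 := hpopT y hy
    generalize (((T ×ˢ T).filter fun q => q.1 / q.2 * y ∈ Y).card : ℝ) = c at h4 ⊢
    push_cast
    have h5 : K * (((T.card : ℝ) * T.card)⁻¹ * c) = (K * c) / (T.card : ℝ) ^ 2 := by
      field_simp
    rw [h5, le_div_iff₀ (by positivity), one_mul]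
    exact h4
  have hbase : Rob Y ρ 2 (K ^ 3) := Rob_base A Y V hAne K hK0 hV hpopA
  have hsum : ∀ i, ∑ x, (R ℓ)^[i] ρ x = 1 := by
    intro i
    induction i with
    | zero => exact hρ1
    | succ i ih =>
      rw [Function.iterate_succ_apply']
      exact R_sum ℓ _ hz hℓ1 ih
  have hnn : ∀ i, ∀ x, 0 ≤ (R ℓ)^[i] ρ x := fun i =>
    (Rob_iter Y ℓ ρ hℓ hz hℓ1 hρ K hK0 hpop hbase i).1
  -- the norms
  have hnorm : ∀ i : ℕ, ∑ x, (R ℓ)^[i] ρ x ^ 2 ≤ (p : ℝ) ^ (-1 + γ) ∨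
      ∑ x, (R ℓ)^[i] ρ x ^ 2 ≤ (p : ℝ) ^ (-γ - i * κ₂) := by
    intro i
    induction i with
    | zero =>
      right
      refine (sq_le_of_le ρ hρ hρ1 _ (dif_le A hAne)).trans ?_
      rw [show -γ - ((0 : ℕ) : ℝ) * κ₂ = -γ by push_cast; ring, Real.rpow_neg hp0.le]
      exact inv_anti₀ (by positivity) ((hmono _ _ (by linarith)).trans hA)
    | succ i ih =>
      rw [Function.iterate_succ_apply']
      by_cases hlo : ∑ x, (R ℓ)^[i] ρ x ^ 2 ≤ (p : ℝ) ^ (-1 + γ)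
      · left
        exact (R_le ℓ _ hℓ hz hℓ1 (hnn i) (hsum i)).trans hlo
      · right
        have hhi := ih.resolve_left hlo
        have h1 := hflat p (by omega) _ (hnn i) (hsum i) (not_le.1 hlo).le
          (hhi.trans (hmono _ _ (by
            have : (0 : ℝ) ≤ i * κ₂ := by positivity
            linarith)))
        have h2 := R_flat ℓ _ hℓ hz hℓ1 _ hℓm (hnn i) (hsum i) ((p : ℝ) ^ κ) ((p : ℝ) ^ γ)
          (by positivity) h1.le
        have h3 : ((p : ℝ) ^ κ)⁻¹ + (p : ℝ) ^ γ * (p : ℝ) ^ (-ε) ≤ (p : ℝ) ^ (-κ₂) := by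
          have e1 : ((p : ℝ) ^ κ)⁻¹ ≤ (p : ℝ) ^ (-(2 * κ₂)) := by
            rw [← Real.rpow_neg hp0.le]
            exact hmono _ _ (by linarith)
          have e2 : (p : ℝ) ^ γ * (p : ℝ) ^ (-ε) ≤ (p : ℝ) ^ (-(2 * κ₂)) := by
            rw [← Real.rpow_add hp0]
            exact hmono _ _ (by linarith)
          have e3 : (2 : ℝ) ≤ (p : ℝ) ^ κ₂ := hp₂ p (by omega)
          have e4 : 2 * (p : ℝ) ^ (-(2 * κ₂)) ≤ (p : ℝ) ^ (-κ₂) := by
            calc 2 * (p : ℝ) ^ (-(2 * κ₂)) ≤ (p : ℝ) ^ κ₂ * (p : ℝ) ^ (-(2 * κ₂)) :=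
                  mul_le_mul_of_nonneg_right e3 (by positivity)
              _ = _ := by
                  rw [← Real.rpow_add hp0]
                  congr 1
                  ring
          linarith
        refine h2.trans ?_
        calc (((p : ℝ) ^ κ)⁻¹ + (p : ℝ) ^ γ * (p : ℝ) ^ (-ε)) * ∑ x, (R ℓ)^[i] ρ x ^ 2
            ≤ (p : ℝ) ^ (-κ₂) * (p : ℝ) ^ (-γ - i * κ₂) :=
              mul_le_mul h3 hhi (sum_nonneg fun x _ => by positivity) (by positivity)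
          _ = _ := by
              rw [← Real.rpow_add hp0]
              congr 1
              push_cast
              ring
  have hfin : ∑ x, (R ℓ)^[n] ρ x ^ 2 ≤ (p : ℝ) ^ (-1 + γ) := by
    rcases hnorm n with h | h
    · exact h
    · exact h.trans (hmono _ _ (by linarith))
  -- the contradiction
  have hrob := (Rob_iter Y ℓ ρ hℓ hz hℓ1 hρ K hK0 hpop hbase n).2
    (ind Y) (ind_nonneg Y) (ind_le Y) (ind_notMem Y)
  rw [ind_sum] at hrob
  set q := Q ((R ℓ)^[n] ρ) (ind Y) with hq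
  have h1 : (Y.card : ℝ) ≤ K ^ Fx n * q := by
    have h2 : (Y.card : ℝ) ^ (2 ^ n) * Y.card ≤ (Y.card : ℝ) ^ (2 ^ n) * (K ^ Fx n * q) := by
      calc (Y.card : ℝ) ^ (2 ^ n) * Y.card = (Y.card : ℝ) ^ (2 ^ n + 1) := by rw [pow_succ]
        _ ≤ _ := hrob
        _ = _ := by
            rw [Nat.add_sub_cancel]
            ring
    exact le_of_mul_le_mul_left h2 (by positivity)
  have h2 := Q_le Y ((R ℓ)^[n] ρ)
  rw [← hq] at h2
  have h3 : (Y.card : ℝ) ^ 2 ≤ (K ^ Fx n) ^ 2 * ((p : ℝ) ^ (-1 + γ) * (Y.card : ℝ) ^ 3) := by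
    calc (Y.card : ℝ) ^ 2 ≤ (K ^ Fx n * q) ^ 2 := pow_le_pow_left₀ hYc0.le h1 2
      _ = (K ^ Fx n) ^ 2 * q ^ 2 := by ring
      _ ≤ (K ^ Fx n) ^ 2 * ((∑ x, (R ℓ)^[n] ρ x ^ 2) * (Y.card : ℝ) ^ 3) :=
          mul_le_mul_of_nonneg_left h2 (by positivity)
      _ ≤ _ := by gcongr
  have h4 : (1 : ℝ) ≤ (K ^ Fx n) ^ 2 * ((p : ℝ) ^ (-1 + γ) * Y.card) := by
    have h5 : 1 * (Y.card : ℝ) ^ 2 ≤
        ((K ^ Fx n) ^ 2 * ((p : ℝ) ^ (-1 + γ) * Y.card)) * (Y.card : ℝ) ^ 2 := by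
      rw [one_mul]
      refine h3.trans (le_of_eq ?_)
      ring
    exact le_of_mul_le_mul_right h5 (by positivity)
  have h5 : (K ^ Fx n) ^ 2 * ((p : ℝ) ^ (-1 + γ) * Y.card) < 1 := by
    calc (K ^ Fx n) ^ 2 * ((p : ℝ) ^ (-1 + γ) * Y.card)
        ≤ (K ^ Fx n) ^ 2 * ((p : ℝ) ^ (-1 + γ) * (p : ℝ) ^ (1 - ε)) := by gcongr
      _ = (p : ℝ) ^ (k * (Fx n * 2) + (-1 + γ) + (1 - ε)) := by
          rw [← pow_mul, hK, ← Real.rpow_natCast ((p : ℝ) ^ k), ← Real.rpow_mul hp0.le,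
            ← Real.rpow_add hp0, ← Real.rpow_add hp0]
          push_cast
          ring_nf
      _ < (p : ℝ) ^ (0 : ℝ) := by
          refine Real.rpow_lt_rpow_of_exponent_lt hp1' ?_
          have h6 : k * (Fx n * 2) ≤ γ / 2 := by
            rw [hk, div_mul_eq_mul_div, div_le_iff₀ (by positivity)]
            nlinarith
          linarith
      _ = 1 := Real.rpow_zero _
  linarith

end Pool.Agent.Y881.SP
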