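import Pool.Agent.Y881.SP.Step
import Pool.Agent.H435R3.Paley.Avg

set_option autoImplicit false

/-! # Flattening: few dilations correlate with a density of intermediate norm -/

open Finset

namespace Pool.Agent.Y881.SP

theorem pow_id1 (t y : ℝ) : t ^ 3 * (t ^ 4 * y ^ 18) * (t ^ 8 * (t ^ 22 * (t ^ 4 * y ^ 18) ^ 10) ^ 38) =
    t ^ 2371 * y ^ 6858 := by ring

theorem pow_id2 (t y : ℝ) : t ^ 6 * (t ^ 22 * (t ^ 4 * y ^ 18) ^ 10) ^ 24 * (t * y) =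
    t ^ 1495 * y ^ 4321 := by ring

theorem num_a (K1 y : ℝ) (hK1 : 0 ≤ K1) (h : K1 ≤ 16 * y ^ 18) (hy : 2 ≤ y) :
    8 * K1 * (256 * (2 ^ 22 * K1 ^ 10) ^ 38) < y ^ 10000 := by
  have h1 : 8 * K1 * (256 * (2 ^ 22 * K1 ^ 10) ^ 38) ≤
      8 * (16 * y ^ 18) * (256 * (2 ^ 22 * (16 * y ^ 18) ^ 10) ^ 38) := by gcongr
  have h2 : (8 : ℝ) * (16 * y ^ 18) * (256 * (2 ^ 22 * (16 * y ^ 18) ^ 10) ^ 38) =
      2 ^ 2371 * y ^ 6858 := by
    have h3 := pow_id1 2 y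
    have e1 : (2 : ℝ) ^ 3 = 8 := by norm_num
    have e2 : (2 : ℝ) ^ 4 = 16 := by norm_num
    have e3 : (2 : ℝ) ^ 8 = 256 := by norm_num
    rw [e1, e2, e3] at h3
    exact h3
  have h4 : (2 : ℝ) ^ 2371 < y ^ 3142 :=
    (pow_lt_pow_right₀ (by norm_num) (by norm_num)).trans_le
      (pow_le_pow_left₀ (by norm_num) hy 3142)
  have h5 : y ^ 10000 = y ^ 3142 * y ^ 6858 := by rw [← pow_add]
  rw [h5]
  rw [h2] at h1
  exact h1.trans_lt (mul_lt_mul_of_pos_right h4 (by positivity))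

theorem num_b (K1 y : ℝ) (hK1 : 0 ≤ K1) (h : K1 ≤ 16 * y ^ 18) (hy : 2 ≤ y) :
    64 * (2 ^ 22 * K1 ^ 10) ^ 24 * (2 * y) < y ^ 10000 := by
  have h1 : 64 * (2 ^ 22 * K1 ^ 10) ^ 24 * (2 * y) ≤
      64 * (2 ^ 22 * (16 * y ^ 18) ^ 10) ^ 24 * (2 * y) := by gcongr
  have h2 : (64 : ℝ) * (2 ^ 22 * (16 * y ^ 18) ^ 10) ^ 24 * (2 * y) = 2 ^ 1495 * y ^ 4321 := by
    have h3 := pow_id2 2 y
    have e1 : (2 : ℝ) ^ 6 = 64 := by norm_num
    have e2 : (2 : ℝ) ^ 4 = 16 := by norm_num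
    rw [e1, e2] at h3
    exact h3
  have h4 : (2 : ℝ) ^ 1495 < y ^ 5679 :=
    (pow_lt_pow_right₀ (by norm_num) (by norm_num)).trans_le
      (pow_le_pow_left₀ (by norm_num) hy 5679)
  have h5 : y ^ 10000 = y ^ 5679 * y ^ 4321 := by rw [← pow_add]
  rw [h5]
  rw [h2] at h1
  exact h1.trans_lt (mul_lt_mul_of_pos_right h4 (by positivity))

open Classical in
/-- the near-symmetric dilations -/
noncomputable def sym {p : ℕ} [Fact p.Prime] (ρ : ZMod p → ℝ) (K : ℝ) : Finset (ZMod p) :=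
  univ.filter fun μ : ZMod p => μ ≠ 0 ∧ p * ∑ x, ρ x ^ 2 ≤ K * J ρ μ

theorem sym_mono {p : ℕ} [Fact p.Prime] (ρ : ZMod p → ℝ) {K L : ℝ} (h : K ≤ L) :
    sym ρ K ⊆ sym ρ L := by
  intro μ hμ
  have h1 := (mem_filter.1 hμ).2
  refine mem_filter.2 ⟨mem_univ _, h1.1, h1.2.trans ?_⟩
  exact mul_le_mul_of_nonneg_right h (sum_nonneg fun ξ _ => by positivity)

theorem sym_card {p : ℕ} [Fact p.Prime] (ρ : ZMod p → ℝ) (h1 : ∑ x, ρ x = 1) (K : ℝ) (hK : 0 ≤ K) :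
    ((sym ρ K).card : ℝ) * (p * ∑ x, ρ x ^ 2) ≤ K * (p + (p * ∑ x, ρ x ^ 2) ^ 2) := by
  have h2 := sum_J_le ρ h1 _ rfl
  refine le_trans ?_ (mul_le_mul_of_nonneg_left h2 hK)
  have e : K * ∑ μ ∈ univ.erase (0 : ZMod p), J ρ μ =
      ∑ μ ∈ univ.erase (0 : ZMod p), K * J ρ μ := mul_sum _ _ _
  rw [e, ← nsmul_eq_mul]
  have h3 : sym ρ K ⊆ univ.erase (0 : ZMod p) := fun μ hμ =>
    mem_erase.2 ⟨(mem_filter.1 hμ).2.1, mem_univ _⟩
  refine (card_nsmul_le_sum _ _ _ fun μ hμ => (mem_filter.1 hμ).2.2).trans ?_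
  exact sum_le_sum_of_subset_of_nonneg h3 fun μ _ _ =>
    mul_nonneg hK (sum_nonneg fun ξ _ => by positivity)

theorem flat (γ : ℝ) (hγ : 0 < γ) : ∃ κ : ℝ, 0 < κ ∧ ∃ p₀ : ℕ, ∀ (p : ℕ) [Fact p.Prime],
    p₀ ≤ p → ∀ ρ : ZMod p → ℝ, (∀ x, 0 ≤ ρ x) → ∑ x, ρ x = 1 →
      (p : ℝ) ^ (-1 + γ) ≤ ∑ x, ρ x ^ 2 → ∑ x, ρ x ^ 2 ≤ (p : ℝ) ^ (-γ) →
      ((sym ρ ((p : ℝ) ^ κ)).card : ℝ) < (p : ℝ) ^ γ := by
  obtain ⟨I, hI⟩ : ∃ I : ℕ, 1 < I * (γ / 1000) := by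
    obtain ⟨I, hI⟩ := exists_nat_gt (1 / (γ / 1000))
    exact ⟨I, by rwa [div_lt_iff₀ (by positivity)] at hI⟩
  set κ : ℝ := γ / 10000 / 5 ^ I with hκ
  have hκ0 : 0 < κ := by positivity
  obtain ⟨p₀, hp₀, hbig⟩ := Pool.Agent.H435R3.Paley.exists_large 2 κ hκ0
  refine ⟨κ, hκ0, p₀, fun p _ hp ρ h0 h1 hlo hhi => ?_⟩
  by_contra hcon
  have hcon := not_lt.1 hcon
  have hq2 : (2 : ℝ) ≤ p := by exact_mod_cast hp₀.trans hp
  set q : ℝ := (p : ℝ) with hq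
  have hq0 : 0 < q := by linarith
  have hq1 : 1 < q := by linarith
  set P : ℝ := q * ∑ x, ρ x ^ 2 with hP
  have hN0 : 0 < ∑ x, ρ x ^ 2 := lt_of_lt_of_le (Real.rpow_pos_of_pos hq0 _) hlo
  have hP0 : 0 < P := mul_pos hq0 hN0
  have hbig2 : 2 ≤ q ^ κ := hbig p hp
  -- scales
  set Ks : ℕ → ℝ := fun i => q ^ (κ * 5 ^ i) with hKs
  have hKs0 : ∀ i, 0 < Ks i := fun i => Real.rpow_pos_of_pos hq0 _
  have hKs2 : ∀ i, 2 ≤ Ks i := fun i => by
    refine hbig2.trans (Real.rpow_le_rpow_of_exponent_le hq1.le ?_)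
    have : (1 : ℝ) ≤ 5 ^ i := one_le_pow₀ (by norm_num)
    nlinarith
  have hKs5 : ∀ i, Ks (i + 1) = Ks i ^ 5 := fun i => by
    simp only [hKs]
    rw [← Real.rpow_natCast (q ^ (κ * 5 ^ i)) 5, ← Real.rpow_mul hq0.le]
    congr 1
    push_cast
    ring
  have hKs4 : ∀ i, 2 * Ks i ^ 4 ≤ Ks (i + 1) := fun i => by
    rw [hKs5, pow_succ (Ks i) 4, mul_comm]
    exact mul_le_mul_of_nonneg_left (hKs2 i) (pow_nonneg (hKs0 i).le 4)
  set y : ℝ := q ^ (γ / 10000) with hy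
  have hy0 : 0 < y := Real.rpow_pos_of_pos hq0 _
  have hKsy : ∀ i ≤ I, Ks i ≤ y := fun i hi => by
    refine Real.rpow_le_rpow_of_exponent_le hq1.le ?_
    rw [hκ, div_mul_eq_mul_div, div_le_iff₀ (by positivity)]
    refine mul_le_mul_of_nonneg_left ?_ (by positivity)
    exact pow_le_pow_right₀ (by norm_num) hi
  have hy2 : 2 ≤ y := (hKs2 0).trans (hKsy 0 (Nat.zero_le _))
  have hyγ : q ^ γ = y ^ 10000 := by
    rw [hy, ← Real.rpow_natCast, ← Real.rpow_mul hq0.le]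
    congr 1
    push_cast
    ring
  have hyT : q ^ (γ / 1000) = y ^ 10 := by
    rw [hy, ← Real.rpow_natCast, ← Real.rpow_mul hq0.le]
    congr 1
    push_cast
    ring
  set T : ℝ := q ^ (γ / 1000) with hT
  have hT0 : 0 < T := Real.rpow_pos_of_pos hq0 _
  have hT1 : 1 ≤ T := Real.one_le_rpow hq1.le (by positivity)
  have hle0 : ∀ i, q ^ γ ≤ ((sym ρ (Ks i)).card : ℝ) := fun i => by
    refine hcon.trans ?_
    have h2 : q ^ κ ≤ Ks i := by
      refine Real.rpow_le_rpow_of_exponent_le hq1.le ?_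
      have : (1 : ℝ) ≤ 5 ^ i := one_le_pow₀ (by norm_num)
      nlinarith
    exact_mod_cast card_le_card (sym_mono ρ h2)
  -- pigeonhole
  obtain ⟨i, hiI, hi⟩ : ∃ i < I, ((sym ρ (Ks (i + 1))).card : ℝ) ≤ T * (sym ρ (Ks i)).card := by
    by_contra hno
    push Not at hno
    have hgrow : ∀ i ≤ I, T ^ i ≤ ((sym ρ (Ks i)).card : ℝ) := by
      intro i
      induction i with
      | zero =>
        intro _
        rw [pow_zero]
        exact (Real.one_le_rpow hq1.le hγ.le).trans (hle0 0)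
      | succ i ih =>
        intro hi
        have h2 := ih (by omega)
        have h3 := hno i (by omega)
        rw [pow_succ, mul_comm]
        exact (mul_le_mul_of_nonneg_left h2 hT0.le).trans h3.le
    have h2 := hgrow I le_rfl
    have h3 : T ^ I = q ^ (I * (γ / 1000)) := by
      rw [hT, ← Real.rpow_natCast, ← Real.rpow_mul hq0.le]
      congr 1
      ring
    have h4 : q < T ^ I := by
      rw [h3]
      calc q = q ^ (1 : ℝ) := (Real.rpow_one q).symm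
        _ < _ := Real.rpow_lt_rpow_of_exponent_lt hq1 hI
    have h5 : ((sym ρ (Ks I)).card : ℝ) ≤ q := by
      have h6 : (sym ρ (Ks I)).card ≤ p := by
        refine (card_le_univ _).trans ?_
        rw [ZMod.card]
      rw [hq]
      exact_mod_cast h6
    linarith
  have hKi1 : 1 ≤ Ks i := by linarith [hKs2 i]
  have hKiy : Ks i ≤ y := hKsy i hiI.le
  -- the scale
  have hbigM : 4 * Ks i ^ 4 ≤ ((sym ρ (Ks i)).card : ℝ) := by
    refine le_trans ?_ (hle0 i)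
    rw [hyγ]
    calc 4 * Ks i ^ 4 ≤ 4 * y ^ 4 := by
          have := pow_le_pow_left₀ (hKs0 i).le hKiy 4
          linarith
      _ ≤ y ^ 2 * y ^ 4 := by
          refine mul_le_mul_of_nonneg_right ?_ (by positivity)
          nlinarith
      _ = y ^ 6 := by ring
      _ ≤ y ^ 10000 := pow_le_pow_right₀ (by linarith) (by norm_num)
  have hMM : ((sym ρ (2 * Ks i ^ 4)).card : ℝ) ≤ T * (sym ρ (Ks i)).card := by
    refine le_trans ?_ hi
    exact_mod_cast card_le_card (sym_mono ρ (hKs4 i))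
  obtain ⟨M1, hM1, hM1a, hM1b⟩ := step ρ h0 h1 P hP0 hP (Ks i) T hKi1 hT1 hbigM hMM
  have hM1a' : ((sym ρ (Ks i)).card : ℝ) ≤ 8 * (16 * Ks i ^ 8 * T) * M1.card := hM1a
  set K1 : ℝ := 16 * Ks i ^ 8 * T with hK1
  have hK10 : 0 ≤ K1 := by positivity
  have hK1y : K1 ≤ 16 * y ^ 18 := by
    rw [hK1, hyT]
    calc 16 * Ks i ^ 8 * y ^ 10 ≤ 16 * y ^ 8 * y ^ 10 := by
          have := pow_le_pow_left₀ (hKs0 i).le hKiy 8
          gcongr
      _ = _ := by ring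
  rcases hM1b with hb | hb
  · have h2 : q ^ γ ≤ 8 * K1 * (256 * (2 ^ 22 * K1 ^ 10) ^ 38) :=
      (hle0 i).trans (hM1a'.trans (mul_le_mul_of_nonneg_left hb (by positivity)))
    have h3 := num_a K1 y hK10 hK1y hy2
    rw [hyγ] at h2
    linarith
  · have h2 : (M1.card : ℝ) ≤ 2 * y * q ^ (1 - γ) := by
      have h3 : (M1.card : ℝ) ≤ (sym ρ (Ks i)).card := by exact_mod_cast card_le_card hM1
      refine h3.trans ?_
      have h4 := sym_card ρ h1 (Ks i) (hKs0 i).le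
      rw [← hq, ← hP] at h4
      have hPlo : q ^ γ ≤ P := by
        rw [hP]
        calc q ^ γ = q * q ^ (-1 + γ) := by
              rw [← Real.rpow_one_add' hq0.le (by linarith)]
              congr 1
              ring
          _ ≤ _ := mul_le_mul_of_nonneg_left hlo hq0.le
      have hPhi : P ≤ q ^ (1 - γ) := by
        rw [hP]
        calc q * ∑ x, ρ x ^ 2 ≤ q * q ^ (-γ) := mul_le_mul_of_nonneg_left hhi hq0.le
          _ = q ^ (1 - γ) := by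
              rw [show (1 : ℝ) - γ = 1 + -γ by ring, Real.rpow_add hq0, Real.rpow_one]
      have h5 : q + P ^ 2 ≤ 2 * q ^ (1 - γ) * P := by
        have h6 : q ≤ q ^ (1 - γ) * P := by
          calc q = q ^ (1 - γ) * q ^ γ := by
                rw [← Real.rpow_add hq0, sub_add_cancel, Real.rpow_one]
            _ ≤ _ := mul_le_mul_of_nonneg_left hPlo (by positivity)
        have h7 : P ^ 2 ≤ q ^ (1 - γ) * P := by
          rw [sq]
          exact mul_le_mul_of_nonneg_right hPhi hP0.le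
        linarith
      have h8 : ((sym ρ (Ks i)).card : ℝ) * P ≤ (2 * y * q ^ (1 - γ)) * P := by
        calc ((sym ρ (Ks i)).card : ℝ) * P ≤ Ks i * (q + P ^ 2) := h4
          _ ≤ y * (2 * q ^ (1 - γ) * P) := mul_le_mul hKiy h5 (by positivity) hy0.le
          _ = _ := by ring
      exact le_of_mul_le_mul_right h8 hP0
    have h3 : q ≤ 64 * (2 ^ 22 * K1 ^ 10) ^ 24 * (2 * y * q ^ (1 - γ)) :=
      hb.trans (mul_le_mul_of_nonneg_left h2 (by positivity))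
    have h4 : q ^ γ * q ^ (1 - γ) ≤ (64 * (2 ^ 22 * K1 ^ 10) ^ 24 * (2 * y)) * q ^ (1 - γ) := by
      calc q ^ γ * q ^ (1 - γ) = q := by
            rw [← Real.rpow_add hq0, add_sub_cancel, Real.rpow_one]
        _ ≤ _ := h3
        _ = _ := by ring
    have h5 := le_of_mul_le_mul_right h4 (Real.rpow_pos_of_pos hq0 _)
    have h6 := num_b K1 y hK10 hK1y hy2
    rw [hyγ] at h5
    linarith

end Pool.Agent.Y881.SP
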