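import Pool.Agent.Y881.SP.Main

set_option autoImplicit false

/-! # Fourier transform of a density on `ZMod p` -/

open Finset

namespace Pool.Agent.Y881.SP

variable {p : ℕ} [Fact p.Prime]

/-- the Fourier transform -/
noncomputable def ft (ρ : ZMod p → ℝ) (ξ : ZMod p) : ℂ :=
  ∑ x, (ρ x : ℂ) * ZMod.stdAddChar (ξ * x)

theorem conj_std (x : ZMod p) :
    (starRingEnd ℂ) (ZMod.stdAddChar x) = ZMod.stdAddChar (-x) := by
  rw [AddChar.map_neg_eq_conj]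

theorem norm_std (x : ZMod p) : ‖ZMod.stdAddChar x‖ = 1 := AddChar.norm_apply _ _

/-- Parseval -/
theorem parseval (ρ : ZMod p → ℝ) : ∑ ξ, ‖ft ρ ξ‖ ^ 2 = p * ∑ x, ρ x ^ 2 := by
  have h : ((∑ ξ, ‖ft ρ ξ‖ ^ 2 : ℝ) : ℂ) = ((p * ∑ x, ρ x ^ 2 : ℝ) : ℂ) := by
    push_cast
    have h1 : ∀ ξ : ZMod p, ((‖ft ρ ξ‖ : ℂ)) ^ 2 =
        ∑ x, ∑ y, (ρ x : ℂ) * ρ y * ZMod.stdAddChar (ξ * (x - y)) := by
      intro ξ
      rw [← Complex.mul_conj', ft, map_sum, sum_mul_sum]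
      refine sum_congr rfl fun x _ => sum_congr rfl fun y _ => ?_
      rw [map_mul (starRingEnd ℂ), Complex.conj_ofReal, conj_std, mul_sub, sub_eq_add_neg,
        AddChar.map_add_eq_mul]
      ring
    rw [sum_congr rfl fun ξ _ => h1 ξ, sum_comm]
    rw [mul_sum]
    refine sum_congr rfl fun x _ => ?_
    rw [sum_comm, sum_eq_single x]
    · rw [← mul_sum, AddChar.sum_mulShift _ (ZMod.isPrimitive_stdAddChar p), sub_self,
        if_pos rfl, ZMod.card]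
      ring
    · intro y _ hy
      rw [← mul_sum, AddChar.sum_mulShift _ (ZMod.isPrimitive_stdAddChar p),
        if_neg (sub_ne_zero.2 (Ne.symm hy))]
      simp
    · intro h; exact absurd (mem_univ _) h
  exact_mod_cast h

theorem ft_le (ρ : ZMod p → ℝ) (h0 : ∀ x, 0 ≤ ρ x) (h1 : ∑ x, ρ x = 1) (ξ : ZMod p) :
    ‖ft ρ ξ‖ ≤ 1 := by
  rw [← h1]
  refine (norm_sum_le _ _).trans (sum_le_sum fun x _ => ?_)
  rw [norm_mul, norm_std, mul_one, Complex.norm_real, Real.norm_of_nonneg (h0 x)]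

theorem ft_zero (ρ : ZMod p → ℝ) (h1 : ∑ x, ρ x = 1) : ft ρ 0 = 1 := by
  simp only [ft, zero_mul, AddChar.map_zero_eq_one, mul_one]
  rw [← Complex.ofReal_sum, h1, Complex.ofReal_one]

/-- the additive closure inequality -/
theorem key (ρ : ZMod p → ℝ) (h0 : ∀ x, 0 ≤ ρ x) (h1 : ∑ x, ρ x = 1) (M : Finset (ZMod p))
    (ξ : ZMod p) :
    (∑ μ ∈ M, ‖ft ρ (μ * ξ)‖) ^ 2 ≤ ∑ μ ∈ M, ∑ ν ∈ M, ‖ft ρ ((μ - ν) * ξ)‖ := by
  obtain ⟨c, hc1, hc2⟩ : ∃ c : ZMod p → ℂ, (∀ μ, ‖c μ‖ ≤ 1) ∧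
      ∀ μ, c μ * ft ρ (μ * ξ) = ‖ft ρ (μ * ξ)‖ := by
    refine ⟨fun μ => (starRingEnd ℂ) (ft ρ (μ * ξ)) / ‖ft ρ (μ * ξ)‖, fun μ => ?_, fun μ => ?_⟩
    · rw [norm_div, Complex.norm_real, RCLike.norm_conj, norm_norm]
      exact div_self_le_one _
    · by_cases h : ft ρ (μ * ξ) = 0
      · rw [h]; simp
      · have h2 : ((‖ft ρ (μ * ξ)‖ : ℝ) : ℂ) ≠ 0 := by
          exact_mod_cast norm_ne_zero_iff.2 h
        rw [div_mul_eq_mul_div, div_eq_iff h2, mul_comm, Complex.mul_conj']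
        ring
  set g : ZMod p → ℂ := fun x => ∑ μ ∈ M, c μ * ZMod.stdAddChar (μ * ξ * x) with hg
  have e1 : ((∑ μ ∈ M, ‖ft ρ (μ * ξ)‖ : ℝ) : ℂ) = ∑ x, (ρ x : ℂ) * g x := by
    push_cast
    rw [← sum_congr rfl fun μ _ => hc2 μ]
    simp only [ft, hg, mul_sum]
    rw [sum_comm]
    refine sum_congr rfl fun x _ => sum_congr rfl fun μ _ => ?_
    ring
  have e2 : ∑ μ ∈ M, ‖ft ρ (μ * ξ)‖ ≤ ∑ x, ρ x * ‖g x‖ := by
    have h2 : ∑ μ ∈ M, ‖ft ρ (μ * ξ)‖ = ‖∑ x, (ρ x : ℂ) * g x‖ := by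
      rw [← e1, Complex.norm_real, Real.norm_of_nonneg (sum_nonneg fun μ _ => norm_nonneg _)]
    rw [h2]
    refine (norm_sum_le _ _).trans (le_of_eq (sum_congr rfl fun x _ => ?_))
    rw [norm_mul, Complex.norm_real, Real.norm_of_nonneg (h0 x)]
  have e3 : (∑ x, ρ x * ‖g x‖) ^ 2 ≤ ∑ x, ρ x * ‖g x‖ ^ 2 := by
    have h3 := sum_mul_sq_le_sq_mul_sq (univ : Finset (ZMod p)) (fun x => Real.sqrt (ρ x))
      (fun x => Real.sqrt (ρ x) * ‖g x‖)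
    have h4 : ∑ x, Real.sqrt (ρ x) * (Real.sqrt (ρ x) * ‖g x‖) = ∑ x, ρ x * ‖g x‖ := by
      refine sum_congr rfl fun x _ => ?_
      rw [← mul_assoc, Real.mul_self_sqrt (h0 x)]
    have h5 : ∑ x, Real.sqrt (ρ x) ^ 2 = 1 := by
      rw [← h1]
      exact sum_congr rfl fun x _ => Real.sq_sqrt (h0 x)
    have h6 : ∑ x, (Real.sqrt (ρ x) * ‖g x‖) ^ 2 = ∑ x, ρ x * ‖g x‖ ^ 2 := by
      refine sum_congr rfl fun x _ => ?_
      rw [mul_pow, Real.sq_sqrt (h0 x)]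
    rw [h4, h5, h6, one_mul] at h3
    exact h3
  have e4 : ((∑ x, ρ x * ‖g x‖ ^ 2 : ℝ) : ℂ) =
      ∑ μ ∈ M, ∑ ν ∈ M, c μ * (starRingEnd ℂ) (c ν) * ft ρ ((μ - ν) * ξ) := by
    push_cast
    have h2 : ∀ x : ZMod p, (ρ x : ℂ) * (‖g x‖ : ℂ) ^ 2 =
        ∑ μ ∈ M, ∑ ν ∈ M, c μ * (starRingEnd ℂ) (c ν) *
          ((ρ x : ℂ) * ZMod.stdAddChar ((μ - ν) * ξ * x)) := by
      intro x
      rw [← Complex.mul_conj', hg]
      simp only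
      rw [map_sum, sum_mul_sum, mul_sum]
      refine sum_congr rfl fun μ _ => ?_
      rw [mul_sum]
      refine sum_congr rfl fun ν _ => ?_
      rw [map_mul (starRingEnd ℂ), conj_std, show (μ - ν) * ξ * x = μ * ξ * x + -(ν * ξ * x) by ring,
        AddChar.map_add_eq_mul]
      ring
    rw [sum_congr rfl fun x _ => h2 x, sum_comm]
    refine sum_congr rfl fun μ _ => ?_
    rw [sum_comm]
    refine sum_congr rfl fun ν _ => ?_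
    rw [← mul_sum]
    rfl
  have e5 : ∑ x, ρ x * ‖g x‖ ^ 2 ≤ ∑ μ ∈ M, ∑ ν ∈ M, ‖ft ρ ((μ - ν) * ξ)‖ := by
    have h2 : ∑ x, ρ x * ‖g x‖ ^ 2 =
        ‖∑ μ ∈ M, ∑ ν ∈ M, c μ * (starRingEnd ℂ) (c ν) * ft ρ ((μ - ν) * ξ)‖ := by
      rw [← e4, Complex.norm_real, Real.norm_of_nonneg
        (sum_nonneg fun x _ => mul_nonneg (h0 x) (by positivity))]
    rw [h2]
    refine (norm_sum_le _ _).trans (sum_le_sum fun μ _ => ?_)
    refine (norm_sum_le _ _).trans (sum_le_sum fun ν _ => ?_)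
    rw [norm_mul, norm_mul, RCLike.norm_conj]
    calc ‖c μ‖ * ‖c ν‖ * ‖ft ρ ((μ - ν) * ξ)‖ ≤ 1 * 1 * ‖ft ρ ((μ - ν) * ξ)‖ := by
          gcongr
          · exact hc1 μ
          · exact hc1 ν
      _ = _ := by ring
  calc (∑ μ ∈ M, ‖ft ρ (μ * ξ)‖) ^ 2 ≤ (∑ x, ρ x * ‖g x‖) ^ 2 :=
        pow_le_pow_left₀ (sum_nonneg fun μ _ => norm_nonneg _) e2 2
    _ ≤ _ := e3
    _ ≤ _ := e5

/-- the Fourier side energy of `ρ` and its dilate -/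
noncomputable def J (ρ : ZMod p → ℝ) (μ : ZMod p) : ℝ :=
  ∑ ξ, ‖ft ρ ξ‖ ^ 2 * ‖ft ρ (μ * ξ)‖ ^ 2

/-- the convolution of `ρ` with its dilate -/
noncomputable def conv (ρ : ZMod p → ℝ) (μ z : ZMod p) : ℝ := ∑ y, ρ (z - μ * y) * ρ y

theorem ft_conv (ρ : ZMod p → ℝ) (μ ξ : ZMod p) :
    ft (conv ρ μ) ξ = ft ρ ξ * ft ρ (μ * ξ) := by
  unfold ft conv
  rw [sum_mul_sum]
  have h1 : ∀ z : ZMod p, ((∑ y, ρ (z - μ * y) * ρ y : ℝ) : ℂ) * ZMod.stdAddChar (ξ * z) =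
      ∑ y, (ρ (z - μ * y) : ℂ) * ρ y * ZMod.stdAddChar (ξ * z) := by
    intro z
    push_cast
    rw [sum_mul]
  rw [sum_congr rfl fun z _ => h1 z, sum_comm, sum_comm (s := univ) (t := univ)
    (f := fun x y => (ρ x : ℂ) * ZMod.stdAddChar (ξ * x) * ((ρ y : ℂ) *
      ZMod.stdAddChar (μ * ξ * y)))]
  refine sum_congr rfl fun y _ => ?_
  rw [← Equiv.sum_comp (Equiv.addRight (μ * y))]
  refine sum_congr rfl fun x _ => ?_
  simp only [Equiv.coe_addRight, add_sub_cancel_right]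
  rw [mul_add, AddChar.map_add_eq_mul, show ξ * (μ * y) = μ * ξ * y by ring]
  ring

theorem J_eq (ρ : ZMod p → ℝ) (μ : ZMod p) : J ρ μ = p * ∑ z, conv ρ μ z ^ 2 := by
  rw [← parseval]
  unfold J
  refine sum_congr rfl fun ξ _ => ?_
  rw [ft_conv, norm_mul, mul_pow]

end Pool.Agent.Y881.SP
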