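import Pool.Agent.Y881.SP.Energy

set_option autoImplicit false

/-! # A sum-product inequality: few differences and large multiplicative energy -/

open Finset
open scoped Pointwise Combinatorics.Additive

namespace Pool.Agent.Y881.SP

variable {p : ℕ} [Fact p.Prime]

/-- a set with few differences and large multiplicative energy is tiny or huge -/
theorem sum_product (X : Finset (ZMod p)) (h0 : (0 : ZMod p) ∉ X) (K : ℝ) (hK1 : 1 ≤ K)
    (hK : ((X - X).card : ℝ) ≤ K * X.card)
    (hE : (X.card : ℝ) ^ 3 ≤ K * ∑ b ∈ X, ∑ a ∈ X, (((a • X) ∩ (b • X)).card : ℝ)) :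
    (X.card : ℝ) ≤ 256 * K ^ 38 ∨ (p : ℝ) ≤ 64 * K ^ 24 * X.card := by
  classical
  rcases X.eq_empty_or_nonempty with rfl | hX
  · left
    simp only [card_empty, Nat.cast_zero]
    positivity
  have hn : (0 : ℝ) < X.card := by exact_mod_cast hX.card_pos
  set n : ℝ := (X.card : ℝ) with hnd
  have hK0 : (0 : ℝ) < K := by linarith
  -- the base point
  obtain ⟨b₀, hb₀, hb⟩ : ∃ b ∈ X, n ^ 2 ≤ K * ∑ a ∈ X, (((a • X) ∩ (b • X)).card : ℝ) := by
    apply exists_le_of_sum_le hX
    rw [sum_const, nsmul_eq_mul, ← mul_sum]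
    calc (X.card : ℝ) * n ^ 2 = n ^ 3 := by rw [← hnd]; ring
      _ ≤ _ := hE
  have hb00 : b₀ ≠ 0 := fun h => h0 (h ▸ hb₀)
  set X1 := X.filter fun a => n ≤ (2 * K) * (((a • X) ∩ (b₀ • X)).card : ℝ) with hX1
  have hX1X : X1 ⊆ X := filter_subset _ _
  have hX1c : n ≤ 2 * K * X1.card := by
    have h1 : ∑ a ∈ X, (((a • X) ∩ (b₀ • X)).card : ℝ) ≤ X1.card * n + n * (n / (2 * K)) := by
      rw [← sum_filter_add_sum_filter_not X
        (fun a => n ≤ (2 * K) * (((a • X) ∩ (b₀ • X)).card : ℝ))]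
      refine add_le_add ?_ ?_
      · rw [← nsmul_eq_mul]
        refine sum_le_card_nsmul _ _ _ fun a ha => ?_
        have ha0 : a ≠ 0 := fun h => h0 (h ▸ hX1X ha)
        have h2 : ((a • X) ∩ (b₀ • X)).card ≤ X.card := by
          refine (card_le_card inter_subset_left).trans ?_
          rw [card_smul' a ha0]
        rw [hnd]
        exact_mod_cast h2
      · have h3 : ∀ a ∈ X.filter (fun a => ¬ n ≤ (2 * K) * (((a • X) ∩ (b₀ • X)).card : ℝ)),
            (((a • X) ∩ (b₀ • X)).card : ℝ) ≤ n / (2 * K) := by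
          intro a ha
          rw [le_div_iff₀ (by positivity)]
          have := (mem_filter.1 ha).2
          rw [mul_comm]
          exact (not_le.1 this).le
        refine (sum_le_card_nsmul _ _ _ h3).trans ?_
        rw [nsmul_eq_mul]
        refine mul_le_mul_of_nonneg_right ?_ (by positivity)
        rw [hnd]
        exact_mod_cast card_le_card (filter_subset _ X)
    have h2 : n ^ 2 ≤ K * (X1.card * n + n * (n / (2 * K))) :=
      hb.trans (mul_le_mul_of_nonneg_left h1 hK0.le)
    have h3 : K * (X1.card * n + n * (n / (2 * K))) = K * X1.card * n + n ^ 2 / 2 := by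
      field_simp
    rw [h3] at h2
    have h4 : n * n ≤ (2 * K * X1.card) * n := by nlinarith
    exact le_of_mul_le_mul_right h4 hn
  by_cases h1c : 1 < X1.card
  swap
  · left
    have h2 : (X1.card : ℝ) ≤ 1 := by exact_mod_cast not_lt.1 h1c
    have h3 : n ≤ 2 * K := by
      calc n ≤ 2 * K * X1.card := hX1c
        _ ≤ 2 * K * 1 := mul_le_mul_of_nonneg_left h2 (by positivity)
        _ = 2 * K := mul_one _
    have h4 : K ^ 1 ≤ K ^ 38 := pow_le_pow_right₀ hK1 (by norm_num)
    rw [pow_one] at h4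
    linarith
  -- the calculus
  set Y := b₀ • X with hY
  have hYn : Y.Nonempty := hX.smul_finset
  have hYc : (Y.card : ℝ) = n := by rw [hY, card_smul' b₀ hb00]
  have hYd : ((Y - Y).card : ℝ) ≤ K * Y.card := by
    rw [hYc, hY, sub_eq_add_neg, ← Finset.smul_finset_neg, ← smul_add, ← sub_eq_add_neg,
      Finset.card_smul_finset₀ hb00]
    exact hK
  have hYj := iter_sum Y hYn K hYd
  have hnear : ∀ a ∈ X1, ((a • X + Y).card : ℝ) ≤ (2 * K ^ 5) * Y.card ∧
      ((-(a • X) + Y).card : ℝ) ≤ (2 * K ^ 5) * Y.card := by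
    intro a ha
    have ha0 : a ≠ 0 := fun h => h0 (h ▸ hX1X ha)
    have h1 := dil_add X hX K (2 * K) hK1 hK a b₀ ha0 hb00 (mem_filter.1 ha).2
    have e : K ^ 4 * (2 * K) * X.card = (2 * K ^ 5) * Y.card := by rw [hYc, ← hnd]; ring
    rw [e] at h1
    exact h1
  have hmem : ∀ a x : ZMod p, x ∈ X1 → a * x ∈ a • X := fun a x hx => by
    rw [← smul_eq_mul]
    exact smul_mem_smul_finset (hX1X hx)
  have hmemn : ∀ a x : ZMod p, x ∈ X1 → -(a * x) ∈ -(a • X) := fun a x hx =>
    neg_mem_neg (hmem a x hx)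
  by_cases hq : quot X1 = Set.univ
  · obtain ⟨ξ, hξ0, hξ⟩ := exists_dil X1 (card_pos.1 (by omega))
    have hξq : ξ ∈ quot X1 := by rw [hq]; trivial
    obtain ⟨a, ha, b, hb', c, hc, d, hd, hcd, hr⟩ := hξq
    have hcd0 : c - d ≠ 0 := sub_ne_zero.2 hcd
    set l : List (Finset (ZMod p)) := [c • X, -(d • X), a • X, -(b • X)] with hl
    have hsub : (c - d) • (X1 + ξ • X1) ⊆ l.sum + 0 • Y := by
      intro z hz
      obtain ⟨w, hw, rfl⟩ := mem_smul_finset.1 hz
      obtain ⟨x, hx, w', hw', rfl⟩ := mem_add.1 hw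
      obtain ⟨y, hy, rfl⟩ := mem_smul_finset.1 hw'
      have e : (c - d) • (x + ξ • y) =
          (c * x + (-(d * x) + (a * y + (-(b * y) + 0)))) + 0 := by
        simp only [smul_eq_mul]
        linear_combination y * hr
      rw [e]
      refine add_mem_add ?_ (by simp)
      simp only [hl, List.sum_cons, List.sum_nil]
      exact add_mem_add (hmem _ _ hx) (add_mem_add (hmemn _ _ hx) (add_mem_add (hmem _ _ hy)
        (add_mem_add (hmemn _ _ hy) (by simp))))
    have hle := near_sum Y hYn (2 * K ^ 5) K (by positivity) hYj l (by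
      intro P hP
      simp only [hl, List.mem_cons, List.not_mem_nil, or_false] at hP
      rcases hP with rfl | rfl | rfl | rfl
      · exact (hnear c hc).1
      · exact (hnear d hd).2
      · exact (hnear a ha).1
      · exact (hnear b hb').2) 0
    have hW : ((X1 + ξ • X1).card : ℝ) ≤ 16 * K ^ 24 * n := by
      have h1 : (((c - d) • (X1 + ξ • X1)).card : ℝ) ≤ ((l.sum + 0 • Y).card : ℝ) := by
        exact_mod_cast card_le_card hsub
      rw [card_smul' _ hcd0] at h1
      refine (h1.trans hle).trans (le_of_eq ?_)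
      rw [hYc]
      simp only [hl, List.length_cons, List.length_nil]
      ring
    have hpr : (1 : ℝ) ≤ (p : ℝ) - 1 := by
      have : (2 : ℝ) ≤ p := by exact_mod_cast (Fact.out : p.Prime).two_le
      linarith
    have hx1 : (0 : ℝ) < X1.card := by
      have : (1 : ℝ) < X1.card := by exact_mod_cast h1c
      linarith
    have h2 : (X1.card : ℝ) ^ 2 * ((p : ℝ) - 1) ≤
        (16 * K ^ 24 * n) * (((p : ℝ) - 1) + (X1.card : ℝ) ^ 2) :=
      hξ.trans (mul_le_mul_of_nonneg_right hW (by positivity))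
    rcases le_total ((X1.card : ℝ) ^ 2) ((p : ℝ) - 1) with h3 | h3
    · left
      have h4 : (X1.card : ℝ) ^ 2 * ((p : ℝ) - 1) ≤ (32 * K ^ 24 * n) * ((p : ℝ) - 1) := by
        refine h2.trans ?_
        calc (16 * K ^ 24 * n) * (((p : ℝ) - 1) + (X1.card : ℝ) ^ 2)
            ≤ (16 * K ^ 24 * n) * (((p : ℝ) - 1) + ((p : ℝ) - 1)) := by gcongr
          _ = _ := by ring
      have h5 : (X1.card : ℝ) ^ 2 ≤ 32 * K ^ 24 * n := le_of_mul_le_mul_right h4 (by linarith)
      have h6 : n * n ≤ (128 * K ^ 26) * n := by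
        calc n * n ≤ (2 * K * X1.card) * (2 * K * X1.card) :=
              mul_le_mul hX1c hX1c hn.le (by positivity)
          _ = 4 * K ^ 2 * (X1.card : ℝ) ^ 2 := by ring
          _ ≤ 4 * K ^ 2 * (32 * K ^ 24 * n) := mul_le_mul_of_nonneg_left h5 (by positivity)
          _ = _ := by ring
      have h7 : n ≤ 128 * K ^ 26 := le_of_mul_le_mul_right h6 hn
      have h8 : K ^ 26 ≤ K ^ 38 := pow_le_pow_right₀ hK1 (by norm_num)
      have h9 : (0 : ℝ) ≤ K ^ 38 := by positivity
      linarith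
    · right
      have h4 : (X1.card : ℝ) ^ 2 * ((p : ℝ) - 1) ≤ (X1.card : ℝ) ^ 2 * (32 * K ^ 24 * n) := by
        refine h2.trans ?_
        calc (16 * K ^ 24 * n) * (((p : ℝ) - 1) + (X1.card : ℝ) ^ 2)
            ≤ (16 * K ^ 24 * n) * ((X1.card : ℝ) ^ 2 + (X1.card : ℝ) ^ 2) := by gcongr
          _ = _ := by ring
      have h5 : (p : ℝ) - 1 ≤ 32 * K ^ 24 * n := le_of_mul_le_mul_left h4 (by positivity)
      linarith
  · left
    obtain ⟨r, ⟨a, ha, b, hb', c, hc, d, hd, hcd, hr⟩, hr1⟩ := exists_succ X1 h1c hq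
    have hcd0 : c - d ≠ 0 := sub_ne_zero.2 hcd
    set l : List (Finset (ZMod p)) :=
      [c • X, -(d • X), a • X, -(b • X), c • X, -(d • X)] with hl
    have hsub : (c - d) • (X1 + (r + 1) • X1) ⊆ l.sum + 0 • Y := by
      intro z hz
      obtain ⟨w, hw, rfl⟩ := mem_smul_finset.1 hz
      obtain ⟨x, hx, w', hw', rfl⟩ := mem_add.1 hw
      obtain ⟨y, hy, rfl⟩ := mem_smul_finset.1 hw'
      have e : (c - d) • (x + (r + 1) • y) =
          (c * x + (-(d * x) + (a * y + (-(b * y) + (c * y + (-(d * y) + 0)))))) + 0 := by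
        simp only [smul_eq_mul]
        linear_combination y * hr
      rw [e]
      refine add_mem_add ?_ (by simp)
      simp only [hl, List.sum_cons, List.sum_nil]
      exact add_mem_add (hmem _ _ hx) (add_mem_add (hmemn _ _ hx) (add_mem_add (hmem _ _ hy)
        (add_mem_add (hmemn _ _ hy) (add_mem_add (hmem _ _ hy)
        (add_mem_add (hmemn _ _ hy) (by simp))))))
    have hle := near_sum Y hYn (2 * K ^ 5) K (by positivity) hYj l (by
      intro P hP
      simp only [hl, List.mem_cons, List.not_mem_nil, or_false] at hP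
      rcases hP with rfl | rfl | rfl | rfl | rfl | rfl
      · exact (hnear c hc).1
      · exact (hnear d hd).2
      · exact (hnear a ha).1
      · exact (hnear b hb').2
      · exact (hnear c hc).1
      · exact (hnear d hd).2) 0
    have hW : ((X1 + (r + 1) • X1).card : ℝ) ≤ 64 * K ^ 36 * n := by
      have h1 : (((c - d) • (X1 + (r + 1) • X1)).card : ℝ) ≤ ((l.sum + 0 • Y).card : ℝ) := by
        exact_mod_cast card_le_card hsub
      rw [card_smul' _ hcd0] at h1
      refine (h1.trans hle).trans (le_of_eq ?_)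
      rw [hYc]
      simp only [hl, List.length_cons, List.length_nil]
      ring
    have h5 : (X1.card : ℝ) ^ 2 ≤ 64 * K ^ 36 * n := by
      refine le_trans ?_ hW
      exact_mod_cast inj_of_notMem X1 (r + 1) hr1
    have h6 : n * n ≤ (256 * K ^ 38) * n := by
      calc n * n ≤ (2 * K * X1.card) * (2 * K * X1.card) :=
            mul_le_mul hX1c hX1c hn.le (by positivity)
        _ = 4 * K ^ 2 * (X1.card : ℝ) ^ 2 := by ring
        _ ≤ 4 * K ^ 2 * (64 * K ^ 36 * n) := mul_le_mul_of_nonneg_left h5 (by positivity)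
        _ = _ := by ring
    exact le_of_mul_le_mul_right h6 hn

end Pool.Agent.Y881.SP
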