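import Mathlib

set_option autoImplicit false

/-! # Ruzsa calculus for dilates of a set with small doubling -/

open Finset
open scoped Pointwise

namespace Pool.Agent.Y881.SP

/-- sums of several sets each of which has a small sumset with `Y` -/
theorem near_sum {G : Type*} [AddCommGroup G] [DecidableEq G] (Y : Finset G) (hY : Y.Nonempty)
    (κ L : ℝ) (hκ : 0 ≤ κ) (hYj : ∀ j : ℕ, ((j • Y).card : ℝ) ≤ L ^ j * Y.card) :
    ∀ (l : List (Finset G)), (∀ P ∈ l, ((P + Y).card : ℝ) ≤ κ * Y.card) →
      ∀ j : ℕ, ((l.sum + j • Y).card : ℝ) ≤ κ ^ l.length * L ^ (l.length + j) * Y.card := by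
  have hc : (0 : ℝ) < Y.card := by exact_mod_cast hY.card_pos
  intro l
  induction l with
  | nil =>
    intro _ j
    simpa using hYj j
  | cons P l ih =>
    intro h j
    have h1 := ih (fun Q hQ => h Q (List.mem_cons_of_mem _ hQ)) (j + 1)
    have h2 := h P List.mem_cons_self
    have h3 := ruzsa_triangle_inequality_add_add_add P Y (l.sum + j • Y)
    have e1 : P + (l.sum + j • Y) = (P :: l).sum + j • Y := by
      rw [List.sum_cons, add_assoc]
    have e2 : Y + (l.sum + j • Y) = l.sum + (j + 1) • Y := by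
      rw [succ_nsmul]
      abel
    rw [e1, e2] at h3
    have h4 : ((((P :: l).sum + j • Y).card : ℝ)) * Y.card ≤
        (κ * Y.card) * (κ ^ l.length * L ^ (l.length + (j + 1)) * Y.card) := by
      calc ((((P :: l).sum + j • Y).card : ℝ)) * Y.card
          ≤ ((P + Y).card : ℝ) * ((l.sum + (j + 1) • Y).card : ℝ) := by exact_mod_cast h3
        _ ≤ _ := mul_le_mul h2 h1 (Nat.cast_nonneg _) (by positivity)
    have h5 : (κ * Y.card) * (κ ^ l.length * L ^ (l.length + (j + 1)) * Y.card) =
        (κ ^ (P :: l).length * L ^ ((P :: l).length + j) * Y.card) * Y.card := by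
      rw [List.length_cons, pow_succ κ l.length, show l.length + 1 + j = l.length + (j + 1) by ring]
      ring
    rw [h5] at h4
    exact le_of_mul_le_mul_right h4 hc

/-- iterated sumsets of a set with few differences -/
theorem iter_sum {G : Type*} [AddCommGroup G] [DecidableEq G] (X : Finset G) (hX : X.Nonempty)
    (K : ℝ) (hK : ((X - X).card : ℝ) ≤ K * X.card) (j : ℕ) :
    ((j • X).card : ℝ) ≤ K ^ j * X.card := by
  have hc : (0 : ℝ) < X.card := by exact_mod_cast hX.card_pos
  have h := pluennecke_ruzsa_inequality_nsmul_sub hX X j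
  have h' : ((j • X).card : ℝ) ≤ (((X - X).card : ℝ) / X.card) ^ j * X.card := by
    have h1 := (NNRat.cast_le (K := ℝ)).2 h
    push_cast at h1
    exact h1
  refine h'.trans ?_
  refine mul_le_mul_of_nonneg_right ?_ hc.le
  refine pow_le_pow_left₀ (by positivity) ?_ _
  rw [div_le_iff₀ hc]
  exact hK

variable {p : ℕ} [Fact p.Prime]

theorem card_smul' (a : ZMod p) (ha : a ≠ 0) (X : Finset (ZMod p)) : (a • X).card = X.card := by
  rw [Finset.card_smul_finset₀ ha]

/-- two dilates with a large intersection have small sum and difference sets -/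
theorem dil_add (X : Finset (ZMod p)) (hX : X.Nonempty) (K M : ℝ) (hK1 : 1 ≤ K)
    (hK : ((X - X).card : ℝ) ≤ K * X.card) (a b : ZMod p) (ha : a ≠ 0) (hb : b ≠ 0)
    (hI : (X.card : ℝ) ≤ M * ((a • X) ∩ (b • X)).card) :
    ((a • X + b • X).card : ℝ) ≤ K ^ 4 * M * X.card ∧
    ((-(a • X) + b • X).card : ℝ) ≤ K ^ 4 * M * X.card := by
  have hc : (0 : ℝ) < X.card := by exact_mod_cast hX.card_pos
  set I := (a • X) ∩ (b • X) with hIdef
  have hM : 0 < M := by
    by_contra hcon
    have : M * (I.card : ℝ) ≤ 0 := mul_nonpos_of_nonpos_of_nonneg (not_lt.1 hcon) (Nat.cast_nonneg _)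
    linarith
  have hIc : (0 : ℝ) < I.card := by
    by_contra hcon
    have h0 : (I.card : ℝ) = 0 := le_antisymm (not_lt.1 hcon) (Nat.cast_nonneg _)
    rw [h0, mul_zero] at hI
    linarith
  have h2 := iter_sum X hX K hK 2
  have h2' : ((X + X).card : ℝ) ≤ K ^ 2 * X.card := by rwa [two_nsmul] at h2
  -- for any c ≠ 0
  have hs : ∀ c : ZMod p, c ≠ 0 → ((c • X + c • X).card : ℝ) ≤ K ^ 2 * X.card := by
    intro c hc0
    rw [← smul_add, Finset.card_smul_finset₀ hc0]
    exact h2'
  have hd : ∀ c : ZMod p, c ≠ 0 → ((c • X - c • X).card : ℝ) ≤ K * X.card := by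
    intro c hc0
    rw [sub_eq_add_neg, ← Finset.smul_finset_neg, ← smul_add, ← sub_eq_add_neg,
      Finset.card_smul_finset₀ hc0]
    exact hK
  constructor
  · have h3 := ruzsa_triangle_inequality_add_add_add (a • X) I (b • X)
    have h4 : ((a • X + I).card : ℝ) ≤ K ^ 2 * X.card :=
      le_trans (by exact_mod_cast card_le_card (add_subset_add_left inter_subset_left)) (hs a ha)
    have h5 : ((I + b • X).card : ℝ) ≤ K ^ 2 * X.card :=
      le_trans (by exact_mod_cast card_le_card (add_subset_add_right inter_subset_right)) (hs b hb)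
    have h6 : ((a • X + b • X).card : ℝ) * I.card ≤ (K ^ 2 * X.card) * (K ^ 2 * X.card) :=
      le_trans (by exact_mod_cast h3) (mul_le_mul h4 h5 (Nat.cast_nonneg _) (by positivity))
    have h7 : (K ^ 2 * X.card) * (K ^ 2 * X.card) ≤ (K ^ 4 * M * X.card) * I.card := by
      have : (K ^ 2 * X.card) * (K ^ 2 * X.card) = (K ^ 4 * X.card) * X.card := by ring
      rw [this]
      calc (K ^ 4 * X.card) * (X.card : ℝ) ≤ (K ^ 4 * X.card) * (M * I.card) :=
            mul_le_mul_of_nonneg_left hI (by positivity)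
        _ = _ := by ring
    exact le_of_mul_le_mul_right (h6.trans h7) hIc
  · have h3 := ruzsa_triangle_inequality_sub_sub_sub (b • X) I (a • X)
    have h4 : ((b • X - I).card : ℝ) ≤ K * X.card :=
      le_trans (by exact_mod_cast card_le_card (sub_subset_sub_left inter_subset_right)) (hd b hb)
    have h5 : ((a • X - I).card : ℝ) ≤ K * X.card :=
      le_trans (by exact_mod_cast card_le_card (sub_subset_sub_left inter_subset_left)) (hd a ha)
    have h6 : ((b • X - a • X).card : ℝ) * I.card ≤ (K * X.card) * (K * X.card) :=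
      le_trans (by exact_mod_cast h3) (mul_le_mul h4 h5 (Nat.cast_nonneg _) (by positivity))
    have h7 : (K * X.card) * (K * X.card) ≤ (K ^ 4 * M * X.card) * I.card := by
      have : (K * X.card) * (K * X.card) = (K ^ 2 * X.card) * X.card := by ring
      rw [this]
      have hK24 : K ^ 2 ≤ K ^ 4 := pow_le_pow_right₀ hK1 (by norm_num)
      calc (K ^ 2 * X.card) * (X.card : ℝ) ≤ (K ^ 4 * X.card) * (M * I.card) :=
            mul_le_mul (mul_le_mul_of_nonneg_right hK24 hc.le) hI hc.le (by positivity)
        _ = _ := by ring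
    rw [add_comm, ← sub_eq_add_neg]
    exact le_of_mul_le_mul_right (h6.trans h7) hIc

end Pool.Agent.Y881.SP
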