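import Pool.Agent.Y881.SP.Close
import Pool.Agent.H217R3.AK.Bsg

set_option autoImplicit false

/-! # One scale of the argument -/

open Finset
open scoped Pointwise Combinatorics.Additive

namespace Pool.Agent.Y881.SP

variable {p : ℕ} [Fact p.Prime]

theorem diff_energy (M U : Finset (ZMod p)) :
    ((M ×ˢ M).filter fun q => q.1 - q.2 ∈ U).card ^ 2 ≤ U.card * M.addEnergy M := by
  refine (fiber_cs (M ×ˢ M) U (fun q => q.1 - q.2)).trans (Nat.mul_le_mul_left _ ?_)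
  unfold Finset.addEnergy
  refine card_le_card_of_injOn (fun q => ((q.1.1, q.2.1), (q.2.2, q.1.2))) ?_ ?_
  · intro q hq
    rw [mem_coe, mem_filter, mem_product, mem_product, mem_product] at hq
    rw [mem_coe, mem_filter, mem_product, mem_product, mem_product]
    obtain ⟨⟨⟨h1, h2⟩, h3, h4⟩, h5⟩ := hq
    exact ⟨⟨⟨h1, h3⟩, h4, h2⟩, by linear_combination h5⟩
  · rintro ⟨⟨a, b⟩, c, d⟩ _ ⟨⟨a', b'⟩, c', d'⟩ _ h
    simp only [Prod.mk.injEq] at h
    obtain ⟨⟨rfl, rfl⟩, rfl, rfl⟩ := h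
    rfl

theorem quot_energy (M U : Finset (ZMod p)) (hM : (0 : ZMod p) ∉ M) :
    ((M ×ˢ M).filter fun q => q.2 / q.1 ∈ U).card ^ 2 ≤
      U.card * ∑ b ∈ M, ∑ a ∈ M, ((a • M) ∩ (b • M)).card := by
  classical
  refine (fiber_cs (M ×ˢ M) U (fun q => q.2 / q.1)).trans (Nat.mul_le_mul_left _ ?_)
  have e : ∑ b ∈ M, ∑ a ∈ M, ((a • M) ∩ (b • M)).card =
      (M.sigma fun b => M.sigma fun a => (a • M) ∩ (b • M)).card := by
    rw [card_sigma]
    exact sum_congr rfl fun b _ => (card_sigma _ _).symm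
  rw [e]
  refine card_le_card_of_injOn
    (fun q => (⟨q.2.2, ⟨q.1.2, q.1.2 * q.2.1⟩⟩ : Σ _ : ZMod p, Σ _ : ZMod p, ZMod p)) ?_ ?_
  · intro q hq
    rw [mem_coe, mem_filter, mem_product, mem_product, mem_product] at hq
    obtain ⟨⟨⟨h1, h2⟩, h3, h4⟩, h5⟩ := hq
    rw [mem_coe, mem_sigma]
    refine ⟨h4, mem_sigma.2 ⟨h2, mem_inter.2 ⟨?_, ?_⟩⟩⟩
    · exact smul_mem_smul_finset h3
    · have n1 : q.1.1 ≠ 0 := fun h => hM (h ▸ h1)
      have n3 : q.2.1 ≠ 0 := fun h => hM (h ▸ h3)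
      have e2 : q.1.2 * q.2.1 = q.2.2 • q.1.1 := by
        rw [smul_eq_mul]
        have := (div_eq_div_iff n1 n3).1 h5
        exact this
      simp only
      rw [e2]
      exact smul_mem_smul_finset h1
  · rintro ⟨⟨a, b⟩, c, d⟩ hq ⟨⟨a', b'⟩, c', d'⟩ hq' h
    rw [mem_coe, mem_filter, mem_product, mem_product, mem_product] at hq hq'
    simp only at hq hq'
    obtain ⟨⟨⟨h1, h2⟩, h3, h4⟩, h5⟩ := hq
    obtain ⟨⟨⟨k1, k2⟩, k3, k4⟩, k5⟩ := hq'
    simp only [Sigma.mk.injEq, heq_eq_eq] at h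
    obtain ⟨rfl, rfl, h6⟩ := h
    have nb : b ≠ 0 := fun h => hM (h ▸ h2)
    have nd : d ≠ 0 := fun h => hM (h ▸ h4)
    have hc : c = c' := mul_left_cancel₀ nb h6
    subst hc
    have nc : c ≠ 0 := fun h => hM (h ▸ h3)
    have na : a ≠ 0 := fun h => hM (h ▸ h1)
    have na' : a' ≠ 0 := fun h => hM (h ▸ k1)
    have e1 : b / a = b / a' := h5.trans k5.symm
    have e2 := (div_eq_div_iff na na').1 e1
    have e3 : a' = a := mul_left_cancel₀ nb e2
    rw [e3]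

open Classical in
theorem step (ρ : ZMod p → ℝ) (h0 : ∀ x, 0 ≤ ρ x) (h1 : ∑ x, ρ x = 1) (P : ℝ) (hP0 : 0 < P)
    (hP : P = p * ∑ x, ρ x ^ 2) (K T : ℝ) (hK : 1 ≤ K) (hT : 1 ≤ T)
    (hMc : 4 * K ^ 4 ≤ ((univ.filter fun μ : ZMod p => μ ≠ 0 ∧ P ≤ K * J ρ μ).card : ℝ))
    (hMM : ((univ.filter fun μ : ZMod p => μ ≠ 0 ∧ P ≤ (2 * K ^ 4) * J ρ μ).card : ℝ) ≤
      T * (univ.filter fun μ : ZMod p => μ ≠ 0 ∧ P ≤ K * J ρ μ).card) :
    ∃ M1 ⊆ (univ.filter fun μ : ZMod p => μ ≠ 0 ∧ P ≤ K * J ρ μ),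
      ((univ.filter fun μ : ZMod p => μ ≠ 0 ∧ P ≤ K * J ρ μ).card : ℝ) ≤
        8 * (16 * K ^ 8 * T) * M1.card ∧
      ((M1.card : ℝ) ≤ 256 * (2 ^ 22 * (16 * K ^ 8 * T) ^ 10) ^ 38 ∨
        (p : ℝ) ≤ 64 * (2 ^ 22 * (16 * K ^ 8 * T) ^ 10) ^ 24 * M1.card) := by
  set M := univ.filter fun μ : ZMod p => μ ≠ 0 ∧ P ≤ K * J ρ μ with hM
  set M' := univ.filter fun μ : ZMod p => μ ≠ 0 ∧ P ≤ (2 * K ^ 4) * J ρ μ with hM'
  have hK0 : 0 < K := by linarith
  have hT0 : 0 < T := by linarith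
  have hK4 : 1 ≤ K ^ 4 := one_le_pow₀ hK
  have hMpos : (0 : ℝ) < M.card := by
    have : (0 : ℝ) < 4 * K ^ 4 := by positivity
    linarith
  have hMne : M.Nonempty := by
    rw [← card_pos]
    exact_mod_cast hMpos
  have hM0 : ∀ μ ∈ M, μ ≠ 0 := fun μ hμ => (mem_filter.1 hμ).2.1
  have hJn : ∀ μ, 0 ≤ J ρ μ := fun μ => sum_nonneg fun ξ _ => by positivity
  have hsub : ∀ N ⊆ M, (N.card : ℝ) * P ≤ K * ∑ μ ∈ N, J ρ μ := by
    intro N hN
    rw [mul_sum, ← nsmul_eq_mul]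
    exact card_nsmul_le_sum _ _ _ fun μ hμ => (mem_filter.1 (hN hμ)).2.2
  -- additive energy
  set D := (M ×ˢ M).filter fun q => q.1 - q.2 ∈ M' with hD
  have hDc : (M.card : ℝ) ^ 2 ≤ 4 * K ^ 4 * D.card := by
    have c1 := closeD ρ h0 h1 M hMne K P hK0 hP0 hP (hsub M Subset.rfl)
    have c2 : ∑ μ ∈ M, ∑ ν ∈ M, J ρ (μ - ν) ≤
        D.card * P + M.card * P + (M.card : ℝ) ^ 2 * (P / (2 * K ^ 4)) := by
      rw [← Finset.sum_product' M M (fun μ ν => J ρ (μ - ν))]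
      have c3 : ∀ q ∈ M ×ˢ M, J ρ (q.1 - q.2) ≤ (if q.1 - q.2 ∈ M' then P else 0) +
          (if q.1 = q.2 then P else 0) + P / (2 * K ^ 4) := by
        intro q _
        have hpos : 0 ≤ P / (2 * K ^ 4) := by positivity
        by_cases hq1 : q.1 - q.2 ∈ M'
        · rw [if_pos hq1]
          have h2 := J_le ρ h0 h1 (q.1 - q.2)
          rw [← hP] at h2
          have h3 : (0 : ℝ) ≤ if q.1 = q.2 then P else 0 := by split_ifs <;> linarith
          linarith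
        · rw [if_neg hq1, zero_add]
          by_cases hq2 : q.1 = q.2
          · rw [if_pos hq2]
            have h2 := J_le ρ h0 h1 (q.1 - q.2)
            rw [← hP] at h2
            linarith
          · rw [if_neg hq2, zero_add]
            have h2 : ¬ (q.1 - q.2 ≠ 0 ∧ P ≤ (2 * K ^ 4) * J ρ (q.1 - q.2)) := fun h =>
              hq1 (mem_filter.2 ⟨mem_univ _, h⟩)
            rw [le_div_iff₀ (by positivity), mul_comm]
            by_contra hcon
            exact h2 ⟨sub_ne_zero.2 hq2, (not_le.1 hcon).le⟩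
      refine (sum_le_sum c3).trans (le_of_eq ?_)
      rw [sum_add_distrib, sum_add_distrib, ← sum_filter, ← sum_filter, sum_const, sum_const,
        sum_const, nsmul_eq_mul, nsmul_eq_mul, nsmul_eq_mul, card_product]
      have e1 : ((M ×ˢ M).filter fun q => q.1 = q.2).card = M.card := by
        rw [← diag_eq_filter, diag_card]
      rw [e1]
      push_cast
      ring
    have c4 : (M.card : ℝ) ^ 2 * P ≤
        K ^ 4 * (D.card * P + M.card * P + (M.card : ℝ) ^ 2 * (P / (2 * K ^ 4))) :=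
      c1.trans (mul_le_mul_of_nonneg_left c2 (by positivity))
    have e2 : K ^ 4 * (D.card * P + M.card * P + (M.card : ℝ) ^ 2 * (P / (2 * K ^ 4))) =
        (K ^ 4 * D.card + K ^ 4 * M.card + (M.card : ℝ) ^ 2 / 2) * P := by
      field_simp
    rw [e2] at c4
    have c5 := le_of_mul_le_mul_right c4 hP0
    have c6 : 4 * K ^ 4 * M.card ≤ (M.card : ℝ) * M.card :=
      mul_le_mul_of_nonneg_right hMc hMpos.le
    nlinarith
  have hE : (M.card : ℝ) ^ 3 ≤ (16 * K ^ 8 * T) * (M.addEnergy M : ℕ) := by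
    have d1 : (D.card : ℝ) ^ 2 ≤ M'.card * (M.addEnergy M : ℕ) := by
      exact_mod_cast diff_energy M M'
    have d2 : (M.card : ℝ) ^ 3 * M.card ≤ ((16 * K ^ 8 * T) * (M.addEnergy M : ℕ)) * M.card := by
      calc (M.card : ℝ) ^ 3 * M.card = (M.card : ℝ) ^ 2 * (M.card : ℝ) ^ 2 := by ring
        _ ≤ (4 * K ^ 4 * D.card) * (4 * K ^ 4 * D.card) :=
            mul_le_mul hDc hDc (by positivity) (by positivity)
        _ = 16 * K ^ 8 * (D.card : ℝ) ^ 2 := by ring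
        _ ≤ 16 * K ^ 8 * (M'.card * (M.addEnergy M : ℕ)) :=
            mul_le_mul_of_nonneg_left d1 (by positivity)
        _ ≤ 16 * K ^ 8 * ((T * M.card) * (M.addEnergy M : ℕ)) := by gcongr
        _ = _ := by ring
    exact le_of_mul_le_mul_right d2 hMpos
  set K1 := 16 * K ^ 8 * T with hK1
  have hK1pos : 0 < K1 := by positivity
  have hK8 : K ^ 4 ≤ K ^ 8 := pow_le_pow_right₀ hK (by norm_num)
  have hK11 : 1 ≤ K1 := by
    rw [hK1]
    have : 1 ≤ K ^ 8 := one_le_pow₀ hK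
    nlinarith
  obtain ⟨M1, hM1M, hM1ne, hM1a, hM1b⟩ := Pool.Agent.H217R3.AK.bsg M hMne K1 hK1pos hE
  refine ⟨M1, hM1M, hM1a, ?_⟩
  have hM1pos : (0 : ℝ) < M1.card := by exact_mod_cast hM1ne.card_pos
  have hM10 : (0 : ZMod p) ∉ M1 := fun h => hM0 0 (hM1M h) rfl
  set K2 := 2 ^ 22 * K1 ^ 10 with hK2
  have hK1p : 1 ≤ K1 ^ 10 := one_le_pow₀ hK11
  have hK21 : 1 ≤ K2 := by rw [hK2]; nlinarith
  refine sum_product M1 hM10 K2 hK21 hM1b ?_
  -- multiplicative energy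
  set D1 := (M1 ×ˢ M1).filter fun q => q.2 / q.1 ∈ M' with hD1
  have hD1c : (M1.card : ℝ) ^ 2 ≤ 2 * K ^ 2 * D1.card := by
    have c1 := closeQ ρ h0 h1 M1 (fun μ hμ => hM0 μ (hM1M hμ)) K P hK0 hP0 hP (hsub M1 hM1M)
    have c2 : ∑ μ ∈ M1, ∑ ν ∈ M1, J ρ (ν / μ) ≤
        D1.card * P + (M1.card : ℝ) ^ 2 * (P / (2 * K ^ 4)) := by
      rw [← Finset.sum_product' M1 M1 (fun μ ν => J ρ (ν / μ))]
      have c3 : ∀ q ∈ M1 ×ˢ M1, J ρ (q.2 / q.1) ≤ (if q.2 / q.1 ∈ M' then P else 0) +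
          P / (2 * K ^ 4) := by
        intro q hq
        rw [mem_product] at hq
        have hpos : 0 ≤ P / (2 * K ^ 4) := by positivity
        by_cases hq1 : q.2 / q.1 ∈ M'
        · rw [if_pos hq1]
          have h2 := J_le ρ h0 h1 (q.2 / q.1)
          rw [← hP] at h2
          linarith
        · rw [if_neg hq1, zero_add]
          have h2 : ¬ (q.2 / q.1 ≠ 0 ∧ P ≤ (2 * K ^ 4) * J ρ (q.2 / q.1)) := fun h =>
            hq1 (mem_filter.2 ⟨mem_univ _, h⟩)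
          rw [le_div_iff₀ (by positivity), mul_comm]
          by_contra hcon
          exact h2 ⟨div_ne_zero (hM0 _ (hM1M hq.2)) (hM0 _ (hM1M hq.1)), (not_le.1 hcon).le⟩
      refine (sum_le_sum c3).trans (le_of_eq ?_)
      rw [sum_add_distrib, ← sum_filter, sum_const, sum_const, nsmul_eq_mul, nsmul_eq_mul,
        card_product]
      push_cast
      ring
    have c4 : (M1.card : ℝ) ^ 2 * P ≤
        K ^ 2 * (D1.card * P + (M1.card : ℝ) ^ 2 * (P / (2 * K ^ 4))) :=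
      c1.trans (mul_le_mul_of_nonneg_left c2 (by positivity))
    have e2 : K ^ 2 * (D1.card * P + (M1.card : ℝ) ^ 2 * (P / (2 * K ^ 4))) =
        (K ^ 2 * D1.card + (M1.card : ℝ) ^ 2 / (2 * K ^ 2)) * P := by
      field_simp
    rw [e2] at c4
    have c5 := le_of_mul_le_mul_right c4 hP0
    have c6 : (M1.card : ℝ) ^ 2 / (2 * K ^ 2) ≤ (M1.card : ℝ) ^ 2 / 2 := by
      apply div_le_div_of_nonneg_left (by positivity) (by norm_num)
      have : 1 ≤ K ^ 2 := one_le_pow₀ hK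
      linarith
    linarith
  have d1 : (D1.card : ℝ) ^ 2 ≤
      M'.card * ∑ b ∈ M1, ∑ a ∈ M1, (((a • M1) ∩ (b • M1)).card : ℝ) := by
    exact_mod_cast quot_energy M1 M' hM10
  set EX := ∑ b ∈ M1, ∑ a ∈ M1, (((a • M1) ∩ (b • M1)).card : ℝ) with hEX
  have hEX0 : 0 ≤ EX := sum_nonneg fun b _ => sum_nonneg fun a _ => Nat.cast_nonneg _
  have d2 : (M1.card : ℝ) ^ 3 * M1.card ≤ (K2 * EX) * M1.card := by
    calc (M1.card : ℝ) ^ 3 * M1.card = (M1.card : ℝ) ^ 2 * (M1.card : ℝ) ^ 2 := by ring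
      _ ≤ (2 * K ^ 2 * D1.card) * (2 * K ^ 2 * D1.card) :=
          mul_le_mul hD1c hD1c (by positivity) (by positivity)
      _ = 4 * K ^ 4 * (D1.card : ℝ) ^ 2 := by ring
      _ ≤ 4 * K ^ 4 * (M'.card * EX) := mul_le_mul_of_nonneg_left d1 (by positivity)
      _ ≤ 4 * K ^ 4 * ((T * M.card) * EX) :=
          mul_le_mul_of_nonneg_left (mul_le_mul_of_nonneg_right hMM hEX0) (by positivity)
      _ ≤ 4 * K ^ 4 * ((T * (8 * K1 * M1.card)) * EX) :=
          mul_le_mul_of_nonneg_left (mul_le_mul_of_nonneg_right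
            (mul_le_mul_of_nonneg_left hM1a hT0.le) hEX0) (by positivity)
      _ = (32 * K ^ 4 * T * K1) * EX * M1.card := by ring
      _ ≤ K2 * EX * M1.card := by
          refine mul_le_mul_of_nonneg_right (mul_le_mul_of_nonneg_right ?_ hEX0) hM1pos.le
          have f1 : 32 * K ^ 4 * T ≤ 2 * K1 := by
            have g1 : K ^ 4 * T ≤ K ^ 8 * T := mul_le_mul_of_nonneg_right hK8 hT0.le
            rw [hK1]
            linarith
          have f2 : K1 ^ 2 ≤ K1 ^ 10 := pow_le_pow_right₀ hK11 (by norm_num)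
          calc 32 * K ^ 4 * T * K1 ≤ 2 * K1 * K1 := mul_le_mul_of_nonneg_right f1 hK1pos.le
            _ = 2 * K1 ^ 2 := by ring
            _ ≤ 2 * K1 ^ 10 := by linarith
            _ ≤ K2 := by
                rw [hK2]
                have : (0 : ℝ) ≤ K1 ^ 10 := by positivity
                linarith
  exact le_of_mul_le_mul_right d2 hM1pos

end Pool.Agent.Y881.SP
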