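import Pool.Agent.Y881.SP.Sets

set_option autoImplicit false

/-! # Iterated convolution of random dilates -/

open Finset

namespace Pool.Agent.Y881.SP

variable {p : ℕ} [Fact p.Prime]

/-- one step: the law of `λ x - λ' x'` -/
noncomputable def R (ℓ ρ : ZMod p → ℝ) (x : ZMod p) : ℝ :=
  ∑ l, ∑ l', ℓ l * ℓ l' * conv ρ (-(l' / l)) (x / l)

theorem conv_nonneg (ρ : ZMod p → ℝ) (h0 : ∀ x, 0 ≤ ρ x) (μ z : ZMod p) : 0 ≤ conv ρ μ z :=
  sum_nonneg fun _ _ => mul_nonneg (h0 _) (h0 _)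

theorem conv_test (ρ F : ZMod p → ℝ) (μ : ZMod p) :
    ∑ z, conv ρ μ z * F z = ∑ y, ∑ y', ρ y * ρ y' * F (y + μ * y') := by
  unfold conv
  simp only [sum_mul]
  rw [sum_comm, sum_comm (s := univ) (t := univ) (f := fun y y' => ρ y * ρ y' * F (y + μ * y'))]
  refine sum_congr rfl fun y' _ => ?_
  rw [← Equiv.sum_comp (Equiv.addRight (μ * y'))]
  refine sum_congr rfl fun y _ => ?_
  simp only [Equiv.coe_addRight, add_sub_cancel_right]

theorem R_test (ℓ ρ : ZMod p → ℝ) (hz : ℓ 0 = 0) (F : ZMod p → ℝ) :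
    ∑ x, R ℓ ρ x * F x =
      ∑ l, ∑ l', ℓ l * ℓ l' * ∑ y, ∑ y', ρ y * ρ y' * F (l * y - l' * y') := by
  unfold R
  simp only [sum_mul]
  rw [sum_comm]
  refine sum_congr rfl fun l _ => ?_
  rw [sum_comm]
  refine sum_congr rfl fun l' _ => ?_
  by_cases hl : l = 0
  · rw [hl, hz]
    simp
  · have h1 : ∑ x, ℓ l * ℓ l' * conv ρ (-(l' / l)) (x / l) * F x =
        ℓ l * ℓ l' * ∑ z, conv ρ (-(l' / l)) z * F (l * z) := by
      rw [mul_sum, ← Equiv.sum_comp (Equiv.mulLeft₀ l hl)]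
      refine sum_congr rfl fun z _ => ?_
      rw [Equiv.mulLeft₀_apply, mul_div_cancel_left₀ _ hl]
      ring
    rw [h1, conv_test ρ (fun z => F (l * z))]
    congr 1
    refine sum_congr rfl fun y _ => sum_congr rfl fun y' _ => ?_
    congr 2
    field_simp
    ring

theorem R_nonneg (ℓ ρ : ZMod p → ℝ) (hℓ : ∀ x, 0 ≤ ℓ x) (h0 : ∀ x, 0 ≤ ρ x) (x : ZMod p) :
    0 ≤ R ℓ ρ x :=
  sum_nonneg fun l _ => sum_nonneg fun l' _ =>
    mul_nonneg (mul_nonneg (hℓ l) (hℓ l')) (conv_nonneg ρ h0 _ _)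

theorem R_sum (ℓ ρ : ZMod p → ℝ) (hz : ℓ 0 = 0) (hℓ1 : ∑ x, ℓ x = 1) (h1 : ∑ x, ρ x = 1) :
    ∑ x, R ℓ ρ x = 1 := by
  have h := R_test ℓ ρ hz (fun _ => 1)
  simp only [mul_one] at h
  rw [h]
  have h2 : ∑ y, ∑ y', ρ y * ρ y' = 1 := by
    rw [← sum_mul_sum, h1, mul_one]
  simp only [h2, mul_one]
  rw [← sum_mul_sum, hℓ1, mul_one]

/-- the norm after one step -/
theorem R_sq (ℓ ρ : ZMod p → ℝ) (hℓ : ∀ x, 0 ≤ ℓ x) (hz : ℓ 0 = 0) (hℓ1 : ∑ x, ℓ x = 1) :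
    ∑ x, R ℓ ρ x ^ 2 ≤ ∑ l, ∑ l', ℓ l * ℓ l' * ∑ z, conv ρ (-(l' / l)) z ^ 2 := by
  have h1 : ∀ x, R ℓ ρ x ^ 2 ≤ ∑ l, ∑ l', ℓ l * ℓ l' * conv ρ (-(l' / l)) (x / l) ^ 2 := by
    intro x
    have h2 := wcs ((univ : Finset (ZMod p)) ×ˢ (univ : Finset (ZMod p)))
      (fun q => ℓ q.1 * ℓ q.2) (fun q => conv ρ (-(q.2 / q.1)) (x / q.1))
      fun q _ => mul_nonneg (hℓ _) (hℓ _)
    rw [Finset.sum_product, Finset.sum_product, Finset.sum_product] at h2
    have h3 : ∑ l, ∑ l', ℓ l * ℓ l' = 1 := by rw [← sum_mul_sum, hℓ1, mul_one]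
    rw [h3, one_mul] at h2
    exact h2
  refine (sum_le_sum fun x _ => h1 x).trans (le_of_eq ?_)
  rw [sum_comm]
  refine sum_congr rfl fun l _ => ?_
  rw [sum_comm]
  refine sum_congr rfl fun l' _ => ?_
  rw [← mul_sum]
  by_cases hl : l = 0
  · rw [hl, hz]
    simp
  · congr 1
    rw [← Equiv.sum_comp (Equiv.mulLeft₀ l hl)]
    refine sum_congr rfl fun z _ => ?_
    rw [Equiv.mulLeft₀_apply, mul_div_cancel_left₀ _ hl]

/-- the step flattens -/
theorem R_flat (ℓ ρ : ZMod p → ℝ) (hℓ : ∀ x, 0 ≤ ℓ x) (hz : ℓ 0 = 0) (hℓ1 : ∑ x, ℓ x = 1)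
    (m : ℝ) (hm : ∀ x, ℓ x ≤ m) (h0 : ∀ x, 0 ≤ ρ x) (h1 : ∑ x, ρ x = 1) (K n : ℝ) (hK : 0 < K)
    (hn : ((sym ρ K).card : ℝ) ≤ n) :
    ∑ x, R ℓ ρ x ^ 2 ≤ (K⁻¹ + n * m) * ∑ x, ρ x ^ 2 := by
  have hp0 : (0 : ℝ) < p := by exact_mod_cast (Fact.out : p.Prime).pos
  have hm0 : 0 ≤ m := (hℓ 0).trans (hm 0)
  set N := ∑ x, ρ x ^ 2 with hN
  have hN0 : 0 ≤ N := sum_nonneg fun x _ => by positivity
  refine (R_sq ℓ ρ hℓ hz hℓ1).trans ?_
  have hc1 : ∀ μ, ∑ z, conv ρ μ z ^ 2 ≤ N := by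
    intro μ
    have h2 := J_le ρ h0 h1 μ
    rw [J_eq] at h2
    exact le_of_mul_le_mul_left h2 hp0
  have hc2 : ∀ μ, μ ≠ 0 → μ ∉ sym ρ K → ∑ z, conv ρ μ z ^ 2 ≤ K⁻¹ * N := by
    intro μ hμ0 hμ
    have h2 : ¬ (p * ∑ x, ρ x ^ 2 ≤ K * J ρ μ) := fun h =>
      hμ (mem_filter.2 ⟨mem_univ _, hμ0, h⟩)
    have h3 := (not_le.1 h2).le
    rw [J_eq, ← hN] at h3
    have h4 : p * (K * ∑ z, conv ρ μ z ^ 2) ≤ p * N := by linarith
    have h5 := le_of_mul_le_mul_left h4 hp0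
    rw [← div_eq_inv_mul, le_div_iff₀ hK, mul_comm]
    exact h5
  have hinner : ∀ l, ℓ l * ∑ l', ℓ l' * ∑ z, conv ρ (-(l' / l)) z ^ 2 ≤
      ℓ l * ((K⁻¹ + n * m) * N) := by
    intro l
    by_cases hl : l = 0
    · rw [hl, hz, zero_mul, zero_mul]
    refine mul_le_mul_of_nonneg_left ?_ (hℓ l)
    classical
    have h2 : ∀ l', ℓ l' * ∑ z, conv ρ (-(l' / l)) z ^ 2 ≤
        ℓ l' * (K⁻¹ * N) + (if -(l' / l) ∈ sym ρ K then m * N else 0) := by
      intro l'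
      by_cases hl' : l' = 0
      · rw [hl', hz]
        have : (0 : ℝ) ≤ if -((0 : ZMod p) / l) ∈ sym ρ K then m * N else 0 := by
          split_ifs
          · positivity
          · exact le_rfl
        simpa using this
      by_cases hb : -(l' / l) ∈ sym ρ K
      · rw [if_pos hb]
        have h3 : ℓ l' * ∑ z, conv ρ (-(l' / l)) z ^ 2 ≤ m * N :=
          mul_le_mul (hm l') (hc1 _) (sum_nonneg fun z _ => by positivity) hm0
        have h4 : 0 ≤ ℓ l' * (K⁻¹ * N) := mul_nonneg (hℓ l') (by positivity)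
        linarith
      · rw [if_neg hb, add_zero]
        exact mul_le_mul_of_nonneg_left (hc2 _ (neg_ne_zero.2 (div_ne_zero hl' hl)) hb) (hℓ l')
    refine (sum_le_sum fun l' _ => h2 l').trans ?_
    rw [sum_add_distrib, ← sum_mul, hℓ1, one_mul, ← sum_filter, sum_const, nsmul_eq_mul]
    have h3 : ((univ.filter fun l' => -(l' / l) ∈ sym ρ K).card : ℝ) ≤ n := by
      refine le_trans ?_ hn
      have h4 : (univ.filter fun l' => -(l' / l) ∈ sym ρ K).card ≤ (sym ρ K).card := by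
        refine card_le_card_of_injOn (fun l' => -(l' / l)) ?_ ?_
        · intro l' hl'
          exact (mem_filter.1 hl').2
        · intro a _ b _ hab
          have := neg_injective hab
          rwa [div_left_inj' hl] at this
      exact_mod_cast h4
    have h5 := mul_le_mul_of_nonneg_right h3 (mul_nonneg hm0 hN0)
    linarith
  calc ∑ l, ∑ l', ℓ l * ℓ l' * ∑ z, conv ρ (-(l' / l)) z ^ 2 =
        ∑ l, ℓ l * ∑ l', ℓ l' * ∑ z, conv ρ (-(l' / l)) z ^ 2 := by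
        refine sum_congr rfl fun l _ => ?_
        rw [mul_sum]
        exact sum_congr rfl fun l' _ => by ring
    _ ≤ ∑ l, ℓ l * ((K⁻¹ + n * m) * N) := sum_le_sum fun l _ => hinner l
    _ = _ := by rw [← sum_mul, hℓ1, one_mul]

/-- the correlation of a weight under the shifts of law `ρ` -/
noncomputable def Q (ρ w : ZMod p → ℝ) : ℝ := ∑ x, ρ x * ∑ s, w s * w (s + x)

/-- robust near-invariance of the set `Y` under the shifts of law `ρ` -/
def Rob (Y : Finset (ZMod p)) (ρ : ZMod p → ℝ) (e : ℕ) (C : ℝ) : Prop :=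
  ∀ w : ZMod p → ℝ, (∀ x, 0 ≤ w x) → (∀ x, w x ≤ 1) → (∀ x, x ∉ Y → w x = 0) →
    (∑ x, w x) ^ e ≤ C * (Y.card : ℝ) ^ (e - 1) * Q ρ w

theorem Q_R (ℓ ρ w : ZMod p → ℝ) (hz : ℓ 0 = 0) :
    Q (R ℓ ρ) w = ∑ s, (∑ l, ∑ y, ℓ l * ρ y * w (s + l * y)) ^ 2 := by
  unfold Q
  rw [R_test ℓ ρ hz (fun x => ∑ s, w s * w (s + x))]
  have h1 : ∀ l l' y y' : ZMod p, ∑ s, w s * w (s + (l * y - l' * y')) =
      ∑ s, w (s + l' * y') * w (s + l * y) := by
    intro l l' y y'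
    rw [← Equiv.sum_comp (Equiv.addRight (l' * y'))]
    refine sum_congr rfl fun s _ => ?_
    simp only [Equiv.coe_addRight]
    congr 2
    ring
  simp only [h1]
  have h2 : ∀ s, (∑ l, ∑ y, ℓ l * ρ y * w (s + l * y)) ^ 2 =
      ∑ l, ∑ l', ∑ y, ∑ y', ℓ l * ℓ l' * (ρ y * ρ y' * (w (s + l' * y') * w (s + l * y))) := by
    intro s
    rw [sq, sum_mul_sum]
    refine sum_congr rfl fun l _ => sum_congr rfl fun l' _ => ?_
    rw [sum_mul_sum]
    refine sum_congr rfl fun y _ => sum_congr rfl fun y' _ => ?_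
    ring
  rw [sum_congr rfl fun s _ => h2 s]
  symm
  rw [sum_comm]
  refine sum_congr rfl fun l _ => ?_
  rw [sum_comm]
  refine sum_congr rfl fun l' _ => ?_
  rw [mul_sum, sum_comm]
  refine sum_congr rfl fun y _ => ?_
  rw [mul_sum, sum_comm]
  refine sum_congr rfl fun y' _ => ?_
  rw [mul_sum, mul_sum]

theorem Rob_step (Y : Finset (ZMod p)) (ℓ ρ : ZMod p → ℝ) (hℓ : ∀ x, 0 ≤ ℓ x) (hz : ℓ 0 = 0)
    (hℓ1 : ∑ x, ℓ x = 1) (h0 : ∀ x, 0 ≤ ρ x) (e : ℕ) (he : 1 ≤ e) (C K : ℝ) (hC : 0 ≤ C)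
    (hK : 0 < K)
    (hpop : ∀ y ∈ Y, 1 ≤ K * ∑ l ∈ univ.filter (fun l => l⁻¹ * y ∈ Y), ℓ l)
    (h : Rob Y ρ e C) : Rob Y (R ℓ ρ) (2 * e - 1) (K ^ (2 * e) * C ^ 2) := by
  classical
  intro w hw0 hw1 hwY
  set m := ∑ x, w x with hm
  have hm0 : 0 ≤ m := sum_nonneg fun x _ => hw0 x
  set g : ZMod p → ℝ := fun s => ∑ l, ∑ y, ℓ l * ρ y * w (s + l * y) with hg
  have hg0 : ∀ s, 0 ≤ g s := fun s => sum_nonneg fun l _ => sum_nonneg fun y _ =>
    mul_nonneg (mul_nonneg (hℓ l) (h0 y)) (hw0 _)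
  have hQ : Q (R ℓ ρ) w = ∑ s, g s ^ 2 := Q_R ℓ ρ w hz
  set A := ∑ s, w s * g s with hA
  have hA2 : A ^ 2 ≤ m * Q (R ℓ ρ) w := by
    rw [hQ]
    refine (wcs univ w g fun s _ => hw0 s).trans ?_
    refine mul_le_mul_of_nonneg_left (sum_le_sum fun s _ => ?_) hm0
    exact mul_le_of_le_one_left (by positivity) (hw1 s)
  -- the dilated weights
  set v : ZMod p → ZMod p → ℝ := fun l u => if u ∈ Y then w (l * u) else 0 with hv
  have hAv : ∑ l, ℓ l * Q ρ (v l) ≤ A := by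
    have h1 : A = ∑ l, ℓ l * ∑ y, ρ y * ∑ s, w s * w (s + l * y) := by
      simp only [hA, hg, mul_sum]
      rw [sum_comm]
      refine sum_congr rfl fun l _ => ?_
      rw [sum_comm]
      refine sum_congr rfl fun y _ => sum_congr rfl fun s _ => ?_
      ring
    rw [h1]
    refine sum_le_sum fun l _ => ?_
    by_cases hl : l = 0
    · rw [hl, hz, zero_mul, zero_mul]
    refine mul_le_mul_of_nonneg_left ?_ (hℓ l)
    unfold Q
    refine sum_le_sum fun y _ => mul_le_mul_of_nonneg_left ?_ (h0 y)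
    rw [← Equiv.sum_comp (Equiv.mulLeft₀ l hl) (fun s => w s * w (s + l * y))]
    refine sum_le_sum fun u _ => ?_
    rw [Equiv.mulLeft₀_apply, ← mul_add]
    simp only [hv]
    have ha := hw0 (l * u)
    have hb := hw0 (l * (u + y))
    by_cases h1 : u ∈ Y
    · rw [if_pos h1]
      by_cases h2 : u + y ∈ Y
      · rw [if_pos h2]
      · rw [if_neg h2, mul_zero]
        positivity
    · rw [if_neg h1, zero_mul]
      positivity
  have hvm : m ≤ K * ∑ l, ℓ l * ∑ u, v l u := by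
    have h1 : ∑ l, ℓ l * ∑ u, v l u = ∑ s, w s * ∑ l ∈ univ.filter (fun l => l⁻¹ * s ∈ Y), ℓ l := by
      have h2 : ∀ l, ℓ l * ∑ u, v l u = ∑ s, if l⁻¹ * s ∈ Y then w s * ℓ l else 0 := by
        intro l
        by_cases hl : l = 0
        · rw [hl, hz, zero_mul]
          symm
          refine sum_eq_zero fun s _ => ?_
          split_ifs <;> simp
        rw [mul_sum, ← Equiv.sum_comp (Equiv.mulLeft₀ l hl)
          (fun s => if l⁻¹ * s ∈ Y then w s * ℓ l else 0)]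
        refine sum_congr rfl fun u _ => ?_
        rw [Equiv.mulLeft₀_apply, inv_mul_cancel_left₀ hl]
        simp only [hv]
        split_ifs
        · ring
        · simp
      rw [sum_congr rfl fun l _ => h2 l, sum_comm]
      refine sum_congr rfl fun s _ => ?_
      rw [← sum_filter, mul_sum]
    rw [h1, mul_sum, hm]
    refine sum_le_sum fun s _ => ?_
    by_cases hs : s ∈ Y
    · have h2 := hpop s hs
      calc w s = w s * 1 := (mul_one _).symm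
        _ ≤ w s * (K * ∑ l ∈ univ.filter (fun l => l⁻¹ * s ∈ Y), ℓ l) :=
            mul_le_mul_of_nonneg_left h2 (hw0 s)
        _ = _ := by ring
    · rw [hwY s hs]
      simp
  -- Jensen
  have hjen : (∑ l, ℓ l * ∑ u, v l u) ^ e ≤ ∑ l, ℓ l * (∑ u, v l u) ^ e := by
    have hv0 : ∀ l, 0 ≤ ∑ u, v l u := fun l => sum_nonneg fun u _ => by
      simp only [hv]
      split_ifs
      · exact hw0 _
      · exact le_rfl
    exact Real.pow_arith_mean_le_arith_mean_pow univ ℓ (fun l => ∑ u, v l u)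
      (fun l _ => hℓ l) hℓ1 (fun l _ => hv0 l) e
  have hrob : ∀ l, (∑ u, v l u) ^ e ≤ C * (Y.card : ℝ) ^ (e - 1) * Q ρ (v l) := by
    intro l
    refine h (v l) (fun u => ?_) (fun u => ?_) (fun u hu => ?_)
    · simp only [hv]
      split_ifs
      · exact hw0 _
      · exact le_rfl
    · simp only [hv]
      split_ifs
      · exact hw1 _
      · exact zero_le_one
    · simp only [hv]
      rw [if_neg hu]
  have hmain : m ^ e ≤ K ^ e * (C * (Y.card : ℝ) ^ (e - 1) * A) := by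
    have hv0 : 0 ≤ ∑ l, ℓ l * ∑ u, v l u := sum_nonneg fun l _ =>
      mul_nonneg (hℓ l) (sum_nonneg fun u _ => by
        simp only [hv]
        split_ifs
        · exact hw0 _
        · exact le_rfl)
    calc m ^ e ≤ (K * ∑ l, ℓ l * ∑ u, v l u) ^ e := pow_le_pow_left₀ hm0 hvm e
      _ = K ^ e * (∑ l, ℓ l * ∑ u, v l u) ^ e := mul_pow _ _ _
      _ ≤ K ^ e * ∑ l, ℓ l * (∑ u, v l u) ^ e :=
          mul_le_mul_of_nonneg_left hjen (by positivity)
      _ ≤ K ^ e * ∑ l, ℓ l * (C * (Y.card : ℝ) ^ (e - 1) * Q ρ (v l)) :=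
          mul_le_mul_of_nonneg_left
            (sum_le_sum fun l _ => mul_le_mul_of_nonneg_left (hrob l) (hℓ l)) (by positivity)
      _ = K ^ e * (C * (Y.card : ℝ) ^ (e - 1) * ∑ l, ℓ l * Q ρ (v l)) := by
          congr 1
          rw [mul_sum]
          exact sum_congr rfl fun l _ => by ring
      _ ≤ _ := by gcongr
  rcases hm0.eq_or_lt with hm00 | hmpos
  · rw [← hm00, zero_pow (by omega)]
    have hQ0 : 0 ≤ Q (R ℓ ρ) w := by
      rw [hQ]
      exact sum_nonneg fun s _ => by positivity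
    positivity
  · have h1 : (m ^ e) ^ 2 ≤ (K ^ e * (C * (Y.card : ℝ) ^ (e - 1) * A)) ^ 2 :=
      pow_le_pow_left₀ (by positivity) hmain 2
    have h2 : (K ^ e * (C * (Y.card : ℝ) ^ (e - 1) * A)) ^ 2 =
        K ^ (2 * e) * C ^ 2 * (Y.card : ℝ) ^ (2 * e - 1 - 1) * A ^ 2 := by
      rw [show 2 * e - 1 - 1 = 2 * (e - 1) by omega]
      ring
    have h3 : m ^ (2 * e - 1) * m ≤
        (K ^ (2 * e) * C ^ 2 * (Y.card : ℝ) ^ (2 * e - 1 - 1) * Q (R ℓ ρ) w) * m := by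
      calc m ^ (2 * e - 1) * m = (m ^ e) ^ 2 := by
            rw [← pow_succ, ← pow_mul]
            congr 1
            omega
        _ ≤ _ := h1
        _ = _ := h2
        _ ≤ K ^ (2 * e) * C ^ 2 * (Y.card : ℝ) ^ (2 * e - 1 - 1) * (m * Q (R ℓ ρ) w) :=
            mul_le_mul_of_nonneg_left hA2 (by positivity)
        _ = _ := by ring
    exact le_of_mul_le_mul_right h3 hmpos

end Pool.Agent.Y881.SP
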